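import Pool.Agent.Lib.MP_6e5bed_ag_GG.TDef

set_option autoImplicit false

/-!
# Closed subvarieties of projective spaces and their dg algebras (MP_6e5bed_ag)
-/

noncomputable section

namespace Pool.Agent.MP_6e5bed_ag_Pn

open Pool.Agent.MP_6e5bed_ag_SP

universe u

variable {m : ℕ} (k : Type u) {M : Type u} [Field k] [Field M] [Algebra k M]
  (y : Fin (m + 1) → Mˣ)

/-- Let `Y` be the closed subvariety of the projective space with the generic point
`(y_0 : … : y_m)`, where the `y_j` are nonzero elements of the field `M` over `k` and one of them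
is `1`. Then `SecY k y b I` is the space of sections of the line bundle `O(b)` on the open subset
of `Y` where the coordinates `x_j` with `j ∈ I` do not vanish, considered as elements of `M`: the
linear combinations of the monomials `∏ y_j ^ e_j` of degree `∑ e_j = b` with `0 ≤ e_j` for
`j ∉ I`. -/
def SecY (b : ℤ) (I : Finset (Fin (m + 1))) : Submodule k M :=
  Submodule.span k {u | ∃ e : Fin (m + 1) → ℤ, ∑ j, e j = b ∧ (∀ j, j ∉ I → 0 ≤ e j) ∧
    u = ((∏ j, y j ^ e j : Mˣ) : M)}

theorem SecY_mono (b : ℤ) {I J : Finset (Fin (m + 1))} (h : I ⊆ J) :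
    SecY k y b I ≤ SecY k y b J :=
  Submodule.span_mono fun _ ⟨e, h1, h2, h3⟩ => ⟨e, h1, fun j hj => h2 j fun h' => hj (h h'), h3⟩

theorem SecY_one (I : Finset (Fin (m + 1))) : (1 : M) ∈ SecY k y 0 I :=
  Submodule.subset_span ⟨0, by simp, fun _ _ => le_rfl, by simp⟩

theorem SecY_mul {b b' : ℤ} {I : Finset (Fin (m + 1))} {u v : M} (hu : u ∈ SecY k y b I)
    (hv : v ∈ SecY k y b' I) : u * v ∈ SecY k y (b + b') I := by
  induction hu using Submodule.span_induction with
  | mem x hx =>
    obtain ⟨e, h1, h2, rfl⟩ := hx
    induction hv using Submodule.span_induction with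
    | mem z hz =>
      obtain ⟨e', h1', h2', rfl⟩ := hz
      refine Submodule.subset_span ⟨e + e', ?_, fun j hj => add_nonneg (h2 j hj) (h2' j hj), ?_⟩
      · simp only [Pi.add_apply, Finset.sum_add_distrib, h1, h1']
      · rw [← Units.val_mul, ← Finset.prod_mul_distrib]
        simp only [Pi.add_apply, zpow_add]
    | zero => rw [mul_zero]; exact Submodule.zero_mem _
    | add a b _ _ ha hb => rw [mul_add]; exact Submodule.add_mem _ ha hb
    | smul c x _ hx => rw [mul_smul_comm]; exact Submodule.smul_mem _ c hx
  | zero => rw [zero_mul]; exact Submodule.zero_mem _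
  | add a b _ _ ha hb => rw [add_mul]; exact Submodule.add_mem _ ha hb
  | smul c x _ hx => rw [smul_mul_assoc]; exact Submodule.smul_mem _ c hx

/-- The sections of the sheaf of endomorphisms of the vector bundle `O ⊕ O(1) ⊕ … ⊕ O(m)` on the
open subset of `Y` where the coordinates `x_j` with `j ∈ I` do not vanish: the matrices over `M`
whose entry in the row `p` and the column `q` is a section of `O(p - q)`. -/
def EndY (I : Finset (Fin (m + 1))) : Subalgebra k (Matrix (Fin (m + 1)) (Fin (m + 1)) M) where
  carrier := {f | ∀ p q : Fin (m + 1), f p q ∈ SecY k y (((p : ℕ) : ℤ) - ((q : ℕ) : ℤ)) I}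
  mul_mem' := fun {f g} hf hg p q => by
    rw [Matrix.mul_apply]
    refine Submodule.sum_mem _ fun s _ => ?_
    have h := SecY_mul k y (hf p s) (hg s q)
    rwa [sub_add_sub_cancel] at h
  add_mem' := fun {f g} hf hg p q => Submodule.add_mem _ (hf p q) (hg p q)
  algebraMap_mem' := fun c p q => by
    rw [Matrix.algebraMap_matrix_apply]
    split_ifs with h
    · subst h
      rw [sub_self, Algebra.algebraMap_eq_smul_one]
      exact Submodule.smul_mem _ _ (SecY_one k y I)
    · exact Submodule.zero_mem _

theorem EndY_mono {I J : Finset (Fin (m + 1))} (h : I ⊆ J) : EndY k y I ≤ EndY k y J :=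
  fun _ hf p q => SecY_mono k y _ h (hf p q)

variable {k}

/-- The dg algebra `X` is `RΓ(Y, End(O ⊕ O(1) ⊕ … ⊕ O(m)))`, computed by the Čech complex of the
standard charts, where `Y` is the closed subvariety of the projective space with the generic point
`(y_0 : … : y_m)` and the function field `M`. (The bundle is a generator of the derived category
of `Y`, so `X` is derived Morita equivalent to `perf_dg(Y)`.) -/
def IsVar {T : Type u} [Ring T] [Algebra k T] (X : DG k T) : Prop :=
  (∃ j, y j = 1) ∧ IntermediateField.adjoin k (Set.range fun j => (y j : M)) = ⊤ ∧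
    ∃ e : T →ₗ[k] ∀ I, EndY k y I,
      IsCech (fun _ _ h => Subalgebra.inclusion (EndY_mono k y h)) X e

end Pool.Agent.MP_6e5bed_ag_Pn
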