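import Pool.Agent.Lib.MP_6e5bed_ag_GG.TCech

set_option autoImplicit false
set_option linter.unusedVariables false
set_option linter.unusedSectionVars false
set_option linter.style.haveILetI false

/-!
# MP_6e5bed_ag, THEOREM V: the Čech dg algebra of a coherent algebra given by its sections

As in GG/TCech, for a coherent algebra `A` and algebras `B I` with isomorphisms `A_d ≃ B (σ d)`.
-/

noncomputable section

namespace Pool.Agent.MP_6e5bed_ag_GG

open Pool.Agent.MP_6e5bed_ag_Pn Pool.Agent.MP_6e5bed_ag_NC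
  Pool.Agent.MP_6e5bed_ag_NS Pool.Agent.MP_6e5bed_ag_PN
open Pool.Agent.MP_6e5bed_ag_SP (DG Rep RA repOf)

universe u

/-- The algebras `B I` are the sections of the coherent algebra `A`. -/
structure CeId {ν : ℕ} {k : Type u} [Field k] {i : Type} [Fintype i] [DecidableEq i] (A : CA k i)
    (σ : i ≃ Fin (ν + 1)) {B : Finset (Fin (ν + 1)) → Type u} [∀ I, Ring (B I)]
    [∀ I, Algebra k (B I)] (r : ∀ I J : Finset (Fin (ν + 1)), I ⊆ J → B I →ₐ[k] B J) where
  φ : ∀ d : Ch i, A.A d ≃ₐ[k] B (tf σ d.1)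
  nat : ∀ {c d : Ch i} (h : c ≤ d) (a : A.A c),
    φ d (A.res h a) = r (tf σ c.1) (tf σ d.1) (tf_mono h) (φ c a)
  rid : ∀ {I : Finset (Fin (ν + 1))} (h : I ⊆ I) (b : B I), r I I h b = b
  rr : ∀ {I J L : Finset (Fin (ν + 1))} (h : I ⊆ J) (h' : J ⊆ L) (b : B I),
    r J L h' (r I J h b) = r I L (h.trans h') b

namespace CeId

variable {ν : ℕ} {k : Type u} [Field k] {i : Type} [Fintype i] [DecidableEq i] {A : CA k i}
  {σ : i ≃ Fin (ν + 1)} {B : Finset (Fin (ν + 1)) → Type u} [∀ I, Ring (B I)]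
  [∀ I, Algebra k (B I)] {r : ∀ I J : Finset (Fin (ν + 1)), I ⊆ J → B I →ₐ[k] B J}
  (H : CeId A σ r)

/-- the family of restrictions of a family of sections -/
def U : (∀ I, B I) →ₗ[k] Fam A where
  toFun := fun a I d => by
    classical
    exact if hI : mp σ I ⊆ tf σ d.1 then
      (H.φ d).symm (r (mp σ I) (tf σ d.1) hI (a (mp σ I))) else 0
  map_add' := fun a b => by
    funext I d
    change (dite _ _ _ : A.A d) = (dite _ _ _ : A.A d) + (dite _ _ _ : A.A d)
    by_cases hI : mp σ I ⊆ tf σ d.1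
    · rw [dif_pos hI, dif_pos hI, dif_pos hI, Pi.add_apply, map_add, map_add]
    · rw [dif_neg hI, dif_neg hI, dif_neg hI, add_zero]
  map_smul' := fun s a => by
    funext I d
    change (dite _ _ _ : A.A d) = s • (dite _ _ _ : A.A d)
    by_cases hI : mp σ I ⊆ tf σ d.1
    · rw [dif_pos hI, dif_pos hI, Pi.smul_apply, map_smul, map_smul]
    · rw [dif_neg hI, dif_neg hI, smul_zero]

theorem U_apply (a : ∀ I, B I) (I : Finset i) (d : Ch i) (hI : mp σ I ⊆ tf σ d.1) :
    H.U a I d = (H.φ d).symm (r (mp σ I) (tf σ d.1) hI (a (mp σ I))) := dif_pos hI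

theorem symm_nat {c d : Ch i} (h : c ≤ d) (b : B (tf σ c.1)) :
    A.res h ((H.φ c).symm b) = (H.φ d).symm (r (tf σ c.1) (tf σ d.1) (tf_mono h) b) := by
  apply (H.φ d).injective
  rw [H.nat, AlgEquiv.apply_symm_apply, AlgEquiv.apply_symm_apply]

theorem U_cmp (a : ∀ I, B I) (L : List i) (c : FS i) : Cmp A L c (H.U a) := by
  intro I d e hde hI hIL hc hd
  rw [H.U_apply a I d (mp_sub.2 hd), H.U_apply a I e (mp_sub.2 (hd.trans hde)), H.symm_nat, H.rr]

/-- the element of the Čech dg algebra -/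
def E (L : List i) : (∀ I, B I) →ₗ[k] (cA A.pa L (FS.e i)).A := Phi A L (FS.e i) ∘ₗ H.U

theorem E_inj {L : List i} (hL : L.Nodup) (hm : ∀ l, l ∈ L) (a : ∀ I, B I) (ha : a ∅ = 0)
    (h0 : H.E L a = 0) : a = 0 := by
  funext J
  by_cases hJ : J.Nonempty
  · have h1 := Phi_inj L hL (FS.e i) (H.U a) h0 (mq σ J) (chJ σ J hJ) (by
      obtain ⟨x, hx⟩ := hJ
      exact ⟨σ.symm x, mem_mq.2 (by rw [Equiv.apply_symm_apply]; exact hx)⟩)
      (fun x _ => hm x) (Set.empty_union _).symm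
    have h2 : mp σ (mq σ J) = tf σ (chJ σ J hJ).1 := mp_eq rfl
    rw [H.U_apply a _ _ h2.le, map_eq_zero_iff _ (H.φ _).symm.injective] at h1
    have h3 : r J J (Finset.Subset.refl J) (a J) = 0 := by
      have h4 := congrArg (r (tf σ (chJ σ J hJ).1) J (tf_chJ σ J hJ).le) h1
      have h5 : r (tf σ (chJ σ J hJ).1) J (tf_chJ σ J hJ).le
          (r (mp σ (mq σ J)) (tf σ (chJ σ J hJ).1) h2.le (a (mp σ (mq σ J)))) =
          r (mp σ (mq σ J)) J (mp_mq σ J).le (a (mp σ (mq σ J))) := H.rr _ _ _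
      rw [← r_congr r (mp_mq σ J) (mp_mq σ J).le (Finset.Subset.refl J) a, ← h5]
      exact h4.trans (map_zero _)
    rwa [H.rid] at h3
  · rw [Finset.not_nonempty_iff_eq_empty.1 hJ, ha]
    rfl

theorem E_surj {L : List i} (hL : L.Nodup) (x : (cA A.pa L (FS.e i)).A) :
    ∃ a : ∀ I, B I, a ∅ = 0 ∧ H.E L a = x := by
  classical
  obtain ⟨u, hu, rfl⟩ := Phi_surj (A := A) L hL (FS.e i) x
  let a : ∀ I, B I := fun J => if hJ : J.Nonempty then
    r (tf σ (chJ σ J hJ).1) J (tf_chJ σ J hJ).le (H.φ _ (u (mq σ J) (chJ σ J hJ))) else 0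
  have ha : ∀ J (hJ : J.Nonempty), a J =
    r (tf σ (chJ σ J hJ).1) J (tf_chJ σ J hJ).le (H.φ _ (u (mq σ J) (chJ σ J hJ))) :=
      fun J hJ => dif_pos hJ
  refine ⟨a, dif_neg Finset.not_nonempty_empty, ?_⟩
  refine Phi_congr L (FS.e i) _ _ fun I d hI hIL _ hd => ?_
  have hJ : (mp σ I).Nonempty := by
    obtain ⟨x, hx⟩ := hI
    exact ⟨σ x, mem_mp.2 (by rw [Equiv.symm_apply_apply]; exact hx)⟩
  rw [H.U_apply a I d (mp_sub.2 hd), ha _ hJ]
  have hcd : chJ σ (mp σ I) hJ ≤ d := by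
    change (↑(mq σ (mp σ I)) : Set i) ⊆ d.1
    rw [mq_mp]
    exact hd
  rw [H.rr, ← H.nat hcd, AlgEquiv.symm_apply_apply]
  have h1 := hu (mq σ (mp σ I)) (chJ σ (mp σ I) hJ) d hcd (by rw [mq_mp]; exact hI)
    (by rw [mq_mp]; exact hIL) (Set.empty_subset _) subset_rfl
  refine Eq.trans h1 ?_
  rw [mq_mp]

theorem E_one {L : List i} (hL : L.Nodup) :
    H.E L (fun I => if I.card = 1 then 1 else 0) = cU A.pa L (FS.e i) := by
  rw [← Phi_one L hL]
  refine Phi_congr L (FS.e i) _ _ fun I d hI hIL _ hd => ?_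
  rw [H.U_apply _ I d (mp_sub.2 hd)]
  unfold oneF
  rw [mp_card]
  split_ifs
  · rw [map_one, map_one]
  · rw [map_zero, map_zero]

theorem E_mul {L : List i} (hL : Dec σ L) (a b : ∀ I, B I) :
    (cA A.pa L (FS.e i)).mul (H.E L a) (H.E L b) = H.E L (cupB r a b) := by
  refine (Phi_mul σ.injective L hL (FS.e i) _ _ (H.U_cmp a _ _)
    (H.U_cmp b _ _)).trans ?_
  refine Phi_congr L (FS.e i) _ _ fun I d hI hIL _ hd => ?_
  rw [H.U_apply (cupB r a b) I d (mp_sub.2 hd)]
  unfold cupB cup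
  rw [map_sum, map_sum]
  unfold mp
  rw [Finset.sum_map]
  refine Finset.sum_congr rfl fun j hj => ?_
  have e1 : (I.map σ.toEmbedding).filter (· ≤ σ.toEmbedding j) =
      mp σ (I.filter (fun x => σ x ≤ σ j)) := Finset.filter_map
  have e2 : (I.map σ.toEmbedding).filter (σ.toEmbedding j ≤ ·) =
      mp σ (I.filter (fun x => σ j ≤ σ x)) := Finset.filter_map
  have s1 : mp σ (I.filter (fun x => σ x ≤ σ j)) ⊆ tf σ d.1 :=
    mp_sub.2 ((Finset.coe_subset.2 (Finset.filter_subset _ _)).trans hd)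
  have s2 : mp σ (I.filter (fun x => σ j ≤ σ x)) ⊆ tf σ d.1 :=
    mp_sub.2 ((Finset.coe_subset.2 (Finset.filter_subset _ _)).trans hd)
  rw [H.U_apply a _ d s1, H.U_apply b _ d s2, map_mul, H.rr, H.rr, map_mul]
  exact congrArg₂ _ (congrArg _ (r_congr r e1 _ _ a).symm) (congrArg _ (r_congr r e2 _ _ b).symm)

theorem E_d {L : List i} (hL : Dec σ L) (a : ∀ I, B I) (ha : a ∅ = 0) :
    (cA A.pa L (FS.e i)).dg.d (H.E L a) = H.E L (difB r a) := by
  refine (Phi_d L hL (FS.e i) _ (H.U_cmp a _ _)).trans ?_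
  refine Phi_congr L (FS.e i) _ _ fun I d hI hIL _ hd => ?_
  rw [H.U_apply (difB r a) I d (mp_sub.2 hd)]
  unfold difB dF
  rw [map_sum, map_sum]
  unfold mp
  rw [Finset.sum_map]
  refine Finset.sum_congr rfl fun j hj => ?_
  have e1 : (I.map σ.toEmbedding).filter (· < σ.toEmbedding j) =
      mp σ (I.filter (fun x => σ x < σ j)) := Finset.filter_map
  have e2 : (I.map σ.toEmbedding).erase (σ.toEmbedding j) = mp σ (I.erase j) :=
    (Finset.map_erase _ _ _).symm
  have s1 : mp σ (I.erase j) ⊆ tf σ d.1 :=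
    mp_sub.2 ((Finset.coe_subset.2 (Finset.erase_subset _ _)).trans hd)
  have h1 : r ((I.map σ.toEmbedding).erase (σ.toEmbedding j)) (tf σ d.1)
      ((Finset.erase_subset _ _).trans (mp_sub.2 hd)) (a _) =
      r (mp σ (I.erase j)) (tf σ d.1) s1 (a _) := r_congr r e2 _ _ a
  rw [map_zsmul, map_zsmul, H.rr, h1, e1, mp_card]
  by_cases he : I.erase j = ∅
  · rw [if_pos he]
    have h2 : mp σ (I.erase j) = ∅ := by rw [he]; rfl
    have h3 : r (mp σ (I.erase j)) (tf σ d.1) s1 (a _) =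
      r ∅ (tf σ d.1) (Finset.empty_subset _) (a ∅) := r_congr r h2 _ _ a
    rw [h3, ha, map_zero, map_zero, smul_zero]
  · rw [if_neg he, H.U_apply a _ d s1]

theorem E_deg {L : List i} (hL : L.Nodup) (hm : ∀ l, l ∈ L) (a : ∀ I, B I) (ha : a ∅ = 0)
    (m : ℤ) : (cA A.pa L (FS.e i)).dg.IsDeg m (H.E L a) ↔
      ∀ J, a J ≠ 0 → (J.card : ℤ) = m + 1 := by
  refine (Phi_deg L hL (FS.e i) (H.U a) m).trans ?_
  constructor
  · intro h1 J hJ0
    by_contra hc
    have hJ : J.Nonempty := by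
      rw [Finset.nonempty_iff_ne_empty]
      rintro rfl
      exact hJ0 ha
    have hI : (mq σ J).Nonempty := by
      obtain ⟨x, hx⟩ := hJ
      exact ⟨σ.symm x, mem_mq.2 (by rw [Equiv.apply_symm_apply]; exact hx)⟩
    have h2 := h1 (mq σ J) (chJ σ J hJ) hI (fun x _ => hm x) (Set.empty_union _).symm (by
      rw [← mp_card σ, mp_mq]
      exact hc)
    have h3 : mp σ (mq σ J) = tf σ (chJ σ J hJ).1 := mp_eq rfl
    rw [H.U_apply a _ _ h3.le, map_eq_zero_iff _ (H.φ _).symm.injective] at h2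
    apply hJ0
    have h4 : r J J (Finset.Subset.refl J) (a J) = 0 := by
      have h4 := congrArg (r (tf σ (chJ σ J hJ).1) J (tf_chJ σ J hJ).le) h2
      have h5 : r (tf σ (chJ σ J hJ).1) J (tf_chJ σ J hJ).le
          (r (mp σ (mq σ J)) (tf σ (chJ σ J hJ).1) h3.le (a (mp σ (mq σ J)))) =
          r (mp σ (mq σ J)) J (mp_mq σ J).le (a (mp σ (mq σ J))) := H.rr _ _ _
      rw [← r_congr r (mp_mq σ J) (mp_mq σ J).le (Finset.Subset.refl J) a, ← h5]
      exact h4.trans (map_zero _)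
    rwa [H.rid] at h4
  · intro h1 I d hI hIL hd hc
    have hd' : (↑I : Set i) ⊆ d.1 := by
      rw [hd]
      exact Set.subset_union_right
    rw [H.U_apply a I d (mp_sub.2 hd')]
    have h2 : a (mp σ I) = 0 := by
      by_contra h3
      have h4 := h1 _ h3
      rw [mp_card] at h4
      exact hc h4
    rw [h2, map_zero, map_zero]

include H in
/-- The Čech dg algebra `cA` of `A` with respect to the list of all indices in decreasing order is
the Čech dg algebra of the sections. -/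
theorem exists_cechD {L : List i} (hL : Dec σ L) (hm : ∀ l, l ∈ L) :
    ∃ E, IsCechD r (cA A.pa L (FS.e i)) E := by
  have hnd := hL.nodup
  choose f hf0 hf using H.E_surj hnd
  have huniq : ∀ (a : ∀ I, B I) (x), a ∅ = 0 → H.E L a = x → f x = a := by
    intro a x ha hx
    have h1 : f x - a = 0 := by
      refine H.E_inj hnd hm _ ?_ ?_
      · rw [Pi.sub_apply, hf0, ha, sub_zero]
      · rw [map_sub, hf, hx, sub_self]
    exact sub_eq_zero.1 h1
  let E : (cA A.pa L (FS.e i)).A →ₗ[k] ∀ I, B I :=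
    { toFun := f
      map_add' := fun x y => huniq _ _ (by rw [Pi.add_apply, hf0, hf0, add_zero])
        (by rw [map_add, hf, hf])
      map_smul' := fun s x => huniq _ _ (by
        rw [Pi.smul_apply, hf0]
        exact smul_zero _) (by
        rw [RingHom.id_apply, map_smul, hf]) }
  refine ⟨E, ?_, fun c => ?_, fun I => ?_, fun a b I => ?_, fun m a => ?_, fun a I => ?_⟩
  · intro x y hxy
    have hxy' : f x = f y := hxy
    rw [← hf x, ← hf y, hxy']
  · constructor
    · rintro ⟨x, rfl⟩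
      exact hf0 x
    · intro hc
      exact ⟨H.E L c, huniq _ _ hc rfl⟩
  · have h1 := huniq (fun I => if I.card = 1 then 1 else 0) _ (by
      rw [Finset.card_empty]
      exact if_neg (by norm_num)) (H.E_one hnd)
    exact congrFun h1 I
  · have h1 := huniq (cupB r (f a) (f b)) ((cA A.pa L (FS.e i)).mul a b)
      Finset.sum_empty (by
        rw [← H.E_mul hL, hf, hf])
    exact congrFun h1 I
  · have h1 := H.E_deg hnd hm (f a) (hf0 a) m
    rw [hf] at h1
    exact h1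
  · have h1 := huniq (difB r (f a)) ((cA A.pa L (FS.e i)).dg.d a)
      Finset.sum_empty (by
        rw [← H.E_d hL _ (hf0 a), hf])
    exact congrFun h1 I

end CeId

/-- The dg algebra `TT A` is the Čech dg algebra of the sections. -/
theorem CeId.rep {ν : ℕ} {k : Type u} [Field k] {i : Type} [Fintype i] [DecidableEq i] {A : CA k i}
    {σ : i ≃ Fin (ν + 1)} {B : Finset (Fin (ν + 1)) → Type u} [∀ I, Ring (B I)]
    [∀ I, Algebra k (B I)] {r : ∀ I J : Finset (Fin (ν + 1)), I ⊆ J → B I →ₐ[k] B J}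
    (H : CeId A σ r) (hσ : Dec σ (LL i)) {T : Type u} [Ring T] [Algebra k T] {X : DG k T}
    {e : T →ₗ[k] ∀ I, B I} (he : IsCech r X e) : Nonempty (Rep X (TT A)) := by
  obtain ⟨E, hE⟩ := H.exists_cechD hσ mem_LL
  exact cechD_rep he hE

theorem CeId.exists_dg {ν : ℕ} {k : Type u} [Field k] {i : Type} [Fintype i] [DecidableEq i]
    {A : CA k i} {σ : i ≃ Fin (ν + 1)} {B : Finset (Fin (ν + 1)) → Type u} [∀ I, Ring (B I)]
    [∀ I, Algebra k (B I)] {r : ∀ I J : Finset (Fin (ν + 1)), I ⊆ J → B I →ₐ[k] B J}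
    (H : CeId A σ r) (hσ : Dec σ (LL i)) :
    ∃ e : RA (TT A) →ₗ[k] ∀ I, B I, IsCech r (DG.of (TT A)) e := by
  obtain ⟨E, hE⟩ := H.exists_cechD hσ mem_LL
  exact cechD_of hE

/-- There is a numbering of the indices for which a given list is decreasing. -/
theorem exists_dec' {i : Type} [Fintype i] [DecidableEq i] {ν : ℕ}
    (hc : Fintype.card i = ν + 1) {L : List i} (hL : L.Nodup) (hm : ∀ l, l ∈ L) :
    ∃ σ : i ≃ Fin (ν + 1), Dec σ L := by
  have e := hL.getEquivOfForallMemList L hm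
  have hlen : L.length = ν + 1 := by
    have h1 := Fintype.card_congr e
    rw [Fintype.card_fin] at h1
    exact h1.trans hc
  let e' := hL.getEquivOfForallMemList L hm
  let σ : i ≃ Fin (ν + 1) := (e'.symm.trans (finCongr hlen)).trans Fin.revPerm
  refine ⟨σ, List.pairwise_iff_get.2 fun a b hab => ?_⟩
  have h1 : ∀ a : Fin L.length, e'.symm (L.get a) = a := fun a => by
    rw [Equiv.symm_apply_eq]
    rfl
  change Fin.rev (finCongr hlen (e'.symm (L.get b))) < Fin.rev (finCongr hlen (e'.symm (L.get a)))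
  rw [h1, h1, Fin.rev_lt_rev]
  exact hab

end Pool.Agent.MP_6e5bed_ag_GG
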