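import Pool.Agent.Lib.MP_6e5bed_ag_GV.TX
import Pool.Agent.Lib.MP_6e5bed_ag_GG.Noe
import Pool.Agent.Lib.MP_6e5bed_ag_GG.XEx

set_option autoImplicit false
set_option linter.unusedVariables false

/-!
# MP_6e5bed_ag, THEOREM V: the X-datum of a closed subvariety of a projective space

`y : i → Mˣ` are the homogeneous coordinates of a point over `M`. `OV y b a`, the sections of `O(b)`
on the chart `a` of the closure of the point, is the set of the values at the point of the Laurent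
polynomials of degree `b` with poles only along the `x_j`, `j ∈ a`.
-/

noncomputable section

namespace Pool.Agent.MP_6e5bed_ag_GG

universe u

variable {k : Type u} [Field k] {i : Type} [Fintype i] {M : Type u} [Field M] [Algebra k M]

/-- the sections of `O(b)` on the chart `a` of the closure of the point `y` -/
def OV (y : i → Mˣ) (b : ℤ) (a : Set i) : Submodule k M :=
  (OO k b a).map (evy (k := k) y).toLinearMap

theorem mem_OV {y : i → Mˣ} {b : ℤ} {a : Set i} {u : M} :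
    u ∈ OV (k := k) y b a ↔ ∃ f ∈ OO k b a, evy (k := k) y f = u := Iff.rfl

theorem evy_mon (y : i → Mˣ) (e : i → ℤ) :
    evy (k := k) y (mon k e) = ((∏ m, y m ^ e m : Mˣ) : M) := by
  unfold evy mon
  rw [AddMonoidAlgebra.lift_single, one_smul]
  rfl

theorem evy_single [DecidableEq i] (y : i → Mˣ) (l : i) (n : ℤ) :
    evy (k := k) y (mon k (Pi.single l n)) = ((y l ^ n : Mˣ) : M) := by
  rw [evy_mon]
  congr 1
  rw [Finset.prod_eq_single l]
  · rw [Pi.single_eq_same]
  · intro m _ hm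
    rw [Pi.single_eq_of_ne hm, zpow_zero]
  · intro h
    exact absurd (Finset.mem_univ l) h

theorem isEx_sglV [DecidableEq i] {a : Set i} {l : i} (hl : l ∈ a) (n : ℤ) :
    IsEx a n (Pi.single l n : i → ℤ) := by
  refine ⟨?_, fun j hj => ?_⟩
  · rw [Finset.sum_pi_single', if_pos (Finset.mem_univ l)]
  · have h : j ≠ l := fun h => hj (by rw [h]; exact hl)
    rw [Pi.single_eq_of_ne h]

theorem isEx_sglV' [DecidableEq i] (a : Set i) (l : i) {n : ℤ} (hn : 0 ≤ n) :
    IsEx a n (Pi.single l n : i → ℤ) := by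
  refine ⟨?_, fun j _ => ?_⟩
  · rw [Finset.sum_pi_single', if_pos (Finset.mem_univ l)]
  · by_cases h : j = l
    · rw [h, Pi.single_eq_same]
      exact hn
    · rw [Pi.single_eq_of_ne h]

theorem OV_mono (y : i → Mˣ) (b : ℤ) {a a' : Set i} (h : a ⊆ a') :
    OV (k := k) y b a ≤ OV y b a' := Submodule.map_mono (OO_mono h b)

theorem OV_one (y : i → Mˣ) (a : Set i) : (1 : M) ∈ OV (k := k) y 0 a :=
  ⟨1, one_mem_OO a, map_one (evy y)⟩

theorem OV_mul {y : i → Mˣ} {a : Set i} {b b' : ℤ} {u v : M} (hu : u ∈ OV (k := k) y b a)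
    (hv : v ∈ OV (k := k) y b' a) : u * v ∈ OV (k := k) y (b + b') a := by
  obtain ⟨f, hf, rfl⟩ := hu
  obtain ⟨g, hg, rfl⟩ := hv
  exact ⟨f * g, OO_mul hf hg, map_mul (evy y) f g⟩

/-- `y_l^n` is a section of `O(n)` on the charts with `l` -/
theorem OV_zpow (y : i → Mˣ) {a : Set i} {l : i} (hl : l ∈ a) (n : ℤ) :
    ((y l ^ n : Mˣ) : M) ∈ OV (k := k) y n a := by
  classical
  exact ⟨mon k (Pi.single l n), mon_mem (isEx_sglV hl n), evy_single y l n⟩

/-- `y_l^n`, `0 ≤ n`, is a section of `O(n)` -/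
theorem OV_zpow' (y : i → Mˣ) (a : Set i) (l : i) {n : ℤ} (hn : 0 ≤ n) :
    ((y l ^ n : Mˣ) : M) ∈ OV (k := k) y n a := by
  classical
  exact ⟨mon k (Pi.single l n), mon_mem (isEx_sglV' a l hn), evy_single y l n⟩

/-- `y_l` is a section of `O(1)` -/
theorem OV_y (y : i → Mˣ) (a : Set i) (l : i) : (y l : M) ∈ OV (k := k) y 1 a := by
  have h := OV_zpow' (k := k) y a l (n := 1) zero_le_one
  rwa [zpow_one] at h

/-- on the charts with `l` the section `y_l^n` is a generator of `O(n)` -/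
theorem OV_step {y : i → Mˣ} {a : Set i} {l : i} (hl : l ∈ a) (b n : ℤ) (u : M) :
    u ∈ OV (k := k) y (b + n) a ↔ (((y l ^ n)⁻¹ : Mˣ) : M) * u ∈ OV (k := k) y b a := by
  constructor
  · intro h
    have h1 := OV_mul (OV_zpow (k := k) y hl (-n)) h
    rw [zpow_neg, neg_add_cancel_comm_assoc] at h1
    exact h1
  · intro h
    have h1 := OV_mul (OV_zpow (k := k) y hl n) h
    rwa [← mul_assoc, ← Units.val_mul, mul_inv_cancel, Units.val_one, one_mul,
      add_comm n b] at h1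

theorem OV_gen {y : i → Mˣ} {a : Set i} {l : i} (hl : l ∈ a) (b : ℤ) (u : M) :
    u ∈ OV (k := k) y b a ↔ (((y l ^ b : Mˣ) : M))⁻¹ * u ∈ OV (k := k) y 0 a := by
  have h := OV_step (k := k) (y := y) hl 0 b u
  rw [zero_add] at h
  rw [h, Units.val_inv_eq_inv_val]

/-- the quotients of two sections of the same degree -/
theorem OV_frac {y : i → Mˣ} {j0 : i} (hy : y j0 = 1)
    (hadj : IntermediateField.adjoin k (Set.range (fun j => (y j : M))) = ⊤) (u : M) :
    ∃ (b : ℤ) (σ σ' : M), σ ∈ OV (k := k) y b ∅ ∧ σ' ∈ OV (k := k) y b ∅ ∧ σ ≠ 0 ∧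
      u = σ' / σ := by
  have hu : u ∈ IntermediateField.adjoin k (Set.range (fun j => (y j : M))) := by
    rw [hadj]
    trivial
  induction hu using IntermediateField.adjoin_induction with
  | mem x hx =>
    obtain ⟨j, rfl⟩ := hx
    refine ⟨1, 1, y j, ?_, OV_y y ∅ j, one_ne_zero, (div_one _).symm⟩
    have h := OV_y (k := k) y ∅ j0
    rwa [hy, Units.val_one] at h
  | algebraMap c =>
    refine ⟨0, 1, algebraMap k M c, OV_one y ∅, ?_, one_ne_zero, (div_one _).symm⟩
    rw [Algebra.algebraMap_eq_smul_one]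
    exact Submodule.smul_mem _ _ (OV_one y ∅)
  | add x z _ _ h h' =>
    obtain ⟨b, σ, σ', hσ, hσ', h0, rfl⟩ := h
    obtain ⟨b', τ, τ', hτ, hτ', h0', rfl⟩ := h'
    refine ⟨b + b', σ * τ, σ' * τ + σ * τ', OV_mul hσ hτ,
      Submodule.add_mem _ (OV_mul hσ' hτ) (OV_mul hσ hτ'), mul_ne_zero h0 h0', ?_⟩
    rw [div_add_div _ _ h0 h0']
  | mul x z _ _ h h' =>
    obtain ⟨b, σ, σ', hσ, hσ', h0, rfl⟩ := h
    obtain ⟨b', τ, τ', hτ, hτ', h0', rfl⟩ := h'
    exact ⟨b + b', σ * τ, σ' * τ', OV_mul hσ hτ, OV_mul hσ' hτ', mul_ne_zero h0 h0',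
      div_mul_div_comm _ _ _ _⟩
  | inv x _ h =>
    obtain ⟨b, σ, σ', hσ, hσ', h0, rfl⟩ := h
    by_cases hz : σ' = 0
    · subst hz
      refine ⟨b, σ, 0, hσ, Submodule.zero_mem _, h0, ?_⟩
      rw [zero_div, inv_zero]
    · exact ⟨b, σ', σ, hσ', hσ, hz, inv_div _ _⟩

theorem OV_R {y : i → Mˣ} (a : Set i) (r : Lau k i) (hr : r ∈ RR k a) :
    evy y r ∈ OV (k := k) y 0 a := ⟨r, hr, rfl⟩

theorem OV_quot (y : i → Mˣ) {a : Set i} {j l : i} (hl : l ∈ a) :
    ((y j / y l : Mˣ) : M) ∈ OV (k := k) y 0 a :=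
  ⟨mon k (ex j l), mon_mem (isEx_ex j hl), evy_ex y j l⟩

theorem OV_quot_pow (y : i → Mˣ) {a : Set i} {j l : i} (hl : l ∈ a) (n : ℕ) :
    ((y j / y l : Mˣ) : M) ^ n ∈ OV (k := k) y 0 a := by
  induction n with
  | zero => rw [pow_zero]; exact OV_one y a
  | succ n ih =>
    rw [pow_succ]
    have h := OV_mul ih (OV_quot (k := k) y (j := j) hl)
    rwa [add_zero] at h

theorem OV_loc {y : i → Mˣ} {a d : Set i} {j l : i} (had : a ⊆ d) (hda : d ⊆ insert j a)
    (hl : l ∈ a) (b : ℤ) (u : M) (hu : u ∈ OV (k := k) y b d) :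
    ∃ n : ℕ, ((y j / y l : Mˣ) : M) ^ n * u ∈ OV (k := k) y b a := by
  classical
  obtain ⟨f, hf, rfl⟩ := hu
  have hmono : ∀ {n n' : ℕ} {v : M}, n ≤ n' → ((y j / y l : Mˣ) : M) ^ n * v ∈ OV (k := k) y b a →
      ((y j / y l : Mˣ) : M) ^ n' * v ∈ OV (k := k) y b a := by
    intro n n' v hn hv
    obtain ⟨m, rfl⟩ := Nat.exists_eq_add_of_le hn
    have h := OV_mul (OV_quot_pow (k := k) y (j := j) hl m) hv
    rwa [zero_add, ← mul_assoc, ← pow_add, add_comm m n] at h
  have hf' : f ∈ OO k b d := hf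
  unfold OO at hf'
  change ∃ n : ℕ, ((y j / y l : Mˣ) : M) ^ n * evy y f ∈ OV (k := k) y b a
  clear hf
  induction hf' using Submodule.span_induction with
  | mem x hx =>
    obtain ⟨e, he, rfl⟩ := hx
    refine ⟨(e j).natAbs, ?_⟩
    rw [← evy_ex (k := k) y j l, ← map_pow, ← map_mul, mon_pow, mon_mul]
    refine ⟨_, mon_mem ⟨?_, fun m hm => ?_⟩, rfl⟩
    · have h1 : ∑ m, ex j l m = 0 := (isEx_ex (c := Set.univ) j (Set.mem_univ l)).1
      simp only [Pi.add_apply, Pi.smul_apply, Finset.sum_add_distrib, he.1, ← Finset.smul_sum, h1,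
        smul_zero, zero_add]
    · have hml : m ≠ l := fun h => hm (h ▸ hl)
      have hex : ex j l m = if m = j then 1 else 0 := by
        unfold ex
        rw [Pi.sub_apply, Pi.single_apply, Pi.single_apply, if_neg hml, sub_zero]
      rw [Pi.add_apply, Pi.smul_apply, hex]
      split_ifs with h
      · subst h
        rw [nsmul_eq_mul, mul_one]
        have h2 := neg_abs_le (e m)
        rw [Int.abs_eq_natAbs] at h2
        omega
      · rw [smul_zero, zero_add]
        exact he.2 m (fun h' => (hda h').elim h hm)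
  | zero => exact ⟨0, by rw [map_zero, mul_zero]; exact Submodule.zero_mem _⟩
  | add x z _ _ h h' =>
    obtain ⟨n, hn⟩ := h
    obtain ⟨n', hn'⟩ := h'
    refine ⟨n + n', ?_⟩
    rw [map_add, mul_add]
    exact Submodule.add_mem _ (hmono (Nat.le_add_right n n') hn) (hmono (Nat.le_add_left n' n) hn')
  | smul c x _ h =>
    obtain ⟨n, hn⟩ := h
    refine ⟨n, ?_⟩
    rw [map_smul, mul_smul_comm]
    exact Submodule.smul_mem _ c hn

theorem OV_fg (y : i → Mˣ) (b : ℤ) {a : Set i} (ha : a.Nonempty) :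
    ∃ S : Finset M, (∀ w ∈ S, w ∈ OV (k := k) y b a) ∧
      ∀ u ∈ OV (k := k) y b a,
        u ∈ Submodule.span k {z : M | ∃ r ∈ RR k a, ∃ w ∈ S, z = evy y r * w} := by
  obtain ⟨l, hl⟩ := ha
  refine ⟨{((y l ^ b : Mˣ) : M)}, fun w hw => ?_, fun u hu => ?_⟩
  · rw [Finset.mem_singleton.1 hw]
    exact OV_zpow y hl b
  · obtain ⟨r, hr, hr'⟩ := (OV_gen hl b u).1 hu
    refine Submodule.subset_span ⟨r, hr, _, Finset.mem_singleton_self _, ?_⟩
    have h1 : evy y r = (((y l ^ b : Mˣ) : M))⁻¹ * u := hr'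
    rw [h1, mul_comm, mul_inv_cancel_left₀ (Units.ne_zero _)]

/-- The X-datum of a closed subvariety of a projective space, the closure of the point `y`, with the
function field `M`. The twists are `O, O(1), …, O(m)`, `m + 1` the number of coordinates. -/
def vd [DecidableEq i] (y : i → Mˣ) (j0 : i) (hy : y j0 = 1)
    (hadj : IntermediateField.adjoin k (Set.range (fun j => (y j : M))) = ⊤) : XT k where
  i := i
  G := ℤ
  II := Fin (Fintype.card i)
  tw := fun e => ((e : ℕ) : ℤ)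
  M := M
  y := y
  O := fun b a => OV y b a
  ne := ⟨j0⟩
  mono := fun b _ _ h => OV_mono y b h
  one_mem := OV_one y
  mul_mem := fun hu hv => OV_mul hu hv
  one_tw := fun e => by
    have h := OV_zpow' (k := k) y ∅ j0 (n := ((e : ℕ) : ℤ)) (Int.natCast_nonneg _)
    rwa [hy, one_zpow, Units.val_one] at h
  gen := fun {a} ha b => by
    obtain ⟨l, hl⟩ := ha
    exact ⟨((y l ^ b : Mˣ) : M), Units.ne_zero _, OV_gen hl b⟩
  frac := OV_frac hy hadj
  R_mem := OV_R
  loc := fun had hda hl b u hu => OV_loc had hda hl b u hu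
  fg := fun b _ ha => OV_fg y b ha

end Pool.Agent.MP_6e5bed_ag_GG
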