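import Pool.Agent.Lib.MP_6e5bed_ag_GV.TKo
import Pool.Agent.Lib.MP_6e5bed_ag_GV.VP

set_option autoImplicit false
set_option linter.unusedVariables false

/-!
# MP_6e5bed_ag, THEOREM V: all twists of a projective variety are generated by `O, …, O(m)`
-/

noncomputable section

namespace Pool.Agent.MP_6e5bed_ag_GG

universe u

variable {k : Type u} [Field k] {i : Type} [Fintype i] [DecidableEq i] {M : Type u} [Field M]
  [Algebra k M]

/-- The coordinates as sections of `O(1)`. -/
def vdK (y : i → Mˣ) (j0 : i) (hy : y j0 = 1)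
    (hadj : IntermediateField.adjoin k (Set.range (fun j => (y j : M))) = ⊤) :
    KzD (vd (k := k) y j0 hy hadj) i where
  s := y
  δ := (1 : ℤ)
  up := fun j {b a u} (hu : u ∈ OV (k := k) y b a) => by
    have h := OV_mul (OV_y (k := k) y a j) hu
    rw [add_comm] at h
    exact h
  dn := fun {a} ha => by
    obtain ⟨l, hl⟩ := ha
    refine ⟨l, fun {b u} hu => ?_⟩
    have h := (OV_step (k := k) (y := y) hl (show ℤ from b) 1 u).1 hu
    rw [zpow_one] at h
    exact h

/-- All twists are generated by the twists of the algebra. -/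
theorem vd_gen (y : i → Mˣ) (j0 : i) (hy : y j0 = 1)
    (hadj : IntermediateField.adjoin k (Set.range (fun j => (y j : M))) = ⊤) :
    (vd (k := k) y j0 hy hadj).Gen :=
  XT.gen_of (J := i) (vdK y j0 hy hadj)
    (fun n hn => ⟨(⟨n, hn⟩ : Fin (Fintype.card i)), by
      change ((n : ℕ) : ℤ) = n • (1 : ℤ)
      rw [nsmul_eq_mul, mul_one]⟩)
    (fun (b : ℤ) => ⟨b, by
      change b = b • (1 : ℤ)
      rw [zsmul_eq_mul, mul_one, Int.cast_id]⟩)

end Pool.Agent.MP_6e5bed_ag_GG
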