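import Pool.Agent.Lib.MP_6e5bed_ag_GV.VDef
import Pool.Agent.Lib.MP_6e5bed_ag_GV.VCa
import Pool.Agent.Lib.MP_6e5bed_ag_GV.VP
import Pool.Agent.Lib.MP_6e5bed_ag_GV.VGn

set_option autoImplicit false
set_option linter.unusedVariables false
set_option linter.unusedSectionVars false

/-!
# MP_6e5bed_ag, THEOREM V: `RΓ(Y, End(O ⊕ … ⊕ O(m)))` is the dg algebra of an X-datum
-/

noncomputable section

namespace Pool.Agent.MP_6e5bed_ag_GG

open Pool.Agent.MP_6e5bed_ag_Pn Pool.Agent.MP_6e5bed_ag_NC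
  Pool.Agent.MP_6e5bed_ag_NS Pool.Agent.MP_6e5bed_ag_PN
open Pool.Agent.MP_6e5bed_ag_SP (DG Rep RA repOf)

universe u

variable {k : Type u} [Field k] {i : Type} [Fintype i] [DecidableEq i] {M : Type u} [Field M]
  [Algebra k M] {m : ℕ}

theorem OV_secY (σ : i ≃ Fin (m + 1)) (y : Fin (m + 1) → Mˣ) (b : ℤ) (a : Set i) :
    OV (k := k) (fun j => y (σ j)) b a = SecY k y b (tf σ a) := by
  unfold OV OO SecY
  rw [Submodule.map_span]
  congr 1
  ext u
  constructor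
  · rintro ⟨f, ⟨e, he, rfl⟩, rfl⟩
    refine ⟨fun j => e (σ.symm j), ?_, fun j hj => he.2 _ (fun h => hj (mem_tf.2 h)), ?_⟩
    · rw [← he.1]
      exact Equiv.sum_comp σ.symm e
    · refine (evy_mon (k := k) (fun j => y (σ j)) e).trans ?_
      congr 1
      rw [← Equiv.prod_comp σ (fun j => y j ^ e (σ.symm j))]
      refine Finset.prod_congr rfl fun j _ => ?_
      rw [Equiv.symm_apply_apply]
  · rintro ⟨e, h1, h2, rfl⟩
    refine ⟨mon k (fun j => e (σ j)), ⟨_, ⟨?_, fun j hj => h2 _ (fun h => hj ?_)⟩, rfl⟩, ?_⟩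
    · rw [← h1]
      exact Equiv.sum_comp σ e
    · have h3 := mem_tf.1 h
      rwa [Equiv.symm_apply_apply] at h3
    · refine (evy_mon (k := k) (fun j => y (σ j)) _).trans ?_
      congr 1
      exact Equiv.prod_comp σ (fun j => y j ^ e j)

theorem range_comp_eq (σ : i ≃ Fin (m + 1)) (y : Fin (m + 1) → Mˣ) :
    Set.range (fun j => (y (σ j) : M)) = Set.range (fun j => (y j : M)) := by
  ext u
  constructor
  · rintro ⟨j, rfl⟩
    exact ⟨σ j, rfl⟩
  · rintro ⟨j, rfl⟩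
    exact ⟨σ.symm j, congrArg (fun j => (y j : M)) (Equiv.apply_symm_apply σ j)⟩

/-! ### Abstract X-data -/

section

variable (X : XT k) (σ : X.i ≃ Fin (m + 1)) (ρ : X.II ≃ Fin (m + 1)) (y : Fin (m + 1) → X.Mˣ)
  (hO : ∀ (p q : X.II) (d : Set X.i), X.O (X.tw p - X.tw q) d =
    SecY k y (((ρ p : ℕ) : ℤ) - ((ρ q : ℕ) : ℤ)) (tf σ d))

/-- renumbering of the rows and columns -/
def xyR : Matrix X.II X.II X.M ≃ₐ[k] Matrix (Fin (m + 1)) (Fin (m + 1)) X.M :=
  Matrix.reindexAlgEquiv k X.M ρ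

theorem xyR_apply (f : Matrix X.II X.II X.M) (p q : Fin (m + 1)) :
    xyR X ρ f p q = f (ρ.symm p) (ρ.symm q) := rfl

include hO in
theorem xy_map (d : Set X.i) :
    (X.AXs d).map (xyR X ρ).toAlgHom = EndY k y (tf σ d) := by
  ext f
  constructor
  · rintro ⟨g, hg, rfl⟩
    intro p q
    have h1 := hg (ρ.symm p) (ρ.symm q)
    rw [hO, Equiv.apply_symm_apply, Equiv.apply_symm_apply] at h1
    exact h1
  · intro hf
    refine ⟨(xyR X ρ).symm f, fun p q => ?_, (xyR X ρ).apply_symm_apply f⟩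
    rw [hO]
    exact hf (ρ p) (ρ q)

/-- the identification of the sections -/
def xyφ (d : Set X.i) : X.AXs d ≃ₐ[k] EndY k y (tf σ d) :=
  ((xyR X ρ).subalgebraMap (X.AXs d)).trans (Subalgebra.equivOfEq _ _ (xy_map X σ ρ y hO d))

theorem xyφ_coe (d : Set X.i) (f : X.AXs d) :
    (xyφ X σ ρ y hO d f : Matrix (Fin (m + 1)) (Fin (m + 1)) X.M) = xyR X ρ f.1 := rfl

/-- The sections `EndY` are the sections of the coherent algebra of the X-datum. -/
def xyId : CeId X.ca σ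
    (fun I J h => Subalgebra.inclusion (EndY_mono k y h) : ∀ I J : Finset (Fin (m + 1)), I ⊆ J →
      EndY k y I →ₐ[k] EndY k y J) where
  φ := fun d => xyφ X σ ρ y hO d.1
  nat := fun {c d} h a => Subtype.ext rfl
  rid := fun h b => Subtype.ext rfl
  rr := fun h h' b => Subtype.ext rfl

include hO in
theorem xt_rep (hσ : Dec σ (LL X.i)) {T : Type u} [Ring T] [Algebra k T] {Y : DG k T}
    {e : T →ₗ[k] ∀ I, EndY k y I}
    (he : IsCech (fun _ _ h => Subalgebra.inclusion (EndY_mono k y h)) Y e) :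
    Nonempty (Rep Y (TT X.ca)) :=
  (xyId X σ ρ y hO).rep hσ he

include hO in
theorem xt_dg (hσ : Dec σ (LL X.i)) : ∃ e : RA (TT X.ca) →ₗ[k] ∀ I, EndY k y I,
    IsCech (fun _ _ h => Subalgebra.inclusion (EndY_mono k y h)) (DG.of (TT X.ca)) e :=
  (xyId X σ ρ y hO).exists_dg hσ

end

/-! ### The closure of a point -/

/-- The X-datum of the closure of the point `y`, the coordinates being renumbered. -/
def vy (σ : i ≃ Fin (m + 1)) (y : Fin (m + 1) → Mˣ) (j0 : Fin (m + 1)) (hy : y j0 = 1)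
    (hadj : IntermediateField.adjoin k (Set.range fun j => (y j : M)) = ⊤) : XT k :=
  vd (fun j => y (σ j)) (σ.symm j0) (by rw [Equiv.apply_symm_apply, hy])
    (by rw [range_comp_eq, hadj])

theorem card_vy (σ : i ≃ Fin (m + 1)) : Fintype.card i = m + 1 := by
  rw [Fintype.card_congr σ, Fintype.card_fin]

theorem vy_hO (σ : i ≃ Fin (m + 1)) (y : Fin (m + 1) → Mˣ) (j0 : Fin (m + 1)) (hy : y j0 = 1)
    (hadj : IntermediateField.adjoin k (Set.range fun j => (y j : M)) = ⊤)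
    (p q : Fin (Fintype.card i)) (d : Set i) :
    (vy σ y j0 hy hadj).O ((vy σ y j0 hy hadj).tw p - (vy σ y j0 hy hadj).tw q) d =
      SecY k y (((finCongr (card_vy σ) p : Fin (m + 1)) : ℕ) -
        ((finCongr (card_vy σ) q : Fin (m + 1)) : ℕ)) (tf σ d) :=
  OV_secY σ y _ d

/-- A dg algebra `RΓ(Y, End(O ⊕ … ⊕ O(m)))` is the Čech dg algebra of an X-datum with the function
field of `Y`. -/
theorem isVar_xt {y : Fin (m + 1) → Mˣ} {T : Type u} [Ring T] [Algebra k T] {Y : DG k T}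
    (hY : IsVar y Y) : ∃ X : XT k, X.Gen ∧ Nonempty (M ≃ₐ[k] X.M) ∧
      Nonempty (Rep Y (TT X.ca)) := by
  obtain ⟨⟨j0, hy⟩, hadj, e, he⟩ := hY
  obtain ⟨σ, hσ⟩ := exists_dec' (i := Fin (m + 1)) (L := LL (Fin (m + 1))) (Fintype.card_fin _)
    (Finset.nodup_toList (Finset.univ : Finset (Fin (m + 1)))) mem_LL
  exact ⟨vy σ y j0 hy hadj, vd_gen _ _ _ _, ⟨AlgEquiv.refl⟩,
    xt_rep (vy σ y j0 hy hadj) σ (finCongr (card_vy σ)) y (vy_hO σ y j0 hy hadj) hσ he⟩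

/-- The dg algebra `RΓ(Y, End(O ⊕ … ⊕ O(m)))` exists. -/
theorem exists_isVar {y : Fin (m + 1) → Mˣ} (hy : ∃ j, y j = 1)
    (hadj : IntermediateField.adjoin k (Set.range fun j => (y j : M)) = ⊤) :
    ∃ (T : Type u) (_ : Ring T) (_ : Algebra k T) (Y : DG k T), IsVar y Y := by
  obtain ⟨j0, hj0⟩ := hy
  obtain ⟨σ, hσ⟩ := exists_dec' (i := Fin (m + 1)) (L := LL (Fin (m + 1))) (Fintype.card_fin _)
    (Finset.nodup_toList (Finset.univ : Finset (Fin (m + 1)))) mem_LL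
  obtain ⟨e, he⟩ := xt_dg (vy (k := k) σ y j0 hj0 hadj) σ (finCongr (card_vy σ)) y
    (vy_hO σ y j0 hj0 hadj) hσ
  exact ⟨_, _, _, DG.of (TT (vy σ y j0 hj0 hadj).ca), ⟨j0, hj0⟩, hadj, e, he⟩

end Pool.Agent.MP_6e5bed_ag_GG
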