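import Pool.Agent.Lib.MP_6e5bed_ag_GV.TMn
import Pool.Agent.Lib.MP_6e5bed_ag_GG.GE
import Pool.Agent.Lib.MP_6e5bed_ag_GG.CoreA

set_option autoImplicit false
set_option linter.unusedSectionVars false
set_option linter.unusedVariables false

/-!
# MP_6e5bed_ag, THEOREM V: the core theorem for a family of X-data, over an arbitrary field
-/

noncomputable section

namespace Pool.Agent.MP_6e5bed_ag_GG

open CategoryTheory MonoidalCategory Pool.Agent.MP_6e5bed_ag Pool.Agent.MP_6e5bed_ag_NC
  Pool.Agent.MP_6e5bed_ag_NS Pool.Agent.MP_6e5bed_ag_PN Pool.Agent.MP_6e5bed_ag_PS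
open scoped TensorProduct

universe u

variable {k : Type u} [Field k] {i : Type} [Fintype i]

/-- `Z` embeds over `k` in the function field of an X-datum, which is finite over it; the twists of
the X-datum are generated by those in its algebra, and the dg algebra of the X-datum is in the span
of the good ones. -/
def XFin (Good : DGA k → Prop) (Z : Type u) [CommRing Z] [Algebra k Z] : Prop :=
  ∃ X : XT k, X.Gen ∧ SPJ Good (TT X.ca) ∧ ∃ φ : Z →ₐ[k] X.M, (φ : Z →+* X.M).Finite

/-- The condition on the centres of the generic data. -/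
def HV (Good : DGA k → Prop) (A : CA k i) : Prop :=
  ∀ (m : Ch i) (g : GD A m), XFin Good (Subalgebra.center k g.S)

/-- The main step. -/
theorem mainS_xt {Good : DGA k → Prop} {A : CA k i} {hF : FinBB A A} {hS : Smooth (TT A)}
    (h : HV Good A) : MainS A hF hS (JS Good (TT A)) := by
  intro E m hE hR ih
  obtain ⟨L, _, _, _, _, hcen, hfin, hess, hP⟩ := hR.gd.exists_L
  obtain ⟨X, hG, hX, φ, hφ⟩ := hP (fun Z _ _ => XFin Good Z) (h m hR.gd)
  let aL : Algebra L X.M := φ.toRingHom.toAlgebra
  have htow : IsScalarTower k L X.M :=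
    IsScalarTower.of_algebraMap_eq fun x => (φ.commutes x).symm
  have hfL : Module.Finite L X.M := hφ
  exact main_xt le_rfl hE hR ih X hG hX L

/-- THE CORE THEOREM: the identity of the motive of the coherent algebra `A` factors through the
motives of good dg algebras. -/
theorem one_mem_xt {Good : DGA k → Prop} {A : CA k i} (hS : Smooth (TT A)) (h : HV Good A) :
    K0Q.one hS ∈ JS Good (TT A) :=
  one_mem (hF := finBB) (mainS_xt h)

end Pool.Agent.MP_6e5bed_ag_GG
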