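import Pool.Agent.Lib.MP_6e5bed_ag_GV.TKz

set_option autoImplicit false
set_option linter.unusedVariables false
set_option linter.unusedSectionVars false

/-!
# MP_6e5bed_ag, THEOREM V, LOC: constant rows with values in a vector space
-/

noncomputable section

namespace Pool.Agent.MP_6e5bed_ag_GG

open Pool.Agent.MP_6e5bed_ag_NC Pool.Agent.MP_6e5bed_ag_PN
open Pool.Agent.MP_6e5bed_ag_NS (Cx CHom CPr co CEx concH conc_map)
open scoped TensorProduct

universe u

variable {k : Type u} [Field k] {X : XT k} {U : Type u} [AddCommGroup U] [Module k U]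
  [Module X.M U] [IsScalarTower k X.M U] {E0 : Submodule k U}
  {Zt : Bim (TT X.ca) (base k)}
  {ζ : GMap 0 Zt (cBR (tcolF X U E0) (LL X.i) (FS.e X.i))} {hζ : ζ.dd = 0}

/-- `m ↦ m • v`, `z ↦ v ⊗ z` -/
private def LCt_F {T : Type u} [AddCommGroup T] [Module k T] [Module X.M T]
    [IsScalarTower k X.M T] (v : T) : TEOH (tcnO X U E0) (tcnT X U E0 T) where
  φ := LinearMap.toSpanSingleton X.M T v
  ψ := TensorProduct.mk X.M T U v
  hβ := fun (x : X.M) (z : U) => by
    change v ⊗ₜ[X.M] (x • z) = (x • v) ⊗ₜ[X.M] z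
    rw [TensorProduct.smul_tmul]
  hP := fun _ => trivial
  hZ := fun _ => trivial

/-- `t ↦ f t`, `t ⊗ z ↦ f t • z` -/
private def LCt_G {T : Type u} [AddCommGroup T] [Module k T] [Module X.M T]
    [IsScalarTower k X.M T] (f : T →ₗ[X.M] X.M) : TEOH (tcnT X U E0 T) (tcnO X U E0) where
  φ := f
  ψ := (TensorProduct.lid X.M U).toLinearMap ∘ₗ f.rTensor U
  hβ := fun (x : T) (z : U) => by
    change (TensorProduct.lid X.M U) (f.rTensor U (x ⊗ₜ[X.M] z)) = f x • z
    rw [LinearMap.rTensor_tmul, TensorProduct.lid_tmul]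
  hP := fun _ => trivial
  hZ := fun _ => trivial

private theorem LCt_ten {K T U J : Type*} [Field K] [AddCommGroup T] [Module K T]
    [AddCommGroup U] [Module K U] [Fintype J] (v : Module.Basis J K T) (z : T ⊗[K] U) :
    ∑ j, TensorProduct.mk K T U (v j)
      ((TensorProduct.lid K U) ((v.coord j).rTensor U z)) = z := by
  induction z using TensorProduct.induction_on with
  | zero =>
    refine Finset.sum_eq_zero fun j _ => ?_
    rw [map_zero, map_zero, map_zero]
  | tmul t u =>
    have h1 : ∀ j, TensorProduct.mk K T U (v j)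
        ((TensorProduct.lid K U) ((v.coord j).rTensor U (t ⊗ₜ[K] u))) =
          (v.repr t j • v j) ⊗ₜ[K] u := by
      intro j
      rw [LinearMap.rTensor_tmul, TensorProduct.lid_tmul, TensorProduct.mk_apply,
        Module.Basis.coord_apply, TensorProduct.smul_tmul]
    rw [Finset.sum_congr rfl fun j _ => h1 j, ← TensorProduct.sum_tmul, v.sum_repr]
  | add x y hx hy =>
    have h1 : ∀ j, TensorProduct.mk K T U (v j)
        ((TensorProduct.lid K U) ((v.coord j).rTensor U (x + y))) =
          TensorProduct.mk K T U (v j) ((TensorProduct.lid K U) ((v.coord j).rTensor U x)) +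
          TensorProduct.mk K T U (v j) ((TensorProduct.lid K U) ((v.coord j).rTensor U y)) := by
      intro j
      rw [map_add, map_add, map_add]
    rw [Finset.sum_congr rfl fun j _ => h1 j, Finset.sum_add_distrib, hx, hy]

/-- PROOF. `RO.good_sum` for `J := Fin n`, `n = finrank X.M T`, `v := Module.finBasis X.M T` (or
`Module.Free.chooseBasis`, any finite basis with an index type in `Type`), `Rj := fun _ => tcnO.ro`;
`i j = (F_j).ro`, `F_j.φ m = m • v j`, `F_j.ψ z = v j ⊗ₜ z`, and `p j = (G_j).ro`,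
`G_j.φ = v.coord j`, `G_j.ψ = TensorProduct.lid ∘ (v.coord j).rTensor U` (`t ⊗ z ↦ coord_j t • z`).
`∑ j, coord_j t • v j = t` (`Basis.sum_repr`), and the same tensored with `U`
(`TensorProduct.induction_on`). -/
theorem tcnT_good (T : Type u) [AddCommGroup T] [Module k T] [Module X.M T]
    [IsScalarTower k X.M T] [Module.Finite X.M T] (h : (tcnO X U E0).G ζ hζ) :
    (tcnT X U E0 T).G ζ hζ := by
  have e1 : ∀ (a : Set X.i) (x : tcolS X (fun e => (tcnT X U E0 T).P e a)),
      ∑ j, (LCt_F (U := U) (E0 := E0) (Module.finBasis X.M T j)).tfR a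
        ((LCt_G (U := U) (E0 := E0) ((Module.finBasis X.M T).coord j)).tfR a x) = x := by
    intro a x
    refine Subtype.ext (funext fun e => ?_)
    rw [AddSubmonoidClass.coe_finsetSum, Finset.sum_apply]
    exact (Module.finBasis X.M T).sum_repr (x.1 e)
  have e2 : ∀ (a : Set X.i) (z : (tcnT X U E0 T).Z a),
      ∑ j, (LCt_F (U := U) (E0 := E0) (Module.finBasis X.M T j)).fZ a
        ((LCt_G (U := U) (E0 := E0) ((Module.finBasis X.M T).coord j)).fZ a z) = z := by
    intro a z
    refine Subtype.ext ?_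
    rw [AddSubmonoidClass.coe_finsetSum]
    exact LCt_ten (Module.finBasis X.M T) z.1
  exact RO.good_sum (J := Fin (Module.finrank X.M T)) _ (fun _ => (tcnO X U E0).ro)
    (fun j => (LCt_F (Module.finBasis X.M T j)).ro)
    (fun j => (LCt_G ((Module.finBasis X.M T).coord j)).ro)
    (fun c x => e1 c.1 x) (fun c z => e2 c.1 z) (fun _ => h)

end Pool.Agent.MP_6e5bed_ag_GG
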