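import Pool.Agent.Lib.MP_6e5bed_ag_GV.TXa
import Pool.Agent.Lib.MP_6e5bed_ag_GV.TXf
import Pool.Agent.Lib.MP_6e5bed_ag_GG.LE

set_option autoImplicit false
set_option linter.unusedVariables false
set_option linter.unusedSectionVars false

/-!
# MP_6e5bed_ag, THEOREM V, LOC: lattices of rows and columns over the function field of an X-datum
-/

noncomputable section

namespace Pool.Agent.MP_6e5bed_ag_GG

open Pool.Agent.MP_6e5bed_ag_NC Pool.Agent.MP_6e5bed_ag_PN
open Pool.Agent.MP_6e5bed_ag_NS (Cx CHom CPr co CEx concH conc_map)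

universe u

variable {k : Type u} [Field k]

section xd

variable (X : XT k)

/-- columns (or rows) with entries in given subspaces -/
def tcolS {V : Type u} [AddCommGroup V] [Module k V] (S : X.II → Submodule k V) :
    Submodule k (X.II → V) where
  carrier := {v | ∀ e, v e ∈ S e}
  add_mem' := fun h h' e => add_mem (h e) (h' e)
  zero_mem' := fun e => zero_mem _
  smul_mem' := fun c _ h e => (S e).smul_mem c (h e)

theorem tcolS_mono {V : Type u} [AddCommGroup V] [Module k V] {S S' : X.II → Submodule k V}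
    (h : ∀ e, S e ≤ S' e) : tcolS X S ≤ tcolS X S' := fun v hv e => h e (hv e)

variable {X} in
/-- the restriction of the action of matrices on columns -/
def tactR {V : Type u} [AddCommGroup V] [Module k V] (T : Subalgebra k (Matrix X.II X.II X.M))
    (S : Submodule k V) (α : Matrix X.II X.II X.M →ₗ[k] V →ₗ[k] V)
    (h : ∀ g ∈ T, ∀ v ∈ S, α g v ∈ S) : T →ₗ[k] S →ₗ[k] S :=
  LinearMap.mk₂ k (fun g v => ⟨α g.1 v.1, h g.1 g.2 v.1 v.2⟩)
    (fun g g' v => Subtype.ext (LinearMap.map_add₂ α g.1 g'.1 v.1))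
    (fun c g v => Subtype.ext (LinearMap.map_smul₂ α c g.1 v.1))
    (fun g v v' => Subtype.ext (map_add (α g.1) v.1 v'.1))
    (fun c g v => Subtype.ext (map_smul (α g.1) c v.1))

theorem tactR_coe {V : Type u} [AddCommGroup V] [Module k V]
    (T : Subalgebra k (Matrix X.II X.II X.M)) (S : Submodule k V)
    (α : Matrix X.II X.II X.M →ₗ[k] V →ₗ[k] V) (h : ∀ g ∈ T, ∀ v ∈ S, α g v ∈ S) (g : T) (v : S) :
    (tactR T S α h g v : V) = α (g : Matrix X.II X.II X.M) v := rfl

variable (U : Type u) [AddCommGroup U] [Module k U] [Module X.M U] [IsScalarTower k X.M U]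

theorem tcolF_mem (E0 : Submodule k U) (a : Set X.i) {g : Matrix X.II X.II X.M}
    (hg : g ∈ X.AXs a) {v : X.II → U} (hv : v ∈ tcolS X (fun e => X.Fs U E0 (X.tw e) a)) :
    colA (k := k) U g v ∈ tcolS X (fun e => X.Fs U E0 (X.tw e) a) := fun e => by
  rw [colA_apply]
  refine Submodule.sum_mem _ fun e' _ => ?_
  have h := XT.Fs_smul (hg e e') (hv e')
  rwa [sub_add_cancel] at h

/-- The presheaf of the columns with entries in `F(e)_a = O(e)_a E0`. -/
def tcolF (E0 : Submodule k U) : PB X.ca.pa (PA.con X.i (base k)) :=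
  subL X.ca (fun a => tcolS X (fun e => X.Fs U E0 (X.tw e) a))
    (fun h => tcolS_mono X fun e => XT.Fs_mono _ h)
    (fun c => tactR (X.AXs c.1) _ (colA (k := k) U) (fun g hg v hv => tcolF_mem X U E0 c.1 hg hv))
    (fun c m => Subtype.ext (colA_one m.1)) (fun c a a' m => Subtype.ext (colA_mul a.1 a'.1 m.1))
    (fun h a m => rfl)

end xd

end Pool.Agent.MP_6e5bed_ag_GG
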