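import Pool.Agent.Lib.MP_6e5bed_ag_GV.TXa
import Pool.Agent.Lib.MP_6e5bed_ag_GG.GH

set_option autoImplicit false
set_option linter.unusedSectionVars false
set_option linter.unusedVariables false

/-!
# MP_6e5bed_ag, THEOREM V: rows and columns over the function field of an X-datum
-/

noncomputable section

namespace Pool.Agent.MP_6e5bed_ag_GG

open scoped TensorProduct

universe u

variable {k : Type u} [Field k]

namespace XT

variable (X : XT k)

/-! ### The subspaces `O(b)_a E0` -/

section Gs

variable {U : Type u} [AddCommGroup U] [Module k U] [Module X.M U] [IsScalarTower k X.M U]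

/-- the span of the products of sections of `O(b)` with elements of a subspace -/
def Gs (E0 : Submodule k U) (b : X.G) (a : Set X.i) : Submodule k U :=
  Submodule.span k {z | ∃ u ∈ X.O b a, ∃ v ∈ E0, z = u • v}

variable {X} {E0 E0' : Submodule k U} {b b' : X.G} {a a' : Set X.i}

theorem Gs_mem {u : X.M} {v : U} (hu : u ∈ X.O b a) (hv : v ∈ E0) : u • v ∈ X.Gs E0 b a :=
  Submodule.subset_span ⟨u, hu, v, hv, rfl⟩

theorem Gs_le {N : Submodule k U} (h : ∀ u ∈ X.O b a, ∀ v ∈ E0, u • v ∈ N) :
    X.Gs E0 b a ≤ N := by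
  refine Submodule.span_le.2 ?_
  rintro _ ⟨u, hu, v, hv, rfl⟩
  exact h u hu v hv

theorem Gs_mono (h : a ⊆ a') (hE : E0 ≤ E0') : X.Gs E0 b a ≤ X.Gs E0' b a' :=
  Gs_le fun u hu v hv => Gs_mem (X.mono b h hu) (hE hv)

theorem Gs_smul {u : X.M} (hu : u ∈ X.O b a) {x : U} (hx : x ∈ X.Gs E0 b' a) :
    u • x ∈ X.Gs E0 (b + b') a := by
  unfold Gs at hx
  induction hx using Submodule.span_induction with
  | mem z hz =>
    obtain ⟨w, hw, v, hv, rfl⟩ := hz
    rw [← mul_smul]
    exact Gs_mem (X.mul_mem hu hw) hv
  | zero =>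
    rw [smul_zero]
    exact zero_mem _
  | add y z _ _ hy hz =>
    rw [smul_add]
    exact add_mem hy hz
  | smul c y _ hy =>
    rw [smul_comm]
    exact Submodule.smul_mem _ c hy

/-- a linear map which respects the subspaces -/
theorem Gs_map {U' : Type u} [AddCommGroup U'] [Module k U'] [Module X.M U']
    [IsScalarTower k X.M U'] {F0 : Submodule k U'} (f : U →ₗ[k] U')
    (hf : ∀ (u : X.M) (x : U), f (u • x) = u • f x) (h : ∀ v ∈ E0, f v ∈ F0) {x : U}
    (hx : x ∈ X.Gs E0 b a) : f x ∈ X.Gs F0 b a := by
  have h1 : X.Gs E0 b a ≤ (X.Gs F0 b a).comap f := Gs_le fun u hu v hv => by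
    rw [Submodule.mem_comap, hf]
    exact Gs_mem hu (h v hv)
  exact h1 hx

/-- localisation in the chart of `X` -/
theorem Gs_loc (h : a ⊆ a') {l g : X.i} (ha : a' ⊆ insert l a) (hg : g ∈ a) {x : U}
    (hx : x ∈ X.Gs E0 b a') : ∃ n : ℕ, ((X.y l / X.y g : X.Mˣ) : X.M) ^ n • x ∈ X.Gs E0 b a := by
  have hpow : ∀ (n n' : ℕ) (z : U), ((X.y l / X.y g : X.Mˣ) : X.M) ^ n • z ∈ X.Gs E0 b a →
      ((X.y l / X.y g : X.Mˣ) : X.M) ^ (n + n') • z ∈ X.Gs E0 b a := by
    intro n n' z hz
    rw [add_comm, pow_add, mul_smul]
    have h1 := Gs_smul (pow_mem0 (t_mem l hg) n') hz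
    rwa [zero_add] at h1
  unfold Gs at hx
  induction hx using Submodule.span_induction with
  | mem z hz =>
    obtain ⟨u, hu, v, hv, rfl⟩ := hz
    obtain ⟨n, hn⟩ := X.loc h ha hg b u hu
    refine ⟨n, ?_⟩
    rw [← mul_smul]
    exact Gs_mem hn hv
  | zero =>
    refine ⟨0, ?_⟩
    rw [smul_zero]
    exact zero_mem _
  | add y z _ _ hy hz =>
    obtain ⟨n, hn⟩ := hy
    obtain ⟨n', hn'⟩ := hz
    refine ⟨n + n', ?_⟩
    rw [smul_add]
    refine add_mem (hpow n n' y hn) ?_
    rw [add_comm]
    exact hpow n' n z hn'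
  | smul c y _ hy =>
    obtain ⟨n, hn⟩ := hy
    refine ⟨n, ?_⟩
    rw [smul_comm]
    exact Submodule.smul_mem _ c hn

end Gs

/-! ### The full cone -/

/-- the inclusion of the coherent algebra of an X-datum in the matrices -/
def cn : Cone X.ca (Matrix X.II X.II X.M) where
  D := fun _ => True
  dn := fun _ _ => trivial
  psi := fun c _ => (X.AXs c.1).val
  nat := fun _ _ _ => rfl
  zero := fun _ _ h => absurd trivial h

/-! ### Rows -/

section rows

variable (K : Type u) [Ring K] [Algebra k K] (β : X.M →ₐ[k] K)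

/-- a matrix acts on the rows from the right -/
def rowr (f : Matrix X.II X.II X.M) : Module.End k (X.II → K) where
  toFun x := fun e' => ∑ e, x e * β (f e e')
  map_add' := fun x y => funext fun e' => by
    change ∑ e, (x e + y e) * β (f e e') = _
    rw [Finset.sum_congr rfl fun e _ => add_mul (x e) (y e) _, Finset.sum_add_distrib]
    rfl
  map_smul' := fun c x => funext fun e' => by
    change ∑ e, (c • x e) * β (f e e') = c • ∑ e, x e * β (f e e')
    rw [Finset.smul_sum]
    exact Finset.sum_congr rfl fun e _ => smul_mul_assoc c _ _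

theorem rowr_apply (f : Matrix X.II X.II X.M) (x : X.II → K) (e' : X.II) :
    X.rowr K β f x e' = ∑ e, x e * β (f e e') := rfl

theorem rowr_one (x : X.II → K) : X.rowr K β 1 x = x := funext fun e' => by
  rw [rowr_apply, Finset.sum_eq_single e']
  · rw [Matrix.one_apply_eq, map_one, mul_one]
  · intro e _ he
    rw [Matrix.one_apply_ne he, map_zero, mul_zero]
  · intro h
    exact absurd (Finset.mem_univ _) h

theorem rowr_mul (f g : Matrix X.II X.II X.M) (x : X.II → K) :
    X.rowr K β (f * g) x = X.rowr K β g (X.rowr K β f x) := funext fun e' => by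
  rw [rowr_apply, rowr_apply]
  simp only [rowr_apply, Matrix.mul_apply, map_sum, map_mul, Finset.mul_sum, Finset.sum_mul]
  rw [Finset.sum_comm]
  exact Finset.sum_congr rfl fun e _ => Finset.sum_congr rfl fun e'' _ => (mul_assoc _ _ _).symm

theorem rowr_add (f g : Matrix X.II X.II X.M) (x : X.II → K) :
    X.rowr K β (f + g) x = X.rowr K β f x + X.rowr K β g x := funext fun e' => by
  rw [Pi.add_apply, rowr_apply, rowr_apply, rowr_apply, ← Finset.sum_add_distrib]
  refine Finset.sum_congr rfl fun e _ => ?_
  rw [Matrix.add_apply, map_add, mul_add]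

theorem rowr_smul (c : k) (f : Matrix X.II X.II X.M) (x : X.II → K) :
    X.rowr K β (c • f) x = c • X.rowr K β f x := funext fun e' => by
  rw [Pi.smul_apply, rowr_apply, rowr_apply, Finset.smul_sum]
  refine Finset.sum_congr rfl fun e _ => ?_
  rw [Matrix.smul_apply, map_smul, mul_smul_comm]

theorem rowr_scalar (u : X.M) (x : X.II → K) (e' : X.II) :
    X.rowr K β (Matrix.scalar X.II u) x e' = x e' * β u := by
  rw [rowr_apply, Finset.sum_eq_single e']
  · rw [Matrix.scalar_apply, Matrix.diagonal_apply_eq]
  · intro e _ he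
    rw [Matrix.scalar_apply, Matrix.diagonal_apply_ne _ he, map_zero, mul_zero]
  · intro h
    exact absurd (Finset.mem_univ _) h

variable {S : Type u} [Ring S] [Algebra k S] (α : S →ₐ[k] K)

/-- The sheaf of rows with entries in an algebra `K` which contains `S` and `M`. -/
def rowP : PreS S X.ca where
  E := fun _ => X.II → K
  l := fun _ => (Algebra.lsmul k k (X.II → K)).comp α
  r := fun a => AlgHom.ofLinearMap
    { toFun := fun f => X.rowr K β ((MulOpposite.unop f : X.AXs a.1) : Matrix X.II X.II X.M)
      map_add' := fun f g => LinearMap.ext fun x => X.rowr_add K β _ _ x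
      map_smul' := fun c f => LinearMap.ext fun x => X.rowr_smul K β c _ x }
    (LinearMap.ext fun x => X.rowr_one K β x)
    (fun f g => LinearMap.ext fun x => X.rowr_mul K β _ _ x)
  comm := fun a s f x => funext fun e' => by
    change α s * X.rowr K β _ x e' = X.rowr K β _ (α s • x) e'
    rw [rowr_apply, rowr_apply, Finset.mul_sum]
    exact Finset.sum_congr rfl fun e _ => (mul_assoc _ _ _).symm
  res := fun _ => LinearMap.id
  res_l := fun _ _ _ => rfl
  res_r := fun _ _ _ => rfl
  res_id := fun _ _ => rfl
  res_res := fun _ _ _ => rfl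
  surj := fun {c d} h {g} hg l h2 y => ⟨0, y, by
    refine Eq.trans (X.rowr_one K β y).symm (congrArg (fun f => X.rowr K β f y) ?_)
    rw [pow_zero]
    exact (congrArg Subtype.val (map_one (algebraMap (RR k d.1) (X.AXs d.1)))).symm⟩
  inj := fun {c d} h {g} hg l h2 x hx => ⟨0, by
    have h1 : x = 0 := hx
    rw [h1, map_zero]⟩

theorem rowP_l (a : Ch X.i) (s : S) (x : X.II → K) :
    ((X.rowP K β α).l a s x : X.II → K) = α s • x := rfl

theorem rowP_r (a : Ch X.i) (f : (X.AXs a.1)ᵐᵒᵖ) (x : X.II → K) :
    ((X.rowP K β α).r a f x : X.II → K) = X.rowr K β (f.unop : Matrix X.II X.II X.M) x := rfl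

end rows

/-! ### Columns -/

section cols

variable (U : Type u) [AddCommGroup U] [Module k U] [Module X.M U] [IsScalarTower k X.M U]

/-- a matrix acts on the columns -/
def colr (f : Matrix X.II X.II X.M) : Module.End k (X.II → U) where
  toFun x := fun e => ∑ e', f e e' • x e'
  map_add' := fun x y => funext fun e => by
    change ∑ e', f e e' • (x e' + y e') = _
    rw [Finset.sum_congr rfl fun e' _ => smul_add (f e e') (x e') (y e'),
      Finset.sum_add_distrib]
    rfl
  map_smul' := fun c x => funext fun e => by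
    change ∑ e', f e e' • (c • x e') = c • ∑ e', f e e' • x e'
    rw [Finset.smul_sum]
    exact Finset.sum_congr rfl fun e' _ => smul_comm _ _ _

theorem colr_apply (f : Matrix X.II X.II X.M) (x : X.II → U) (e : X.II) :
    X.colr U f x e = ∑ e', f e e' • x e' := rfl

/-- the action of the matrices on the columns -/
def colA : Matrix X.II X.II X.M →ₐ[k] Module.End k (X.II → U) :=
  AlgHom.ofLinearMap
    { toFun := X.colr U
      map_add' := fun f g => LinearMap.ext fun x => funext fun e => by
        rw [LinearMap.add_apply, Pi.add_apply, colr_apply, colr_apply, colr_apply,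
          ← Finset.sum_add_distrib]
        refine Finset.sum_congr rfl fun e' _ => ?_
        rw [Matrix.add_apply, add_smul]
      map_smul' := fun c f => LinearMap.ext fun x => funext fun e => by
        rw [RingHom.id_apply, LinearMap.smul_apply, Pi.smul_apply, colr_apply, colr_apply,
          Finset.smul_sum]
        refine Finset.sum_congr rfl fun e' _ => ?_
        rw [Matrix.smul_apply, smul_assoc] }
    (LinearMap.ext fun x => funext fun e => by
      change X.colr U 1 x e = x e
      rw [colr_apply, Finset.sum_eq_single e]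
      · rw [Matrix.one_apply_eq, one_smul]
      · intro e' _ he
        rw [Matrix.one_apply_ne he.symm, zero_smul]
      · intro h
        exact absurd (Finset.mem_univ _) h)
    (fun f g => LinearMap.ext fun x => funext fun e => by
      change X.colr U (f * g) x e = X.colr U f (X.colr U g x) e
      rw [colr_apply, colr_apply]
      simp only [colr_apply, Matrix.mul_apply, Finset.sum_smul, Finset.smul_sum, mul_smul]
      rw [Finset.sum_comm])

theorem colA_apply (f : Matrix X.II X.II X.M) (x : X.II → U) (e : X.II) :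
    X.colA U f x e = ∑ e', f e e' • x e' := rfl

end cols

end XT

end Pool.Agent.MP_6e5bed_ag_GG
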