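import Pool.Agent.Lib.MP_6e5bed_ag_GV.TOn
import Pool.Agent.Lib.MP_6e5bed_ag_GP.Car

set_option autoImplicit false
set_option linter.unusedVariables false
set_option linter.unusedSectionVars false

/-!
# MP_6e5bed_ag, THEOREM V, LOC: the Koszul complex of lattices

For sections `s_j`, `j ∈ J`, of `O(δ)` without common zeros the Koszul complex
`0 → O(b) → O(b + δ)^n → … → O(b + n δ) → 0`, `n = |J|`, is exact on the charts, so the twists
`O(b + i δ)`, `i < n`, generate `O(b + n δ)`, and the twists `O(b + i δ)`, `0 < i ≤ n`, generate `O(b)`.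
-/

noncomputable section

namespace Pool.Agent.MP_6e5bed_ag_GG

open Pool.Agent.MP_6e5bed_ag_NC Pool.Agent.MP_6e5bed_ag_PN
open Pool.Agent.MP_6e5bed_ag_NS (Cx CHom CPr co CEx concH conc_map)
open Pool.Agent.MP_6e5bed_ag_GP (sgn dop eop Crd dop_add eop_add dop_smul eop_smul dop_sq dop_eop
  dop_map dop_crd_zero)

universe u

variable {k : Type u} [Field k]

/-- Sections of `O(δ)` without common zeros. -/
structure KzD (X : XT k) (J : Type) where
  /-- the sections -/
  s : J → X.Mˣ
  /-- the twist -/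
  δ : X.G
  up : ∀ (j : J) {b : X.G} {a : Set X.i} {u : X.M}, u ∈ X.O b a → (s j : X.M) * u ∈ X.O (b + δ) a
  dn : ∀ {a : Set X.i}, a.Nonempty → ∃ l : J, ∀ {b : X.G} {u : X.M}, u ∈ X.O (b + δ) a →
    (((s l)⁻¹ : X.Mˣ) : X.M) * u ∈ X.O b a

variable {X : XT k} {U : Type u} [AddCommGroup U] [Module k U]
  [Module X.M U] [IsScalarTower k X.M U] {E0 : Submodule k U}

section sums

variable {Zt : Bim (TT X.ca) (base k)}
  {ζ : GMap 0 Zt (cBR (tcolF X U E0) (LL X.i) (FS.e X.i))} {hζ : ζ.dd = 0}

/-- Finite direct sums. -/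
theorem TEO.good_sumJ {J : Type} [Fintype J] (O : TEO X U E0) (Oj : J → TEO X U E0)
    (i : ∀ j, TEOH (Oj j) O) (p : ∀ j, TEOH O (Oj j))
    (h1 : ∀ x, ∑ j, (i j).φ ((p j).φ x) = x) (h2 : ∀ z, ∑ j, (i j).ψ ((p j).ψ z) = z)
    (hg : ∀ j, (Oj j).G ζ hζ) : O.G ζ hζ := by
  refine RO.good_sum (J := J) O.ro (fun j => (Oj j).ro) (fun j => (i j).ro) (fun j => (p j).ro)
    (fun c (x : tcolS X (fun e => O.P e c.1)) => ?_)
    (fun c (z : O.Z c.1) => ?_) (fun j => hg j)
  · change ∑ j, (i j).tfR c.1 ((p j).tfR c.1 x) = x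
    refine Subtype.ext (funext fun e => ?_)
    rw [AddSubmonoidClass.coe_finsetSum, Finset.sum_apply]
    exact h1 (x.1 e)
  · change ∑ j, (i j).fZ c.1 ((p j).fZ c.1 z) = z
    refine Subtype.ext ?_
    rw [AddSubmonoidClass.coe_finsetSum]
    exact h2 z.1

/-- The zero lattice. -/
theorem TEO.good_zero (O : TEO X U E0) (h1 : ∀ x : O.E, x = 0) (h2 : ∀ z : O.Y, z = 0) :
    O.G ζ hζ :=
  TEO.good_sumJ (J := Empty) O (fun j => j.elim) (fun j => j.elim) (fun j => j.elim)
    (fun x => by rw [h1 x]; rfl) (fun z => by rw [h2 z]; rfl) (fun j => j.elim)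

end sums

namespace KzD

variable {J : Type} [Fintype J] [DecidableEq J] (K : KzD X J) (o : J → ℕ)

/-- the sections as elements of the function field -/
def t (j : J) : X.M := (K.s j : X.M)

section sub

variable (V : Type u) [AddCommGroup V] [Module X.M V]

/-- the functions on the subsets with `q` elements; if `z = true` those in the kernel of the
differential -/
def S (z : Bool) (q : ℕ) : Submodule X.M (Finset J → V) where
  carrier := {ω | Crd q ω ∧ (z = true → dop o K.t ω = 0)}
  add_mem' := fun {x y} hx hy => ⟨fun t ht => by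
    rw [Pi.add_apply, hx.1 t ht, hy.1 t ht, add_zero], fun h => by
    rw [dop_add, hx.2 h, hy.2 h, add_zero]⟩
  zero_mem' := ⟨fun _ _ => rfl, fun _ => by
    funext t
    simp [dop]⟩
  smul_mem' := fun c x hx => ⟨fun t ht => by
    rw [Pi.smul_apply, hx.1 t ht, smul_zero], fun h => by
    rw [dop_smul o K.t c (fun _ => mul_comm _ _), hx.2 h, smul_zero]⟩

variable {V}

theorem dop_smulr (x : Finset J → X.M) (v : V) :
    dop o K.t (fun t => x t • v) = fun t => dop o K.t x t • v :=
  (dop_map o (LinearMap.toSpanSingleton X.M V v).toAddMonoidHom id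
    (fun b x => by
      change (b • x) • v = b • (x • v)
      rw [smul_assoc]) K.t x).symm

end sub

variable (U E0)

/-- The lattice of the functions on the subsets with `q` elements with values in `O(c)`; if
`z = true` those in the kernel of the differential. -/
def KL (z : Bool) (q : ℕ) (c : X.G) : TEO X U E0 where
  E := K.S o X.M z q
  Y := K.S o U z q
  β := LinearMap.mk₂ X.M (fun x v => ⟨fun t => x.1 t • v, fun t ht => by
      change x.1 t • v = 0
      rw [x.2.1 t ht, zero_smul], fun h => by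
      rw [K.dop_smulr o x.1 v, x.2.2 h]
      funext t
      exact zero_smul _ _⟩)
    (fun x x' v => Subtype.ext (funext fun t => add_smul _ _ _))
    (fun c x v => Subtype.ext (funext fun t => by
      change (c • x.1 t) • v = c • (x.1 t • v)
      rw [smul_assoc]))
    (fun x v v' => Subtype.ext (funext fun t => smul_add _ _ _))
    (fun c x v => Subtype.ext (funext fun t => by
      change x.1 t • (c • v) = c • (x.1 t • v)
      rw [smul_comm]))
  P := fun e a =>
    { carrier := {x | ∀ t, x.1 t ∈ X.O (c - X.tw e) a}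
      add_mem' := fun hx hy t => add_mem (hx t) (hy t)
      zero_mem' := fun t => zero_mem _
      smul_mem' := fun r x hx t => (X.O (c - X.tw e) a).smul_mem r (hx t) }
  Z := fun a =>
    { carrier := {x | ∀ t, x.1 t ∈ X.Fs U E0 c a}
      add_mem' := fun hx hy t => add_mem (hx t) (hy t)
      zero_mem' := fun t => zero_mem _
      smul_mem' := fun r x hx t => (X.Fs U E0 c a).smul_mem r (hx t) }
  Pm := fun e {a a'} h x hx t => X.mono _ h (hx t)
  Zm := fun {a a'} h x hx t => XT.Fs_mono _ h (hx t)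
  act := fun {a e e' m x} hc hx t => by
    have e1 : X.tw e - X.tw e' + (c - X.tw e) = c - X.tw e' := by abel
    have h2 := X.mul_mem hc (hx t)
    rw [e1] at h2
    exact h2
  pair := fun {a e x v} hx hv t => by
    have h := XT.Fs_smul (hx t) hv
    rw [sub_add_cancel] at h
    exact h

variable {U E0}

/-- the inclusion of the kernel of the differential -/
def inc (q : ℕ) (c : X.G) : TEOH (K.KL U E0 o true q c) (K.KL U E0 o false q c) where
  φ := Submodule.inclusion fun x hx => ⟨hx.1, fun h => absurd h (by simp)⟩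
  ψ := Submodule.inclusion fun x hx => ⟨hx.1, fun h => absurd h (by simp)⟩
  hβ := fun x v => rfl
  hP := fun {e a x} hx => hx
  hZ := fun {a z} hz => hz

section dif

variable (ho : Function.Injective o)

/-- the differential on functions with values in `V` -/
def dV (V : Type u) [AddCommGroup V] [Module X.M V] (q : ℕ) :
    K.S o V false (q + 1) →ₗ[X.M] K.S o V true q where
  toFun := fun ω => ⟨dop o K.t ω.1, ω.2.1.dop o K.t, fun _ =>
    dop_sq o ho K.t (fun _ _ => mul_comm _ _) ω.1⟩
  map_add' := fun x y => Subtype.ext (dop_add o K.t x.1 y.1)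
  map_smul' := fun c x => Subtype.ext (dop_smul o K.t c (fun _ => mul_comm _ _) x.1)

/-- the differential -/
def dif (q : ℕ) (c : X.G) : TEOH (K.KL U E0 o false (q + 1) c) (K.KL U E0 o true q (c + K.δ)) where
  φ := K.dV o ho X.M q
  ψ := K.dV o ho U q
  hβ := fun x v => Subtype.ext (K.dop_smulr o x.1 v)
  hP := fun {e a x} hx t => by
    have e1 : c - X.tw e + K.δ = c + K.δ - X.tw e := by abel
    refine sum_mem fun l _ => zsmul_mem ?_ _
    have h := K.up l (hx (insert l t))
    rw [e1] at h
    exact h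
  hZ := fun {a z} hz t => by
    refine sum_mem fun l _ => zsmul_mem ?_ _
    exact XT.Fs_ind (K.t l) (fun u hu v hv => XT.Fs_mem (K.up l hu) hv) (hz (insert l t))

/-- multiplication with `s_l⁻¹ e_l` -/
private def hV (l : J) {V : Type u} [AddCommGroup V] [Module X.M V] (ω : Finset J → V) :
    Finset J → V := eop o (Pi.single l (((K.s l)⁻¹ : X.Mˣ) : X.M)) ω

private theorem hV_dop (ho : Function.Injective o) (l : J) {V : Type u} [AddCommGroup V] [Module X.M V] (ω : Finset J → V)
    (h : dop o K.t ω = 0) : dop o K.t (K.hV o l ω) = ω := by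
  have h1 := dop_eop o ho K.t (Pi.single l (((K.s l)⁻¹ : X.Mˣ) : X.M))
    (fun _ _ => mul_comm _ _) ω
  have h2 : ∑ j, K.t j * (Pi.single l (((K.s l)⁻¹ : X.Mˣ) : X.M) : J → X.M) j = 1 := by
    rw [Finset.sum_eq_single l]
    · rw [Pi.single_eq_same]
      exact Units.mul_inv (K.s l)
    · intro j _ hj
      rw [Pi.single_eq_of_ne hj, mul_zero]
    · intro h3
      exact absurd (Finset.mem_univ l) h3
  have h3 : eop o (Pi.single l (((K.s l)⁻¹ : X.Mˣ) : X.M) : J → X.M) (0 : Finset J → V) = 0 := by
    funext t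
    simp [eop]
  rw [h, h3, add_zero, h2, one_smul] at h1
  exact h1

private theorem hV_mem (l : J) {V : Type u} [AddCommGroup V] [Module k V] [Module X.M V]
    (T T' : Submodule k V) (hT : ∀ x ∈ T', (((K.s l)⁻¹ : X.Mˣ) : X.M) • x ∈ T)
    {ω : Finset J → V} (h : ∀ t, ω t ∈ T') (t : Finset J) : K.hV o l ω t ∈ T := by
  refine sum_mem fun j _ => zsmul_mem ?_ _
  by_cases hj : j = l
  · subst hj
    rw [Pi.single_eq_same]
    exact hT _ (h _)
  · rw [Pi.single_eq_of_ne hj, zero_smul]
    exact zero_mem _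

/-- The exact sequences. -/
theorem ex (q : ℕ) (c : X.G) :
    TEOEx (K.inc (U := U) (E0 := E0) o (q + 1) c) (K.dif (U := U) (E0 := E0) o ho q c) where
  iP := fun (x : K.S o X.M true (q + 1)) (y : K.S o X.M true (q + 1)) hxy =>
    Subtype.ext (congrArg (fun z : K.S o X.M false (q + 1) => z.1) hxy)
  iZ := fun (x : K.S o U true (q + 1)) (y : K.S o U true (q + 1)) hxy =>
    Subtype.ext (congrArg (fun z : K.S o U false (q + 1) => z.1) hxy)
  zP := fun (x : K.S o X.M true (q + 1)) => Subtype.ext (x.2.2 rfl)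
  zZ := fun (x : K.S o U true (q + 1)) => Subtype.ext (x.2.2 rfl)
  sP := fun a ha e (w : K.S o X.M true q) hw => by
    obtain ⟨l, hl⟩ := K.dn ha
    refine ⟨(⟨K.hV o l w.1, w.2.1.eop o _, fun h => absurd h (by simp)⟩ :
      K.S o X.M false (q + 1)), fun t => ?_, Subtype.ext (K.hV_dop o ho l w.1 (w.2.2 rfl))⟩
    refine K.hV_mem (k := k) o l (X.O (c - X.tw e) a) (X.O (c + K.δ - X.tw e) a) (fun x hx => ?_)
      hw t
    refine hl ?_
    have e1 : c - X.tw e + K.δ = c + K.δ - X.tw e := by abel
    rw [e1]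
    exact hx
  sZ := fun a ha (w : K.S o U true q) hw => by
    obtain ⟨l, hl⟩ := K.dn ha
    refine ⟨(⟨K.hV o l w.1, w.2.1.eop o _, fun h => absurd h (by simp)⟩ :
      K.S o U false (q + 1)), fun t => ?_, Subtype.ext (K.hV_dop o ho l w.1 (w.2.2 rfl))⟩
    exact K.hV_mem (k := k) o l (X.Fs U E0 c a) (X.Fs U E0 (c + K.δ) a) (fun x hx =>
      XT.Fs_ind _ (fun u hu v hv => XT.Fs_mem (hl hu) hv) hx) hw t
  eP := fun a ha e (x : K.S o X.M false (q + 1)) hx h =>
    ⟨(⟨x.1, x.2.1, fun _ => congrArg Subtype.val h⟩ : K.S o X.M true (q + 1)), hx, rfl⟩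
  eZ := fun a ha (x : K.S o U false (q + 1)) hx h =>
    ⟨(⟨x.1, x.2.1, fun _ => congrArg Subtype.val h⟩ : K.S o U true (q + 1)), hx, rfl⟩

end dif

section good

variable {Zt : Bim (TT X.ca) (base k)}
  {ζ : GMap 0 Zt (cBR (tcolF X U E0) (LL X.i) (FS.e X.i))} {hζ : ζ.dd = 0}

/-- the function with one value -/
private def iV (z : Bool) {q : ℕ} (t : Finset J) (ht : t.card = q) {V : Type u} [AddCommGroup V]
    [Module X.M V] (hz : z = true → q = 0) : V →ₗ[X.M] K.S o V z q where
  toFun := fun v => ⟨Pi.single t v, fun t' ht' => by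
      rw [Pi.single_eq_of_ne]
      rintro rfl
      exact ht' ht, fun h => by
      refine dop_crd_zero o (fun t' ht' => ?_) K.t
      rw [Pi.single_eq_of_ne]
      rintro rfl
      exact ht' (ht.trans (hz h))⟩
  map_add' := fun x y => Subtype.ext (Pi.single_add _ _ _)
  map_smul' := fun c x => Subtype.ext (Pi.single_smul _ _ _)

/-- the value -/
private def pV (z : Bool) {q : ℕ} (t : Finset J) {V : Type u} [AddCommGroup V]
    [Module X.M V] : K.S o V z q →ₗ[X.M] V where
  toFun := fun x => x.1 t
  map_add' := fun x y => rfl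
  map_smul' := fun c x => rfl

/-- the inclusion of a summand -/
private def iK (z : Bool) {q : ℕ} (t : Finset J) (ht : t.card = q) (hz : z = true → q = 0)
    (c : X.G) : TEOH (ttwO X U E0 c) (K.KL U E0 o z q c) where
  φ := (K.iV o z t ht hz : X.M →ₗ[X.M] K.S o X.M z q)
  ψ := (K.iV o z t ht hz : U →ₗ[X.M] K.S o U z q)
  hβ := fun (x : X.M) v => Subtype.ext (funext fun t' => by
    change (Pi.single t (x • v) : Finset J → U) t' = (Pi.single t x : Finset J → X.M) t' • v
    by_cases h : t' = t
    · subst h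
      rw [Pi.single_eq_same, Pi.single_eq_same]
    · rw [Pi.single_eq_of_ne h, Pi.single_eq_of_ne h, zero_smul])
  hP := fun {e a} {x : X.M} (hx : x ∈ X.O (c - X.tw e) a) t' => by
    change (Pi.single t x : Finset J → X.M) t' ∈ X.O (c - X.tw e) a
    by_cases h : t' = t
    · subst h
      rw [Pi.single_eq_same]
      exact hx
    · rw [Pi.single_eq_of_ne h]
      exact zero_mem _
  hZ := fun {a} {x : U} (hx : x ∈ X.Fs U E0 c a) t' => by
    change (Pi.single t x : Finset J → U) t' ∈ X.Fs U E0 c a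
    by_cases h : t' = t
    · subst h
      rw [Pi.single_eq_same]
      exact hx
    · rw [Pi.single_eq_of_ne h]
      exact zero_mem _

/-- the projection to a summand -/
private def pK (z : Bool) (q : ℕ) (t : Finset J) (c : X.G) :
    TEOH (K.KL U E0 o z q c) (ttwO X U E0 c) where
  φ := (K.pV o z t : K.S o X.M z q →ₗ[X.M] X.M)
  ψ := (K.pV o z t : K.S o U z q →ₗ[X.M] U)
  hβ := fun x v => rfl
  hP := fun {e a x} hx => hx t
  hZ := fun {a x} hx => hx t

/-- the terms of the complex -/
theorem good_term (q : ℕ) (c : X.G) (h : (ttwO X U E0 c).G ζ hζ) :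
    (K.KL U E0 o false q c).G ζ hζ := by
  have key : ∀ {V : Type u} [AddCommGroup V] [Module X.M V] (x : K.S o V false q),
      ∑ j : {t : Finset J // t.card = q}, K.iV o false j.1 j.2 (fun h => absurd h (by simp))
        (K.pV o false (q := q) j.1 x) = x := by
    intro V _ _ x
    refine Subtype.ext (funext fun t => ?_)
    rw [AddSubmonoidClass.coe_finsetSum, Finset.sum_apply]
    change ∑ j : {t : Finset J // t.card = q}, (Pi.single j.1 (x.1 j.1) : Finset J → V) t = x.1 t
    by_cases ht : t.card = q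
    · rw [Finset.sum_eq_single (⟨t, ht⟩ : {t : Finset J // t.card = q})]
      · exact Pi.single_eq_same _ _
      · intro j _ hj
        rw [Pi.single_eq_of_ne]
        rintro rfl
        exact hj rfl
      · intro h3
        exact absurd (Finset.mem_univ _) h3
    · rw [x.2.1 t ht]
      refine Finset.sum_eq_zero fun j _ => ?_
      rw [Pi.single_eq_of_ne]
      rintro rfl
      exact ht j.2
  exact TEO.good_sumJ (J := {t : Finset J // t.card = q}) _ (fun _ => ttwO X U E0 c)
    (fun j => K.iK o false j.1 j.2 (fun h => absurd h (by simp)) c)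
    (fun j => K.pK o false q j.1 c) (fun x => key x) (fun x => key x) (fun _ => h)

private theorem iV_pV {V : Type u} [AddCommGroup V] [Module X.M V] (x : K.S o V true 0) :
    K.iV o true ∅ Finset.card_empty (fun _ => rfl) (K.pV o true (q := 0) ∅ x) = x := by
  refine Subtype.ext (funext fun t => ?_)
  change (Pi.single ∅ (x.1 ∅) : Finset J → V) t = x.1 t
  by_cases ht : t = ∅
  · subst ht
    exact Pi.single_eq_same _ _
  · rw [Pi.single_eq_of_ne ht, x.2.1 t (fun h => ht (Finset.card_eq_zero.1 h))]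

/-- the last term of the complex -/
theorem good_last (c : X.G) (h : (ttwO X U E0 c).G ζ hζ) : (K.KL U E0 o true 0 c).G ζ hζ :=
  TEO.good_sumJ (J := Unit) _ (fun _ => ttwO X U E0 c)
    (fun _ => K.iK o true ∅ Finset.card_empty (fun _ => rfl) c) (fun _ => K.pK o true 0 ∅ c)
    (fun x => by
      rw [Fintype.sum_unique]
      exact K.iV_pV o x)
    (fun x => by
      rw [Fintype.sum_unique]
      exact K.iV_pV o x) (fun _ => h)

theorem good_last' (c : X.G) (h : (K.KL U E0 o true 0 c).G ζ hζ) : (ttwO X U E0 c).G ζ hζ :=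
  TEO.good_sumJ (J := Unit) _ (fun _ => K.KL U E0 o true 0 c)
    (fun _ => K.pK o true 0 ∅ c)
    (fun _ => K.iK o true (q := 0) ∅ Finset.card_empty (fun _ => rfl) c)
    (fun (x : X.M) => by
      rw [Fintype.sum_unique]
      exact Pi.single_eq_same (M := fun _ : Finset J => X.M) (∅ : Finset J) x)
    (fun (x : U) => by
      rw [Fintype.sum_unique]
      exact Pi.single_eq_same (M := fun _ : Finset J => U) (∅ : Finset J) x) (fun _ => h)

/-- the first term of the complex -/
theorem good_first' (c : X.G) (h : (K.KL U E0 o false (Fintype.card J) c).G ζ hζ) :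
    (ttwO X U E0 c).G ζ hζ :=
  TEO.good_sumJ (J := Unit) _ (fun _ => K.KL U E0 o false (Fintype.card J) c)
    (fun _ => K.pK o false _ Finset.univ c)
    (fun _ => K.iK o false Finset.univ Finset.card_univ (fun h => absurd h (by simp)) c)
    (fun (x : X.M) => by
      rw [Fintype.sum_unique]
      exact Pi.single_eq_same (M := fun _ : Finset J => X.M) _ x)
    (fun (x : U) => by
      rw [Fintype.sum_unique]
      exact Pi.single_eq_same (M := fun _ : Finset J => U) _ x) (fun _ => h)

private theorem crd_zero {V : Type u} [AddCommGroup V] {ω : Finset J → V}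
    (h : Crd (Fintype.card J + 1) ω) : ω = 0 := by
  funext t
  refine h t fun h1 => ?_
  have h2 := Finset.card_le_univ t
  omega

/-- zero lattices -/
theorem good_none (z : Bool) (c : X.G) : (K.KL U E0 o z (Fintype.card J + 1) c).G ζ hζ :=
  TEO.good_zero _ (fun (x : K.S o X.M z (Fintype.card J + 1)) => Subtype.ext (crd_zero x.2.1))
    (fun (x : K.S o U z (Fintype.card J + 1)) => Subtype.ext (crd_zero x.2.1))

section gen

variable (ho : Function.Injective o) (hZt : LFlat Zt)

include ho hZt in
theorem right (q : ℕ) (c : X.G) (h1 : (K.KL U E0 o true (q + 1) c).G ζ hζ)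
    (h2 : (K.KL U E0 o false (q + 1) c).G ζ hζ) : (K.KL U E0 o true q (c + K.δ)).G ζ hζ :=
  RO.good_right (K.inc (U := U) (E0 := E0) o (q + 1) c).ro (K.dif (U := U) (E0 := E0) o ho q c).ro
    (K.ex o ho q c).pb (K.ex o ho q c).pc hZt h1 h2

include ho hZt in
theorem left (q : ℕ) (c : X.G) (h2 : (K.KL U E0 o false (q + 1) c).G ζ hζ)
    (h3 : (K.KL U E0 o true q (c + K.δ)).G ζ hζ) : (K.KL U E0 o true (q + 1) c).G ζ hζ :=
  RO.good_left (K.inc (U := U) (E0 := E0) o (q + 1) c).ro (K.dif (U := U) (E0 := E0) o ho q c).ro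
    (K.ex o ho q c).pb (K.ex o ho q c).pc hZt h2 h3

private theorem inj_N (ho : Function.Injective o) {V : Type u} [AddCommGroup V] [Module X.M V]
    {x : Finset J → V} (h : Crd (Fintype.card J) x) (l : J) (hd : dop o K.t x = 0) : x = 0 := by
  rw [← K.hV_dop o ho l x hd, show K.hV o l x = 0 from crd_zero (h.eop o _)]
  funext t
  simp [dop]

/-- the zero map -/
private def zro (q : ℕ) (c c' : X.G) : TEOH (K.KL U E0 o true q c)
    (K.KL U E0 o true (Fintype.card J + 1) c') where
  φ := 0
  ψ := 0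
  hβ := fun x v => by
    rw [LinearMap.zero_apply, LinearMap.zero_apply, map_zero, LinearMap.zero_apply]
  hP := fun {e a x} hx => by
    rw [LinearMap.zero_apply]
    exact zero_mem _
  hZ := fun {a x} hx => by
    rw [LinearMap.zero_apply]
    exact zero_mem _

private theorem ex0 (ho : Function.Injective o) (q : ℕ) (hq : q + 1 = Fintype.card J)
    (c : X.G) :
    TEOEx (K.dif (U := U) (E0 := E0) o ho q c) (K.zro (U := U) (E0 := E0) o q (c + K.δ) c) := by
  have l : J := Classical.choice (Fintype.card_pos_iff.1 (by omega))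
  constructor
  · intro (x : K.S o X.M false (q + 1)) (y : K.S o X.M false (q + 1)) hxy
    rw [← sub_eq_zero] at hxy ⊢
    rw [← map_sub] at hxy
    refine Subtype.ext (K.inj_N o ho ?_ l (congrArg Subtype.val hxy))
    rw [← hq]
    exact (x - y).2.1
  · intro (x : K.S o U false (q + 1)) (y : K.S o U false (q + 1)) hxy
    rw [← sub_eq_zero] at hxy ⊢
    rw [← map_sub] at hxy
    refine Subtype.ext (K.inj_N o ho ?_ l (congrArg Subtype.val hxy))
    rw [← hq]
    exact (x - y).2.1
  · intro x
    exact LinearMap.zero_apply _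
  · intro x
    exact LinearMap.zero_apply _
  · intro a ha e (w : K.S o X.M true (Fintype.card J + 1)) hw
    exact ⟨0, zero_mem _, Subtype.ext (crd_zero w.2.1).symm⟩
  · intro a ha (w : K.S o U true (Fintype.card J + 1)) hw
    exact ⟨0, zero_mem _, Subtype.ext (crd_zero w.2.1).symm⟩
  · intro a ha e x hx _
    exact (K.ex (U := U) (E0 := E0) o ho q c).sP a ha e x hx
  · intro a ha x hx _
    exact (K.ex (U := U) (E0 := E0) o ho q c).sZ a ha x hx

include hZt in
/-- The twists `O(b + i δ)`, `i < |J|`, generate `O(b + |J| δ)`. -/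
theorem gen_up (b : X.G)
    (h : ∀ i < Fintype.card J, (ttwO X U E0 (b + i • K.δ)).G ζ hζ) :
    (ttwO X U E0 (b + Fintype.card J • K.δ)).G ζ hζ := by
  obtain ⟨o, ho⟩ : ∃ o : J → ℕ, Function.Injective o :=
    ⟨fun j => (Fintype.equivFin J j : ℕ), fun x y hxy =>
      (Fintype.equivFin J).injective (Fin.ext hxy)⟩
  have key : ∀ r q : ℕ, q + r = Fintype.card J → (K.KL U E0 o true q (b + r • K.δ)).G ζ hζ := by
    intro r
    induction r with
    | zero =>
      intro q hq
      rw [add_zero] at hq
      subst hq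
      have h1 := K.right (U := U) (E0 := E0) (ζ := ζ) (hζ := hζ) o ho hZt (Fintype.card J)
        (b - K.δ) (K.good_none o true _) (K.good_none o false _)
      rw [sub_add_cancel] at h1
      rwa [zero_smul, add_zero]
    | succ r ih =>
      intro q hq
      have h1 := K.right (U := U) (E0 := E0) (ζ := ζ) (hζ := hζ) o ho hZt q (b + r • K.δ)
        (ih (q + 1) (by omega)) (K.good_term o (q + 1) _ (h r (by omega)))
      rwa [add_assoc, ← succ_nsmul] at h1
  exact K.good_last' o _ (key (Fintype.card J) 0 (zero_add _))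

include hZt in
/-- The twists `O(b + i δ)`, `0 < i ≤ |J|`, generate `O(b)`. -/
theorem gen_down (b : X.G) (hJ : 0 < Fintype.card J)
    (h : ∀ i, 0 < i → i ≤ Fintype.card J → (ttwO X U E0 (b + i • K.δ)).G ζ hζ) :
    (ttwO X U E0 b).G ζ hζ := by
  obtain ⟨o, ho⟩ : ∃ o : J → ℕ, Function.Injective o :=
    ⟨fun j => (Fintype.equivFin J j : ℕ), fun x y hxy =>
      (Fintype.equivFin J).injective (Fin.ext hxy)⟩
  have key : ∀ q r : ℕ, q + r = Fintype.card J → 0 < r →
      (K.KL U E0 o true q (b + r • K.δ)).G ζ hζ := by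
    intro q
    induction q with
    | zero =>
      intro r hr h0
      exact K.good_last o _ (h r h0 (by omega))
    | succ q ih =>
      intro r hr h0
      refine K.left (U := U) (E0 := E0) (ζ := ζ) (hζ := hζ) o ho hZt q (b + r • K.δ)
        (K.good_term o (q + 1) _ (h r h0 (by omega))) ?_
      have h1 := ih (r + 1) (by omega) (by omega)
      rwa [succ_nsmul, ← add_assoc] at h1
  obtain ⟨q, hq⟩ : ∃ q, q + 1 = Fintype.card J := ⟨Fintype.card J - 1, by omega⟩
  have h1 := key q 1 hq one_pos
  rw [one_smul] at h1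
  have h2 := RO.good_left (K.dif (U := U) (E0 := E0) o ho q b).ro
    (K.zro (U := U) (E0 := E0) o q (b + K.δ) b).ro (K.ex0 o ho q hq b).pb (K.ex0 o ho q hq b).pc
    hZt h1 (K.good_none (U := U) (E0 := E0) (ζ := ζ) (hζ := hζ) o true b)
  refine K.good_first' o b ?_
  rw [← hq]
  exact h2

end gen

end good

end KzD

/-- All twists are generated by the twists of the algebra. -/
theorem XT.gen_of {J : Type} [Fintype J] (K : KzD X J)
    (hII : ∀ i < Fintype.card J, ∃ e : X.II, X.tw e = i • K.δ)
    (hG : ∀ b : X.G, ∃ z : ℤ, b = z • K.δ) : X.Gen := by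
  classical
  intro U _ _ _ _ E0 Zt ζ hζ hZt hq
  have hJ : 0 < Fintype.card J := by
    obtain ⟨x⟩ := X.ne
    obtain ⟨l, _⟩ := K.dn (a := {x}) ⟨x, rfl⟩
    exact Fintype.card_pos_iff.2 ⟨l⟩
  have h0 : ∀ z : ℤ, ∀ i < Fintype.card J, (ttwO X U E0 ((z + i) • K.δ)).G ζ hζ := by
    intro z
    induction z using Int.induction_on with
    | zero =>
      intro i hi
      obtain ⟨e, he⟩ := hII i hi
      rw [zero_add, natCast_zsmul, ← he]
      exact ttw_one_good hq e
    | succ z ih =>
      intro i hi
      by_cases h1 : i + 1 < Fintype.card J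
      · have h2 := ih (i + 1) h1
        rw [show (z : ℤ) + 1 + (i : ℤ) = (z : ℤ) + ((i + 1 : ℕ) : ℤ) by push_cast; ring]
        exact h2
      · have e1 : i + 1 = Fintype.card J := by omega
        have h2 := K.gen_up (U := U) (E0 := E0) (ζ := ζ) (hζ := hζ) hZt ((z : ℤ) • K.δ)
          (fun i hi => by
            have h3 := ih i hi
            rwa [add_smul, natCast_zsmul K.δ i] at h3)
        rw [← e1, ← natCast_zsmul K.δ (i + 1), ← add_smul] at h2
        rw [show (z : ℤ) + 1 + (i : ℤ) = (z : ℤ) + ((i + 1 : ℕ) : ℤ) by push_cast; ring]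
        exact h2
    | pred z ih =>
      intro i hi
      by_cases h1 : 0 < i
      · have h2 := ih (i - 1) (by omega)
        rw [show -(z : ℤ) - 1 + (i : ℤ) = -(z : ℤ) + ((i - 1 : ℕ) : ℤ) by omega]
        exact h2
      · have e1 : i = 0 := by omega
        subst e1
        have h2 := K.gen_down (U := U) (E0 := E0) (ζ := ζ) (hζ := hζ) hZt
          ((-(z : ℤ) - 1) • K.δ) hJ (fun i hi hi' => by
            have h3 := ih (i - 1) (by omega)
            rw [← natCast_zsmul, ← add_smul,
              show -(z : ℤ) - 1 + (i : ℤ) = -(z : ℤ) + ((i - 1 : ℕ) : ℤ) by omega]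
            exact h3)
        rw [Nat.cast_zero, add_zero]
        exact h2
  intro b
  obtain ⟨z, rfl⟩ := hG b
  have h1 := h0 z 0 hJ
  rwa [Nat.cast_zero, add_zero] at h1

end Pool.Agent.MP_6e5bed_ag_GG
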