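import Pool.Agent.Lib.MP_6e5bed_ag_GV.TTw

set_option autoImplicit false
set_option linter.unusedVariables false
set_option linter.unusedSectionVars false

/-!
# MP_6e5bed_ag, THEOREM V, LOC: exact sequences of lattices, the Koszul sequences
-/

noncomputable section

namespace Pool.Agent.MP_6e5bed_ag_GG

open Pool.Agent.MP_6e5bed_ag_NC Pool.Agent.MP_6e5bed_ag_PN
open Pool.Agent.MP_6e5bed_ag_NS (Cx CHom CPr co CEx concH conc_map)
open scoped TensorProduct

universe u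

variable {k : Type u} [Field k] {X : XT k} {U : Type u} [AddCommGroup U] [Module k U]
  [Module X.M U] [IsScalarTower k X.M U] {E0 : Submodule k U}

/-- Exact sequences of lattices on the charts. -/
structure TEOEx {O1 O2 O3 : TEO X U E0} (F : TEOH O1 O2) (G : TEOH O2 O3) : Prop where
  iP : Function.Injective F.φ
  iZ : Function.Injective F.ψ
  zP : ∀ x, G.φ (F.φ x) = 0
  zZ : ∀ z, G.ψ (F.ψ z) = 0
  sP : ∀ a : Set X.i, a.Nonempty → ∀ e, ∀ w ∈ O3.P e a, ∃ x ∈ O2.P e a, G.φ x = w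
  sZ : ∀ a : Set X.i, a.Nonempty → ∀ w ∈ O3.Z a, ∃ x ∈ O2.Z a, G.ψ x = w
  eP : ∀ a : Set X.i, a.Nonempty → ∀ e, ∀ x ∈ O2.P e a, G.φ x = 0 →
    ∃ y ∈ O1.P e a, F.φ y = x
  eZ : ∀ a : Set X.i, a.Nonempty → ∀ z ∈ O2.Z a, G.ψ z = 0 → ∃ y ∈ O1.Z a, F.ψ y = z

/-- PROOF. `TEOH.ro_f`, `TEOH.fR_coe`, `Subtype.ext`, `funext`; choose preimages in every component
(`choose`); `c.2.1 : c.1.Nonempty`. -/
theorem TEOEx.pb {O1 O2 O3 : TEO X U E0} {F : TEOH O1 O2} {G : TEOH O2 O3} (h : TEOEx F G) :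
    PBEx F.ro.f G.ro.f := by
  intro c
  have hc : c.1.Nonempty := c.2.1
  refine ⟨fun (x : tcolS X (fun e => O1.P e c.1)) (y : tcolS X (fun e => O1.P e c.1)) hxy => ?_,
    fun (w : tcolS X (fun e => O3.P e c.1)) => ?_,
    fun (x : tcolS X (fun e => O2.P e c.1)) => ⟨fun hx => ?_, ?_⟩⟩
  · have e1 : F.tfR c.1 x = F.tfR c.1 y := hxy
    refine Subtype.ext (funext fun e => h.iP ?_)
    have e2 := congrFun (congrArg Subtype.val e1) e
    rwa [TEOH.fR_coe, TEOH.fR_coe] at e2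
  · have h1 : ∀ e, ∃ x ∈ O2.P e c.1, G.φ x = w.1 e := fun e => h.sP c.1 hc e _ (w.2 e)
    choose g hg1 hg2 using h1
    have e1 : G.tfR c.1 ⟨g, hg1⟩ = w := Subtype.ext (funext hg2)
    exact ⟨(⟨g, hg1⟩ : tcolS X (fun e => O2.P e c.1)), e1⟩
  · have e1 : G.tfR c.1 x = 0 := hx
    have h1 : ∀ e, ∃ y ∈ O1.P e c.1, F.φ y = x.1 e := fun e => by
      refine h.eP c.1 hc e _ (x.2 e) ?_
      have e2 := congrFun (congrArg Subtype.val e1) e
      rw [TEOH.fR_coe] at e2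
      exact e2
    choose g hg1 hg2 using h1
    have e3 : F.tfR c.1 ⟨g, hg1⟩ = x := Subtype.ext (funext hg2)
    exact ⟨(⟨g, hg1⟩ : tcolS X (fun e => O1.P e c.1)), e3⟩
  · rintro ⟨(y : tcolS X (fun e => O1.P e c.1)), hy⟩
    have e1 : F.tfR c.1 y = x := hy
    have e2 : G.tfR c.1 x = 0 := by
      rw [← e1]
      refine Subtype.ext (funext fun e => ?_)
      rw [TEOH.fR_coe, TEOH.fR_coe, h.zP]
      rfl
    exact e2

/-- PROOF. `TEOH.ro_g`, `TEOH.fZ_coe`, `Subtype.ext`. -/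
theorem TEOEx.pc {O1 O2 O3 : TEO X U E0} {F : TEOH O1 O2} {G : TEOH O2 O3} (h : TEOEx F G) :
    PCEx F.ro.g G.ro.g := by
  intro c
  have hc : c.1.Nonempty := c.2.1
  refine ⟨fun (x : O1.Z c.1) (y : O1.Z c.1) hxy => ?_, fun (w : O3.Z c.1) => ?_,
    fun (x : O2.Z c.1) => ⟨fun hx => ?_, ?_⟩⟩
  · have e1 : F.fZ c.1 x = F.fZ c.1 y := hxy
    refine Subtype.ext (h.iZ ?_)
    have e2 := congrArg Subtype.val e1
    rwa [TEOH.fZ_coe, TEOH.fZ_coe] at e2
  · obtain ⟨x, hx1, hx2⟩ := h.sZ c.1 hc w.1 w.2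
    have e1 : G.fZ c.1 ⟨x, hx1⟩ = w := Subtype.ext hx2
    exact ⟨(⟨x, hx1⟩ : O2.Z c.1), e1⟩
  · have e1 : G.fZ c.1 x = 0 := hx
    have e2 := congrArg Subtype.val e1
    rw [TEOH.fZ_coe] at e2
    obtain ⟨y, hy1, hy2⟩ := h.eZ c.1 hc x.1 x.2 e2
    have e3 : F.fZ c.1 ⟨y, hy1⟩ = x := Subtype.ext hy2
    exact ⟨(⟨y, hy1⟩ : O1.Z c.1), e3⟩
  · rintro ⟨(y : O1.Z c.1), hy⟩
    have e1 : F.fZ c.1 y = x := hy
    have e2 : G.fZ c.1 x = 0 := by
      rw [← e1]
      refine Subtype.ext ?_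
      rw [TEOH.fZ_coe, TEOH.fZ_coe, h.zZ]
      rfl
    exact e2

variable {Zt : Bim (TT X.ca) (base k)}
  (ζ : GMap 0 Zt (cBR (tcolF X U E0) (LL X.i) (FS.e X.i))) (hζ : ζ.dd = 0)

/-- The cup product for the lattice `O` is a quasi-isomorphism. -/
def TEO.G (O : TEO X U E0) : Prop := O.ro.Good ζ hζ

variable {ζ hζ}

/-- the inclusions of the summands, `j = false, true` -/
def tdblI (O : TEO X U E0) (j : Bool) : TEOH O (O.prod O) where
  φ := if j then LinearMap.inr X.M O.E O.E else LinearMap.inl X.M O.E O.E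
  ψ := if j then LinearMap.inr X.M O.Y O.Y else LinearMap.inl X.M O.Y O.Y
  hβ := fun x v => by
    cases j
    · exact Prod.ext rfl (by
        change (0 : O.Y) = O.β 0 v
        rw [map_zero, LinearMap.zero_apply])
    · exact Prod.ext (by
        change (0 : O.Y) = O.β 0 v
        rw [map_zero, LinearMap.zero_apply]) rfl
  hP := fun {e a x} hx => by
    cases j
    · exact ⟨hx, zero_mem _⟩
    · exact ⟨zero_mem _, hx⟩
  hZ := fun {a z} hz => by
    cases j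
    · exact ⟨hz, zero_mem _⟩
    · exact ⟨zero_mem _, hz⟩

/-- the projections to the summands -/
def tdblP (O : TEO X U E0) (j : Bool) : TEOH (O.prod O) O where
  φ := if j then LinearMap.snd X.M O.E O.E else LinearMap.fst X.M O.E O.E
  ψ := if j then LinearMap.snd X.M O.Y O.Y else LinearMap.fst X.M O.Y O.Y
  hβ := fun x v => by
    cases j
    · rfl
    · rfl
  hP := fun {e a x} hx => by
    cases j
    · exact hx.1
    · exact hx.2
  hZ := fun {a z} hz => by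
    cases j
    · exact hz.1
    · exact hz.2

/-- PROOF. `RO.good_sum` for `J = Bool`, `Rj := fun _ => O.ro`, `(tdblI O j).ro`, `(tdblP O j).ro`;
`Fintype.sum_bool`. -/
theorem tdbl_good (O : TEO X U E0) (h : O.G ζ hζ) : (O.prod O).G ζ hζ := by
  refine RO.good_sum (J := Bool) (O.prod O).ro (fun _ => O.ro) (fun j => (tdblI O j).ro)
    (fun j => (tdblP O j).ro)
    (fun c (x : tcolS X (fun e => (O.prod O).P e c.1)) => ?_)
    (fun c (z : (O.prod O).Z c.1) => ?_) (fun _ => h)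
  · rw [Fintype.sum_bool]
    refine Subtype.ext (funext fun e => ?_)
    exact Prod.ext (zero_add (x.1 e).1) (add_zero (x.1 e).2)
  · rw [Fintype.sum_bool]
    refine Subtype.ext ?_
    exact Prod.ext (zero_add z.1.1) (add_zero z.1.2)

end Pool.Agent.MP_6e5bed_ag_GG
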