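import Pool.Agent.Lib.MP_6e5bed_ag_GV.TE
import Pool.Agent.Lib.MP_6e5bed_ag_GG.LO

set_option autoImplicit false
set_option linter.unusedVariables false
set_option linter.unusedSectionVars false

/-!
# MP_6e5bed_ag, THEOREM V, LOC: lattices of rows with a pairing with the columns of `F`

`TEO X U E0` consists of vector spaces `E`, `Y` over the function field with a pairing
`E × U → Y` and of subspaces `P e a ⊆ E`, `Z a ⊆ Y`, such that the rows with entries in `P e a`
are a right module over `AX_a` and the pairing of rows and columns with entries in `F(e)_a` has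
values in `Z a`. It gives an object `O.ro : RO (tcolF X U E0)`.
-/

noncomputable section

namespace Pool.Agent.MP_6e5bed_ag_GG

open Pool.Agent.MP_6e5bed_ag_NC Pool.Agent.MP_6e5bed_ag_PN
open Pool.Agent.MP_6e5bed_ag_NS (Cx CHom CPr co CEx concH conc_map)

universe u

variable {k : Type u} [Field k]

/-- Lattices of rows with a pairing with the columns of `F`. -/
structure TEO (X : XT k) (U : Type u) [AddCommGroup U] [Module k U] [Module X.M U]
    [IsScalarTower k X.M U] (E0 : Submodule k U) where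
  E : Type u
  Y : Type u
  [gE : AddCommGroup E]
  [kE : Module k E]
  [mE : Module X.M E]
  [tE : IsScalarTower k X.M E]
  [gY : AddCommGroup Y]
  [kY : Module k Y]
  [mY : Module X.M Y]
  [tY : IsScalarTower k X.M Y]
  β : E →ₗ[X.M] U →ₗ[X.M] Y
  P : X.II → Set X.i → Submodule k E
  Z : Set X.i → Submodule k Y
  Pm : ∀ (e : X.II) {a a' : Set X.i}, a ⊆ a' → P e a ≤ P e a'
  Zm : ∀ {a a' : Set X.i}, a ⊆ a' → Z a ≤ Z a'
  act : ∀ {a : Set X.i} {e e' : X.II} {c : X.M} {x : E}, c ∈ X.O (X.tw e - X.tw e') a →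
    x ∈ P e a → c • x ∈ P e' a
  pair : ∀ {a : Set X.i} {e : X.II} {x : E} {v : U}, x ∈ P e a → v ∈ X.Fs U E0 (X.tw e) a →
    β x v ∈ Z a

attribute [instance] TEO.gE TEO.kE TEO.mE TEO.tE TEO.gY TEO.kY TEO.mY TEO.tY

namespace TEO

variable {X : XT k} {U : Type u} [AddCommGroup U] [Module k U] [Module X.M U]
  [IsScalarTower k X.M U] {E0 : Submodule k U} (O : TEO X U E0)

theorem row_mem (a : Set X.i) {g : Matrix X.II X.II X.M} (hg : g ∈ X.AXs a) {f : X.II → O.E}
    (hf : f ∈ tcolS X (fun e => O.P e a)) :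
    rowA (k := k) O.E g f ∈ tcolS X (fun e => O.P e a) := fun e => by
  rw [rowA_apply]
  exact Submodule.sum_mem _ fun e' _ => O.act (hg e' e) (hf e')

/-- The presheaf of rows. -/
def row : PB (PA.con X.i (base k)) X.ca.pa :=
  subR X.ca (fun a => tcolS X (fun e => O.P e a)) (fun h => tcolS_mono X fun e => O.Pm e h)
    (fun c => tactR (X.AXs c.1) _ (rowA (k := k) O.E) (fun g hg v hv => O.row_mem c.1 hg hv))
    (fun c m => Subtype.ext (rowA_one m.1)) (fun c a a' m => Subtype.ext (rowA_mul a.1 a'.1 m.1))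
    (fun h a m => rfl)

theorem rc_mem (a : Set X.i) {f : X.II → O.E} (hf : f ∈ tcolS X (fun e => O.P e a))
    {v : X.II → U} (hv : v ∈ tcolS X (fun e => X.Fs U E0 (X.tw e) a)) :
    rcP (k := k) O.β f v ∈ O.Z a := by
  rw [rcP_apply]
  exact Submodule.sum_mem _ fun e _ => O.pair (hf e) (hv e)

/-- the pairing of rows and columns -/
def rc (a : Set X.i) : tcolS X (fun e => O.P e a) →ₗ[k]
    tcolS X (fun e => X.Fs U E0 (X.tw e) a) →ₗ[k] O.Z a :=
  EO.bilR (rcP (k := k) O.β) _ _ _ (fun f hf v hv => O.rc_mem a hf hv)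

theorem rc_coe (a : Set X.i) (f : tcolS X (fun e => O.P e a))
    (v : tcolS X (fun e => X.Fs U E0 (X.tw e) a)) :
    (O.rc a f v : O.Y) = ∑ e, O.β (f.1 e) (v.1 e) := rfl

/-- The presheaf of rows with the pairing. -/
def ro : RO (tcolF X U E0) where
  R := O.row
  Z := subPC O.Z O.Zm
  p :=
    { p := fun c => EO.concP (O.rc c.1)
      nat := fun _ _ _ => rfl }
  bal := fun c x (a : X.AXs c.1) y =>
    Subtype.ext (rcP_bal (k := k) O.β (a : Matrix X.II X.II X.M) x.1 y.1)

end TEO

section maps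

variable {X : XT k} {U : Type u} [AddCommGroup U] [Module k U] [Module X.M U]
  [IsScalarTower k X.M U] {E0 : Submodule k U}

/-- Morphisms. -/
structure TEOH (O O' : TEO X U E0) where
  φ : O.E →ₗ[X.M] O'.E
  ψ : O.Y →ₗ[X.M] O'.Y
  hβ : ∀ x v, ψ (O.β x v) = O'.β (φ x) v
  hP : ∀ {e : X.II} {a : Set X.i} {x : O.E}, x ∈ O.P e a → φ x ∈ O'.P e a
  hZ : ∀ {a : Set X.i} {z : O.Y}, z ∈ O.Z a → ψ z ∈ O'.Z a

variable {O O' : TEO X U E0} (F : TEOH O O')

/-- the map of rows on a chart -/
def TEOH.tfR (a : Set X.i) : tcolS X (fun e => O.P e a) →ₗ[k] tcolS X (fun e => O'.P e a) :=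
  (rowM (k := k) F.φ).restrict (fun _ hf e => F.hP (hf e))

/-- the map of the values on a chart -/
def TEOH.fZ (a : Set X.i) : O.Z a →ₗ[k] O'.Z a :=
  (F.ψ.restrictScalars k).restrict (fun _ hz => F.hZ hz)

/-- the map of presheaves of rows -/
def TEOH.pbh : PBH O.row O'.row where
  f := fun c =>
    { f := F.tfR c.1
      deg := fun {i x} hx => by
        rw [add_zero]
        exact conc_map (F.tfR c.1) hx
      map_l := fun b x => by
        rw [Dg.sp_zero]
        refine (congrArg (F.tfR c.1) (base_l (O.row.M c) b x)).trans ?_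
        refine Eq.trans ?_ (base_l (O'.row.M c) b (F.tfR c.1 x)).symm
        exact (F.tfR c.1).map_smul (show k from b) x
      map_r := fun (a : X.AXs c.1) x =>
        Subtype.ext (rowM_A (k := k) F.φ (a : Matrix X.II X.II X.M) x.1) }
  dd := fun c => LinearMap.ext fun x => by
    rw [GMap.dd_apply, sg_zero, one_smul, LinearMap.zero_apply, sub_eq_zero]
    exact (map_zero (F.tfR c.1)).symm
  nat := fun _ _ => rfl

/-- the map of the presheaves of values -/
def TEOH.pch : PCH O.ro.Z O'.ro.Z where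
  f := fun c => concH (F.fZ c.1)
  nat := fun _ _ => rfl

/-- A morphism of lattices of rows gives a morphism of presheaves with pairings. -/
def TEOH.ro : ROH O.ro O'.ro where
  f := F.pbh
  g := F.pch
  nat := fun c x y => Subtype.ext (by
    change F.ψ (∑ e, O.β (x.1 e) (y.1 e)) = ∑ e, O'.β (F.φ (x.1 e)) (y.1 e)
    rw [map_sum]
    exact Finset.sum_congr rfl fun e _ => F.hβ _ _)

theorem TEOH.fR_coe (a : Set X.i) (x : tcolS X (fun e => O.P e a)) (e : X.II) :
    (F.tfR a x).1 e = F.φ (x.1 e) := rfl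

theorem TEOH.fZ_coe (a : Set X.i) (z : O.Z a) : (F.fZ a z : O'.Y) = F.ψ z.1 := rfl

theorem TEOH.ro_f (c : Ch X.i) (x : tcolS X (fun e => O.P e c.1)) :
    (F.ro.f.f c).f x = F.tfR c.1 x := rfl

theorem TEOH.ro_g (c : Ch X.i) (z : O.Z c.1) : (F.ro.g.f c).f z = F.fZ c.1 z := rfl

end maps

end Pool.Agent.MP_6e5bed_ag_GG
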