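import Pool.Agent.Lib.MP_6e5bed_ag_GV.TQ
import Pool.Agent.Lib.MP_6e5bed_ag_GG.MainT

set_option autoImplicit false
set_option linter.unusedSectionVars false
set_option linter.unusedVariables false

/-!
# MP_6e5bed_ag, THEOREM V: the main step of the noetherian induction
-/

noncomputable section

namespace Pool.Agent.MP_6e5bed_ag_GG

open Pool.Agent.MP_6e5bed_ag_NC Pool.Agent.MP_6e5bed_ag_PN Pool.Agent.MP_6e5bed_ag_PS
open scoped TensorProduct

universe u

variable {k : Type u} [Field k] {i j : Type} [Fintype i] [Fintype j] {A : CA k i} {A' : CA k j}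

/-- The statement LOC for the pairing of rows and columns. -/
def tHqP {m : Ch i} (g : GD A m) (X : XT k) (L : Type u) [Field L] [Algebra k L]
    [Algebra L g.S] [IsScalarTower k L g.S] [Algebra L X.M] [IsScalarTower k L X.M]
    {W : LPre L A'} (D : E0D W) : Prop :=
  ∀ {V : Bim (TT X.ca) (TT X.ca)} (_ : Perf V) {ω : GMap 0 V (diag (TT X.ca))} (_ : QIso ω)
    {l : X.i} (q : Ptr (LL X.i) l) (c' : Ch j),
    QIso ((((g.tpR X L D ((FS.e X.i).ins l)).bpr q).b (m, c')).psi ω)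

/-- THE MAIN STEP at one point. -/
theorem tmain_pt {Good : DGA k → Prop} {hF : FinBB A A} {hS : Smooth (TT A)}
    {J : Submodule ℚ (K0Q (TT A) (TT A))} (hJ : JS Good (TT A) ≤ J)
    {E : BS A A} {m : Ch i} (hE : E.Coh) (hR : Red E m)
    (ih : ∀ F : BS A A, F.Coh → ann E < ann F →
      (clf A A hF hS hS (bs_noe A A) J).cl F = 0)
    (X : XT k) (hX : SPJ Good (TT X.ca)) (L : Type u) [Field L] [Algebra k L]
    [Algebra L hR.gd.S] [IsScalarTower k L hR.gd.S] [Algebra L X.M] [IsScalarTower k L X.M]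
    [Algebra.IsCentral L hR.gd.S] [Module.Finite L hR.gd.S] [Module.Finite L X.M]
    (hq : ∀ D : E0D (LPre.ofSh L hR.gv.V), tHqP hR.gd X L D) :
    (clf A A hF hS hS (bs_noe A A) J).cl E = 0 := by
  have := hR.gd.simple
  obtain ⟨V, ω, hV, hω⟩ := hX.choose
  have hω' : QIso ω := hω.qiso
  obtain ⟨D⟩ := exists_E0D_of_coh L hR.gv.V (hR.gv.coh hE)
  obtain ⟨l⟩ := X.ne
  obtain ⟨q⟩ := Ptr.ex (mem_LL l)
  have h1 := hR.gd.tn1_coh X L
  have h2 := D.tn2_coh X
  exact main_of hJ hE hR ih h1 h2 finBB2 finBB hX hV hω'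
    (BPB.cmp_qc (Sh.bx_qcl _) (Sh.by_qcr _)) (cmp_coh h1 h2 hV)
    (P := X.rowP (X.KK L hR.gd.S) (X.inM L hR.gd.S) (X.inS L hR.gd.S))
    (hR.gd.tn1i X L) (hR.gd.tn1i_inj X L)
    (fun c' => hR.gd.tlgd X L hR.sg (fun f => (hR.gd_fn f).symm) D q hω'.1 c'
      (hq D hV hω' q c')) (thN_pos L hR.gd.S X.M)
    (thZ L X.M hR.gv.V hR.gd.cone) (thZ_bij L X.M hR.gv.V hR.gd.cone)

end Pool.Agent.MP_6e5bed_ag_GG
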