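import Pool.Agent.Lib.MP_6e5bed_ag_GV.TgP

set_option autoImplicit false
set_option linter.unusedSectionVars false
set_option linter.unusedVariables false

/-!
# MP_6e5bed_ag, THEOREM V: the main step of the noetherian induction
-/

noncomputable section

namespace Pool.Agent.MP_6e5bed_ag_GG

open Pool.Agent.MP_6e5bed_ag_NC Pool.Agent.MP_6e5bed_ag_PN Pool.Agent.MP_6e5bed_ag_PS
open scoped TensorProduct

universe u

variable {k : Type u} [Field k] {i : Type} [Fintype i] {A : CA k i}

/-- THE MAIN STEP at one point, for X-data with arbitrary twists: `L` is the centre of the algebra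
at the point, the function field of `X` is finite over `L`, and the dg algebra of `X` is in the
span of the good ones. -/
theorem main_xt {Good : DGA k → Prop} {hF : FinBB A A} {hS : Smooth (TT A)}
    {J : Submodule ℚ (K0Q (TT A) (TT A))} (hJ : JS Good (TT A) ≤ J)
    {E : BS A A} {m : Ch i} (hE : E.Coh) (hR : Red E m)
    (ih : ∀ F : BS A A, F.Coh → ann E < ann F →
      (clf A A hF hS hS (bs_noe A A) J).cl F = 0)
    (X : XT k) (hGen : X.Gen) (hX : SPJ Good (TT X.ca)) (L : Type u) [Field L] [Algebra k L]
    [Algebra L hR.gd.S] [IsScalarTower k L hR.gd.S] [Algebra L X.M] [IsScalarTower k L X.M]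
    [Algebra.IsCentral L hR.gd.S] [Module.Finite L hR.gd.S] [Module.Finite L X.M] :
    (clf A A hF hS hS (bs_noe A A) J).cl E = 0 :=
  tmain_pt hJ hE hR ih X hX L (fun D => thqp hR.gd X L hGen D)

end Pool.Agent.MP_6e5bed_ag_GG
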