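import Pool.Agent.Lib.MP_6e5bed_ag_GV.TN
import Pool.Agent.Lib.MP_6e5bed_ag_GG.GO

set_option autoImplicit false
set_option linter.unusedSectionVars false
set_option linter.unusedVariables false

/-!
# MP_6e5bed_ag, THEOREM V: the pairing of the bisheaves of rows and columns (text, (8.3))
-/

noncomputable section

namespace Pool.Agent.MP_6e5bed_ag_GG

open Pool.Agent.MP_6e5bed_ag_NC Pool.Agent.MP_6e5bed_ag_NS Pool.Agent.MP_6e5bed_ag_PN
open scoped TensorProduct

universe u

variable {k : Type u} [Field k] {i j : Type} [Fintype i] [Fintype j] {A : CA k i} {A' : CA k j}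

namespace XT

variable (X : XT k) {L : Type u} [Field L] [Algebra k L] {S : Type u} [Ring S] [Algebra k S]
  [Algebra L S] [IsScalarTower k L S] [Algebra L X.M] [IsScalarTower k L X.M] (κ : Cone A S)
  (W : LPre L A')

/-- the bisheaf of all rows -/
def sR (L : Type u) [Field L] [Algebra k L] [Algebra L S] [IsScalarTower k L S] [Algebra L X.M]
    [IsScalarTower k L X.M] : BS A X.ca :=
  Zs κ (X.rowP (X.KK L S) (X.inM L S) (X.inS L S)).sh

/-- the bisheaf of all columns -/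
def sC : BS X.ca A' := Zs X.cn (X.colP W).sh

/-- the target -/
def sQ (S : Type u) [Ring S] [Algebra k S] [Algebra L S] [IsScalarTower k L S] :
    Sh (bsS S A') := ((W.ten X.M).pre S).sh

/-- the target -/
def sZ : BS A A' := Zs κ (X.sQ W S)

/-- the value of a section of the bisheaf of rows -/
def vR {c : Ch i} {a : Ch X.i} (x : (X.sR κ L).E (c, a)) (h : PLift (κ.D c)) :
    X.II → X.KK L S := (x : ZE κ (X.rowP (X.KK L S) (X.inM L S) (X.inS L S)).sh (c, a)) h

/-- the value of a section of the bisheaf of columns -/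
def vC {a : Ch X.i} {c' : Ch j} (x : (X.sC W).E (a, c')) : X.II → X.M ⊗[L] W.E c' :=
  (x : ZE X.cn (X.colP W).sh (a, c')) ⟨trivial⟩

/-- the product of a row and a column -/
def rcV (c' : Ch j) (f : X.II → X.KK L S) (x : X.II → X.M ⊗[L] W.E c') :
    S ⊗[L] (X.M ⊗[L] W.E c') := X.rc f x

theorem rcV_r (c' : Ch j) (b : (A'.A c')ᵐᵒᵖ) (f : X.II → X.KK L S)
    (x : X.II → X.M ⊗[L] W.E c') : X.rcV W c' f (fun e => tr W c' b (x e)) =
      LinearMap.lTensor S ((tr W c' b).restrictScalars L) (X.rcV W c' f x) := by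
  have h1 : ∀ (u : X.M) (x : X.M ⊗[L] W.E c'), (tr W c' b).restrictScalars L (u • x) =
    u • (tr W c' b).restrictScalars L x := fun u x => map_smul (tr W c' b) u x
  exact X.rc_nat (S := S) ((tr W c' b).restrictScalars L) h1 f x

theorem rcV_res {c' d' : Ch j} (h : c' ≤ d') (f : X.II → X.KK L S)
    (x : X.II → X.M ⊗[L] W.E c') : X.rcV W d' f (fun e => tres W h (x e)) =
      LinearMap.lTensor S ((tres W h).restrictScalars L) (X.rcV W c' f x) := by
  have h1 : ∀ (u : X.M) (x : X.M ⊗[L] W.E c'), (tres W h).restrictScalars L (u • x) =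
    u • (tres W h).restrictScalars L x := fun u x => map_smul (tres W h) u x
  exact X.rc_nat (S := S) ((tres W h).restrictScalars L) h1 f x

/-- the product of a row and a column -/
def rcZ (c : Ch i) (a : Ch X.i) (c' : Ch j) :
    (X.sR κ L).E (c, a) →ₗ[k] (X.sC W).E (a, c') →ₗ[k] (X.sZ κ W).E (c, c') :=
  LinearMap.mk₂ k (fun x y => (fun h => X.rcV W c' (X.vR κ x h) (X.vC W y) :
      ZE κ (X.sQ W S) (c, c')))
    (fun x x' y => funext fun h => LinearMap.map_add₂ X.rc (X.vR κ x h) (X.vR κ x' h) _)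
    (fun r x y => funext fun h => LinearMap.map_smul₂ X.rc r (X.vR κ x h) _)
    (fun x y y' => funext fun h => map_add (X.rc (X.vR κ x h)) (X.vC W y) (X.vC W y'))
    (fun r x y => funext fun h => map_smul (X.rc (X.vR κ x h)) r (X.vC W y))

theorem rcZ_apply {c : Ch i} {a : Ch X.i} {c' : Ch j} (x : (X.sR κ L).E (c, a))
    (y : (X.sC W).E (a, c')) (h : PLift (κ.D c)) :
    (X.rcZ κ W c a c' x y : ZE κ (X.sQ W S) (c, c')) h = X.rcV W c' (X.vR κ x h) (X.vC W y) := rfl

theorem vR_l {c : Ch i} {a : Ch X.i} (d : A.A c) (x : (X.sR κ L).E (c, a))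
    (h : PLift (κ.D c)) : X.vR κ (((X.sR κ L).kb (c, a)).l d x) h =
      fun e => X.inS L S (κ.psi c h.down d) * X.vR κ x h e := Zs_l d x h

theorem vR_r {c : Ch i} {a : Ch X.i} (w : X.AXs a.1) (x : (X.sR κ L).E (c, a))
    (h : PLift (κ.D c)) : X.vR κ (((X.sR κ L).kb (c, a)).r w x) h =
      X.rowr (X.KK L S) (X.inM L S) (w : Matrix X.II X.II X.M) (X.vR κ x h) :=
  Zs_r (MulOpposite.op (show X.ca.A a from w)) x h

theorem vC_l {a : Ch X.i} {c' : Ch j} (w : X.AXs a.1) (y : (X.sC W).E (a, c')) :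
    X.vC W (((X.sC W).kb (a, c')).l w y) =
      X.colA _ (w : Matrix X.II X.II X.M) (X.vC W y) :=
  Zs_l (κ := X.cn) (show X.ca.A a from w) y ⟨trivial⟩

theorem vC_r {a : Ch X.i} {c' : Ch j} (b : A'.A c') (y : (X.sC W).E (a, c')) :
    X.vC W (((X.sC W).kb (a, c')).r b y) =
      fun e => tr W c' (MulOpposite.op b) (X.vC W y e) :=
  Zs_r (κ := X.cn) (MulOpposite.op b) y ⟨trivial⟩

/-- THE PAIRING of rows and columns at the chart `a`. -/
def rcP (a : Ch X.i) : Pr3 (X.sR κ L) (X.sC W) (X.sZ κ W) a where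
  β := fun c c' => X.rcZ κ W c a c'
  mid := fun c c' u w v => by
    refine ZE_ext κ (X.sQ W S) fun hd => ?_
    refine (congrArg (fun z => X.rcV W c' z (X.vC W v)) (X.vR_r κ w u ⟨hd⟩)).trans ?_
    refine Eq.trans ?_ (congrArg (fun z => X.rcV W c' (X.vR κ u ⟨hd⟩) z) (X.vC_l W w v)).symm
    exact X.rc_bal _ _ _
  left := fun c c' d u v => by
    refine ZE_ext κ (X.sQ W S) fun hd => ?_
    refine (congrArg (fun z => X.rcV W c' z (X.vC W v)) (X.vR_l κ d u ⟨hd⟩)).trans ?_
    refine (X.rc_l _ _ _).trans ?_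
    exact (Zs_l (P := (W.ten X.M).pre S) d (X.rcZ κ W c a c' u v) ⟨hd⟩).symm
  right := fun c c' d u v => by
    refine ZE_ext κ (X.sQ W S) fun hd => ?_
    refine (congrArg (fun z => X.rcV W c' (X.vR κ u ⟨hd⟩) z) (X.vC_r W d v)).trans ?_
    refine (X.rcV_r W c' (MulOpposite.op d) _ _).trans ?_
    exact (Zs_r (P := (W.ten X.M).pre S) (MulOpposite.op d) (X.rcZ κ W c a c' u v) ⟨hd⟩).symm
  nat := fun {c d c' d'} h h' u v => by
    refine ZE_ext κ (X.sQ W S) fun hd => ?_
    exact (X.rcV_res W h' (X.vR κ u ⟨κ.dn h hd⟩) (X.vC W v)).symm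

end XT

end Pool.Agent.MP_6e5bed_ag_GG
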