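import Pool.Agent.Lib.MP_6e5bed_ag_GG.LSf
import Pool.Agent.Lib.MP_6e5bed_ag_GV.TKz
import Pool.Agent.Lib.MP_6e5bed_ag_GG.LOn

set_option autoImplicit false
set_option linter.unusedVariables false
set_option linter.unusedSectionVars false

/-!
# MP_6e5bed_ag, THEOREM V, LOC: the twists in `{0, 1}^D`, all twists, multiples of the twists
-/

noncomputable section

namespace Pool.Agent.MP_6e5bed_ag_GG

open Pool.Agent.MP_6e5bed_ag_NC Pool.Agent.MP_6e5bed_ag_PN
open Pool.Agent.MP_6e5bed_ag_NS (Cx CHom CPr co CEx concH conc_map)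
open scoped TensorProduct

universe u

variable {k : Type u} [Field k] {X : XT k} {U : Type u} [AddCommGroup U] [Module k U]
  [Module X.M U] [IsScalarTower k X.M U] {E0 : Submodule k U}
  {Zt : Bim (TT X.ca) (base k)}
  {ζ : GMap 0 Zt (cBR (tcolF X U E0) (LL X.i) (FS.e X.i))} {hζ : ζ.dd = 0}

section one

variable (X) in
/-- the row `e0` of a matrix -/
private def rw0 (e0 : X.II) (a : Set X.i) :
    X.AXs a →ₗ[k] tcolS X (fun e => X.O (X.tw e0 - X.tw e) a) where
  toFun := fun g => ⟨(g : Matrix X.II X.II X.M) e0, fun e => g.2 e0 e⟩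
  map_add' := fun _ _ => rfl
  map_smul' := fun _ _ => rfl

variable (X) in
/-- the matrix with one row -/
private def mt0 (e0 : X.II) (a : Set X.i) :
    tcolS X (fun e => X.O (X.tw e0 - X.tw e) a) →ₗ[k] X.AXs a where
  toFun := fun f => ⟨Matrix.of (fun e' e => if e' = e0 then f.1 e else 0), fun e' e => by
    change (if e' = e0 then f.1 e else 0) ∈ X.O (X.tw e' - X.tw e) a
    split_ifs with h
    · rw [h]
      exact f.2 e
    · exact zero_mem _⟩
  map_add' := fun f g => Subtype.ext (Matrix.ext fun e' e => by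
    change (if e' = e0 then f.1 e + g.1 e else 0) =
      (if e' = e0 then f.1 e else 0) + (if e' = e0 then g.1 e else 0)
    split_ifs with h
    · rfl
    · rw [add_zero])
  map_smul' := fun c f => Subtype.ext (Matrix.ext fun e' e => by
    change (if e' = e0 then c • f.1 e else 0) = c • (if e' = e0 then f.1 e else 0)
    split_ifs with h
    · rfl
    · rw [smul_zero])

private theorem rw0_mt0 (e0 : X.II) (a : Set X.i)
    (f : tcolS X (fun e => X.O (X.tw e0 - X.tw e) a)) : rw0 X e0 a (mt0 X e0 a f) = f :=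
  Subtype.ext (funext fun e => if_pos rfl)

variable (X U E0) in
/-- the entry `e0` of a column -/
private def ev0 (e0 : X.II) (a : Set X.i) :
    tcolS X (fun e => X.Fs U E0 (X.tw e) a) →ₗ[k] X.Fs U E0 (X.tw e0) a where
  toFun := fun v => ⟨v.1 e0, v.2 e0⟩
  map_add' := fun _ _ => rfl
  map_smul' := fun _ _ => rfl

variable (X U E0) in
/-- the column with one entry -/
private def cl0 (e0 : X.II) (a : Set X.i) :
    X.Fs U E0 (X.tw e0) a →ₗ[k] tcolS X (fun e => X.Fs U E0 (X.tw e) a) where
  toFun := fun z => ⟨fun e' => if e' = e0 then z.1 else 0, fun e' => by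
    change (if e' = e0 then z.1 else 0) ∈ X.Fs U E0 (X.tw e') a
    split_ifs with h
    · rw [h]
      exact z.2
    · exact zero_mem _⟩
  map_add' := fun f g => Subtype.ext (funext fun e' => by
    change (if e' = e0 then f.1 + g.1 else 0) =
      (if e' = e0 then f.1 else 0) + (if e' = e0 then g.1 else 0)
    split_ifs with h
    · rfl
    · rw [add_zero])
  map_smul' := fun c f => Subtype.ext (funext fun e' => by
    change (if e' = e0 then c • f.1 else 0) = c • (if e' = e0 then f.1 else 0)
    split_ifs with h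
    · rfl
    · rw [smul_zero])

private theorem ev0_cl0 (e0 : X.II) (a : Set X.i) (z : X.Fs U E0 (X.tw e0) a) :
    ev0 X U E0 e0 a (cl0 X U E0 e0 a z) = z :=
  Subtype.ext (if_pos rfl)

/-- The map `matrix ↦ row`. -/
private def rwP (U : Type u) [AddCommGroup U] [Module k U] [Module X.M U] [IsScalarTower k X.M U]
    (E0 : Submodule k U) (e0 : X.II) : PBH (selfR X.ca.pa) (ttwO X U E0 (X.tw e0)).row where
  f := fun c =>
    { f := rw0 X e0 c.1
      deg := fun {i x} hx => by
        rw [add_zero]
        exact conc_map (rw0 X e0 c.1) hx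
      map_l := fun b x => by
        rw [Dg.sp_zero]
        refine (congrArg (rw0 X e0 c.1) (base_l ((selfR X.ca.pa).M c) b x)).trans ?_
        refine Eq.trans ?_ (base_l ((ttwO X U E0 (X.tw e0)).row.M c) b (rw0 X e0 c.1 x)).symm
        exact (rw0 X e0 c.1).map_smul (show k from b) x
      map_r := fun (a : X.AXs c.1) (x : X.AXs c.1) => Subtype.ext (funext fun e => by
        change ((x : Matrix X.II X.II X.M) * (a : Matrix X.II X.II X.M)) e0 e =
          rowA (k := k) X.M (a : Matrix X.II X.II X.M) ((x : Matrix X.II X.II X.M) e0) e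
        rw [Matrix.mul_apply, rowA_apply]
        exact Finset.sum_congr rfl fun e' _ => mul_comm _ _) }
  dd := fun c => LinearMap.ext fun x => by
    rw [GMap.dd_apply, sg_zero, one_smul, LinearMap.zero_apply, sub_eq_zero]
    exact (map_zero (rw0 X e0 c.1)).symm
  nat := fun _ _ => rfl

/-- The map `row ↦ matrix`. -/
private def mtP (U : Type u) [AddCommGroup U] [Module k U] [Module X.M U] [IsScalarTower k X.M U]
    (E0 : Submodule k U) (e0 : X.II) : PBH (ttwO X U E0 (X.tw e0)).row (selfR X.ca.pa) where
  f := fun c =>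
    { f := mt0 X e0 c.1
      deg := fun {i x} hx => by
        rw [add_zero]
        exact conc_map (mt0 X e0 c.1) hx
      map_l := fun b x => by
        rw [Dg.sp_zero]
        refine (congrArg (mt0 X e0 c.1) (base_l ((ttwO X U E0 (X.tw e0)).row.M c) b x)).trans ?_
        refine Eq.trans ?_ (base_l ((selfR X.ca.pa).M c) b (mt0 X e0 c.1 x)).symm
        exact (mt0 X e0 c.1).map_smul (show k from b) x
      map_r := fun (a : X.AXs c.1) (x : tcolS X (fun e => X.O (X.tw e0 - X.tw e) c.1)) =>
        Subtype.ext (Matrix.ext fun e' e => by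
        change (if e' = e0 then rowA (k := k) X.M (a : Matrix X.II X.II X.M) x.1 e else 0) =
          (Matrix.of (fun e' e => if e' = e0 then x.1 e else 0) *
            (a : Matrix X.II X.II X.M)) e' e
        rw [Matrix.mul_apply, rowA_apply]
        simp only [Matrix.of_apply]
        split_ifs with h
        · exact Finset.sum_congr rfl fun e' _ => mul_comm _ _
        · exact (Finset.sum_eq_zero fun e' _ => zero_mul _).symm) }
  dd := fun c => LinearMap.ext fun x => by
    rw [GMap.dd_apply, sg_zero, one_smul, LinearMap.zero_apply, sub_eq_zero]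
    exact (map_zero (mt0 X e0 c.1)).symm
  nat := fun _ _ => rfl

/-- the map from the algebra to the rows -/
private def roI (U : Type u) [AddCommGroup U] [Module k U] [Module X.M U] [IsScalarTower k X.M U]
    (E0 : Submodule k U) (e0 : X.II) :
    ROH (selfO (tcolF X U E0)) (ttwO X U E0 (X.tw e0)).ro where
  f := rwP U E0 e0
  g :=
    { f := fun c => concH (ev0 X U E0 e0 c.1)
      nat := fun _ _ => rfl }
  nat := fun c x y => Subtype.ext rfl

/-- the map from the rows to the algebra -/
private def roP (U : Type u) [AddCommGroup U] [Module k U] [Module X.M U] [IsScalarTower k X.M U]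
    (E0 : Submodule k U) (e0 : X.II) :
    ROH (ttwO X U E0 (X.tw e0)).ro (selfO (tcolF X U E0)) where
  f := mtP U E0 e0
  g :=
    { f := fun c => concH (cl0 X U E0 e0 c.1)
      nat := fun _ _ => rfl }
  nat := fun c (x : tcolS X (fun e => X.O (X.tw e0 - X.tw e) c.1))
      (y : tcolS X (fun e => X.Fs U E0 (X.tw e) c.1)) => Subtype.ext (funext fun e' => by
    change (if e' = e0 then ∑ e, x.1 e • y.1 e else 0) =
      ∑ e, (if e' = e0 then x.1 e else 0) • y.1 e
    split_ifs with h
    · rfl
    · exact (Finset.sum_eq_zero fun e _ => zero_smul _ _).symm)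

end one

/-- The twists of the algebra: they are retracts of the algebra. -/
theorem ttw_one_good (hq : QIso ζ) (e0 : X.II) : (ttwO X U E0 (X.tw e0)).G ζ hζ :=
  RO.good_retract (ttwO X U E0 (X.tw e0)).ro (selfO (tcolF X U E0)) (roI U E0 e0) (roP U E0 e0)
    (fun c x => rw0_mt0 e0 c.1 x) (fun c z => ev0_cl0 (U := U) (E0 := E0) e0 c.1 z)
    (selfO_good (tcolF X U E0) ζ hζ hq)

variable (X) in
/-- The twists `O(b)` are generated by the twists of the algebra. -/
def XT.Gen : Prop := ∀ (U : Type u) [AddCommGroup U] [Module k U] [Module X.M U]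
  [IsScalarTower k X.M U] (E0 : Submodule k U) {Zt : Bim (TT X.ca) (base k)}
  {ζ : GMap 0 Zt (cBR (tcolF X U E0) (LL X.i) (FS.e X.i))} {hζ : ζ.dd = 0},
  LFlat Zt → QIso ζ → ∀ b : X.G, (ttwO X U E0 b).G ζ hζ

end Pool.Agent.MP_6e5bed_ag_GG
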