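import Pool.Agent.Lib.MP_6e5bed_ag_GV.TN
import Pool.Agent.Lib.MP_6e5bed_ag_GG.GP

set_option autoImplicit false
set_option linter.unusedSectionVars false
set_option linter.unusedVariables false

/-!
# MP_6e5bed_ag, THEOREM V: the localisation of the bisheaf of rows (text, (8.4))
-/

noncomputable section

namespace Pool.Agent.MP_6e5bed_ag_GG

open scoped TensorProduct

universe u

attribute [local instance] XT.kbG XT.kbk XT.kbM XT.kbT

variable {k : Type u} [Field k] {i j : Type} [Fintype i] [Fintype j]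

namespace XT

variable (X : XT k)

variable (L : Type u) [Field L] [Algebra k L] [Algebra L X.M] [IsScalarTower k L X.M]
  [Module.Finite L X.M]

/-- the sections of `O(b)` on a chart generate the function field over `L` -/
theorem span_O {a : Set X.i} (ha : a.Nonempty) (b : X.G) (u : X.M) :
    u ∈ Submodule.span L (X.O b a : Set X.M) := by
  have hcl : (Submonoid.closure (X.O 0 a : Set X.M) : Set X.M) = (X.O 0 a : Set X.M) := by
    let P : Submonoid X.M :=
      { carrier := (X.O 0 a : Set X.M)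
        mul_mem' := fun {u v} hu hv => X.mul_mem0 hu hv
        one_mem' := X.one_mem a }
    exact congrArg (fun Q : Submonoid X.M => (Q : Set X.M)) (Submonoid.closure_eq P)
  have h0 : ∀ u : X.M, u ∈ Submodule.span L (X.O 0 a : Set X.M) := by
    intro u
    have hadj : ∀ v : X.M, v ∈ Submodule.span L (X.O 0 a : Set X.M) ↔
        v ∈ Algebra.adjoin L (X.O 0 a : Set X.M) := by
      intro v
      rw [← Subalgebra.mem_toSubmodule, Algebra.adjoin_eq_span, hcl]
    rw [hadj]
    obtain ⟨b', σ, σ', h1, h2, h3, rfl⟩ := X.frac u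
    obtain ⟨τ, h4, h5⟩ := X.gen ha b'
    have h6 := (h5 σ).1 (X.mono _ (Set.empty_subset a) h1)
    have h7 := (h5 σ').1 (X.mono _ (Set.empty_subset a) h2)
    have h8 : σ' / σ = (τ⁻¹ * σ') * (τ⁻¹ * σ)⁻¹ := by
      field_simp
    rw [h8]
    refine Subalgebra.mul_mem _ (Algebra.subset_adjoin h7) ?_
    exact Subalgebra.inv_mem_of_algebraic (A := Algebra.adjoin L (X.O 0 a : Set X.M))
      (x := ⟨τ⁻¹ * σ, Algebra.subset_adjoin h6⟩) (Algebra.IsAlgebraic.isAlgebraic _)
  obtain ⟨τ, h4, h5⟩ := X.gen ha b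
  have h6 := h0 (τ⁻¹ * u)
  have h7 : ∀ v ∈ Submodule.span L (X.O 0 a : Set X.M),
      τ * v ∈ Submodule.span L (X.O b a : Set X.M) := by
    intro v hv
    induction hv using Submodule.span_induction with
    | mem z hz =>
      refine Submodule.subset_span ((h5 _).2 ?_)
      rwa [inv_mul_cancel_left₀ h4]
    | zero =>
      rw [mul_zero]
      exact zero_mem _
    | add y z _ _ hy hz =>
      rw [mul_add]
      exact add_mem hy hz
    | smul c y _ hy =>
      rw [mul_smul_comm]
      exact Submodule.smul_mem _ _ hy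
  have h8 := h7 _ h6
  rwa [mul_inv_cancel_left₀ h4] at h8

end XT

/-! ### Localisation of the rows -/

section tloc

variable {A : CA k i} {m : Ch i} (g : GD A m) (X : XT k) {L : Type u} [Field L] [Algebra k L]
  [Algebra L g.S] [IsScalarTower k L g.S] [Algebra L X.M] [IsScalarTower k L X.M]
  [Module.Finite L X.M]

/-- the lattice of the entries -/
abbrev GD.tlat (X : XT k) (L : Type u) [Field L] [Algebra k L] [Algebra L g.S]
    [IsScalarTower k L g.S] [Algebra L X.M] [IsScalarTower k L X.M] (b : X.G)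
    (a : Set X.i) : Submodule k (X.KB (X.inM L g.S)) :=
  X.Gs (XT.N1i g.cone (X.inM L g.S) (X.inS L g.S) m (le_refl m)) b a

theorem GD.tlat_mul {b : X.G} {a : Set X.i} (f : RR k m.1) {x : X.KK L g.S}
    (hx : XT.kb (X.inM L g.S) x ∈ g.tlat X L b a) :
    XT.kb (X.inM L g.S) (X.inS L g.S (g.fn f) * x) ∈ g.tlat X L b a := by
  have h1 := XT.N1_l (κ := g.cone) (α := X.inS L g.S) X.inM_comm (le_refl m)
    (algebraMap (RR k m.1) (A.A m) f) hx
  rw [g.cone_psi] at h1
  exact h1

/-- every element of `S ⊗_L M` is in the lattice after multiplication with a function -/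
theorem GD.tlat_surj {a : Set X.i} (ha : a.Nonempty) (b : X.G) (x : X.KK L g.S) :
    ∃ f : RR k m.1, g.fn f ≠ 0 ∧
      XT.kb (X.inM L g.S) (X.inS L g.S (g.fn f) * x) ∈ g.tlat X L b a := by
  have hadd : ∀ x y : X.KK L g.S,
      (∃ f : RR k m.1, g.fn f ≠ 0 ∧
        XT.kb (X.inM L g.S) (X.inS L g.S (g.fn f) * x) ∈ g.tlat X L b a) →
      (∃ f : RR k m.1, g.fn f ≠ 0 ∧
        XT.kb (X.inM L g.S) (X.inS L g.S (g.fn f) * y) ∈ g.tlat X L b a) →
      (∃ f : RR k m.1, g.fn f ≠ 0 ∧
        XT.kb (X.inM L g.S) (X.inS L g.S (g.fn f) * (x + y)) ∈ g.tlat X L b a) := by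
    rintro x y ⟨f, hf, hx⟩ ⟨f', hf', hy⟩
    refine ⟨f * f', g.fn_mul_ne hf hf', ?_⟩
    rw [mul_add, map_add]
    refine add_mem ?_ ?_
    · have h1 := g.tlat_mul X f' hx
      rw [← mul_assoc, ← map_mul, ← g.fn_mul, mul_comm f' f] at h1
      exact h1
    · have h1 := g.tlat_mul X f hy
      rw [← mul_assoc, ← map_mul, ← g.fn_mul] at h1
      exact h1
  have h0 : ∃ f : RR k m.1, g.fn f ≠ 0 ∧
      XT.kb (X.inM L g.S) (X.inS L g.S (g.fn f) * 0) ∈ g.tlat X L b a := by
    refine ⟨1, ?_, ?_⟩
    · rw [g.fn_one]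
      exact g.ne
    · rw [mul_zero, map_zero]
      exact zero_mem _
  induction x using TensorProduct.induction_on with
  | zero => exact h0
  | add x y hx hy => exact hadd x y hx hy
  | tmul s u =>
    have hu := X.span_O L ha b u
    revert s
    induction hu using Submodule.span_induction with
    | mem u hu =>
      intro s
      obtain ⟨f, hf, y, hy⟩ := g.surj s
      refine ⟨f, hf, ?_⟩
      have h1 : X.inS L g.S (g.fn f) * (s ⊗ₜ[L] u) =
          X.inM L g.S u * X.inS L g.S (g.cone.psi m (le_refl m) y) := by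
        rw [g.cone_psi, hy, X.inS_apply, X.inS_apply, X.inM_apply,
          Algebra.TensorProduct.tmul_mul_tmul, Algebra.TensorProduct.tmul_mul_tmul, one_mul,
          one_mul, mul_one]
        rfl
      rw [h1, ← XT.smul_kb]
      exact XT.Gs_mem hu (XT.N1i_mem.2 ⟨y, rfl⟩)
    | zero =>
      intro s
      rw [TensorProduct.tmul_zero]
      exact h0
    | add u v _ _ hu hv =>
      intro s
      rw [TensorProduct.tmul_add]
      exact hadd _ _ (hu s) (hv s)
    | smul c u _ hu =>
      intro s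
      rw [TensorProduct.tmul_smul, TensorProduct.smul_tmul']
      exact hu (c • s)

/-- every row is in the lattice after multiplication with a function -/
theorem GD.trow_surj {a : Set X.i} (ha : a.Nonempty) (x : X.II → X.KK L g.S) :
    ∃ f : RR k m.1, g.fn f ≠ 0 ∧ (fun e => X.inS L g.S (g.fn f) * x e) ∈
      XT.N1N g.cone (X.inM L g.S) (X.inS L g.S) m a (le_refl m) := by
  classical
  choose f hf hx using fun e => g.tlat_surj X (L := L) ha (-X.tw e) (x e)
  refine ⟨∏ e, f e, ?_, fun e => ?_⟩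
  · refine Finset.prod_induction f (fun f => g.fn f ≠ 0) (fun f f' => g.fn_mul_ne) ?_
      (fun e _ => hf e)
    rw [g.fn_one]
    exact g.ne
  · have h1 := g.tlat_mul X (∏ e' ∈ Finset.univ.erase e, f e') (hx e)
    rw [← mul_assoc, ← map_mul, ← g.fn_mul,
      Finset.prod_erase_mul _ _ (Finset.mem_univ e)] at h1
    exact h1

end tloc

end Pool.Agent.MP_6e5bed_ag_GG
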