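import Pool.Agent.Lib.MP_6e5bed_ag_GV.TP
import Pool.Agent.Lib.MP_6e5bed_ag_GV.TO
import Pool.Agent.Lib.MP_6e5bed_ag_GG.GQ

set_option autoImplicit false
set_option linter.unusedSectionVars false
set_option linter.unusedVariables false

/-!
# MP_6e5bed_ag, THEOREM V: the localisation data (text, (8.4), (8.5))
-/

noncomputable section

namespace Pool.Agent.MP_6e5bed_ag_GG

open Pool.Agent.MP_6e5bed_ag_NC Pool.Agent.MP_6e5bed_ag_NS Pool.Agent.MP_6e5bed_ag_PN
open scoped TensorProduct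

universe u

variable {k : Type u} [Field k] {i j : Type} [Fintype i] [Fintype j] {A : CA k i} {A' : CA k j}
  {m : Ch i} (g : GD A m) (X : XT k) (L : Type u) [Field L] [Algebra k L]
  [Algebra L g.S] [IsScalarTower k L g.S] [Algebra L X.M] [IsScalarTower k L X.M]

/-- the bisheaf of the rows with entries in the lattices -/
def GD.tn1 : BS A X.ca := (XT.N1 g.cone (X.inM L g.S) (X.inS L g.S) X.inM_comm).sub.sh

/-- all rows -/
def GD.tnR : BS A X.ca := X.sR g.cone L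

/-- the inclusion -/
def GD.tn1i : ShH (g.tn1 X L) (g.tnR X L) :=
  (XT.N1 g.cone (X.inM L g.S) (X.inS L g.S) X.inM_comm).sub.incl

theorem GD.tn1_coh : (g.tn1 X L).Coh := XT.N1_coh X.inM_comm

theorem GD.tn1i_inj : (g.tn1i X L).Inj := fun p x y h => Subtype.ext h

/-- the map of the Čech complexes -/
def GD.tn1x : GMap 0 ((g.tn1 X L).bx.M m) ((g.tnR X L).bx.M m) :=
  ((g.tn1i X L).bp.two.push2 (LL X.i) (FS.e X.i)).f m

theorem GD.tn1x_dd : (g.tn1x X L).dd = 0 :=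
  ((g.tn1i X L).bp.two.push2 (LL X.i) (FS.e X.i)).dd m

theorem GD.tn1x_ev {l : X.i} (q : Ptr (LL X.i) l) (x : ((g.tn1 X L).bx.M m).M) :
    ((g.tnR X L).evx q m).f ((g.tn1x X L).f x) =
      (g.tn1i X L).f (m, (FS.e X.i).ins l) (((g.tn1 X L).evx q m).f x) :=
  ev_nat ((g.tn1i X L).bp.two.snd m).pch q (FS.e X.i) x

variable [Module.Finite L X.M] (Sg : Submonoid (RR k m.1)) (hSg : ∀ f, f ∈ Sg ↔ g.fn f ≠ 0)

include hSg in
/-- localisation on the charts -/
theorem GD.tn1_locS (a : Ch X.i) : LocS (S := Sg) (V := (g.tn1 X L).E (m, a))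
    (V' := (g.tnR X L).E (m, a)) (((g.tn1i X L).f (m, a)).restrictScalars k)
    (fun s => ((g.tn1 X L).kb (m, a)).l (algebraMap (RR k m.1) (A.A m) s))
    (fun s => ((g.tnR X L).kb (m, a)).l (algebraMap (RR k m.1) (A.A m) s)) where
  mul := fun s t x => by
    rw [Submonoid.coe_mul, map_mul]
    exact ((g.tn1 X L).kb (m, a)).l_mul _ _ x
  mul' := fun s t x => by
    rw [Submonoid.coe_mul, map_mul]
    exact ((g.tnR X L).kb (m, a)).l_mul _ _ x
  nat := fun s x => (g.tn1i X L).kb_l (m, a) _ x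
  surj := fun y => by
    obtain ⟨f, hf, h⟩ := g.trow_surj X (L := L) a.2.1 (X.vR g.cone y ⟨le_refl m⟩)
    refine ⟨⟨f, (hSg f).2 hf⟩, ⟨((g.tnR X L).kb (m, a)).l (algebraMap (RR k m.1) (A.A m) f) y,
      fun hd => ?_⟩, rfl⟩
    have h1 := X.vR_l g.cone (algebraMap (RR k m.1) (A.A m) f) y hd
    rw [g.cone_psi] at h1
    exact (congrArg (fun z => z ∈ XT.N1N g.cone (X.inM L g.S) (X.inS L g.S) m a.1
      (le_refl m)) h1).mpr h
  inj := fun x hx => ⟨1, by
    have h1 : x = 0 := Subtype.ext hx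
    rw [h1, map_zero]⟩

include hSg in
/-- localisation of the Čech complexes -/
theorem GD.tn1x_locS : LocS (S := Sg) (V := ((g.tn1 X L).bx.M m).M) (g.tn1x X L).f
    (fun s => ((g.tn1 X L).bx.M m).l (algebraMap (RR k m.1) (A.A m) s))
    (fun s => ((g.tnR X L).bx.M m).l (algebraMap (RR k m.1) (A.A m) s)) :=
  cBL_locS (S := Sg) (f := ((g.tn1i X L).bp.two.snd m).pch)
    (b := fun s : Sg => algebraMap (RR k m.1) (A.A m) s)
    (b' := fun s : Sg => algebraMap (RR k m.1) (A.A m) s)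
    (fun a => g.tn1_locS X L Sg hSg a) (LL X.i) (FS.e X.i)

variable {W : LPre L A'} (D : E0D W)

/-- the bisheaf of the columns with entries in the lattices -/
def E0D.tn2 : BS X.ca A' := (XT.N2 (X := X) D).sub.sh

/-- the inclusion -/
def E0D.tn2i : ShH (D.tn2 X) (X.sC W) := (XT.N2 (X := X) D).sub.incl

theorem E0D.tn2_coh : (D.tn2 X).Coh := XT.N2_coh (X := X) D

/-- the pairing of all rows and the columns with entries in the lattices -/
def GD.tpR (a : Ch X.i) : Pr3 (g.tnR X L) (D.tn2 X) (X.sZ g.cone W) a :=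
  (X.rcP g.cone W a).pull (ShH.id _) (D.tn2i X)

/-- the pairing of the rows and the columns with entries in the lattices -/
def GD.tp1 (a : Ch X.i) : Pr3 (g.tn1 X L) (D.tn2 X) (X.sZ g.cone W) a :=
  (X.rcP g.cone W a).pull (g.tn1i X L) (D.tn2i X)

/-- the map with target the restriction of scalars along the identity -/
def GD.tn1r : GMap (A := MP_6e5bed_ag_NC.ring k (A.A m)) 0 ((g.tn1 X L).bx.M m)
    (res (ringH (AlgHom.id k (A.A m))) (DHom.id (TT X.ca)) ((g.tnR X L).bx.M m)) :=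
  ⟨(g.tn1x X L).f, (g.tn1x X L).deg, (g.tn1x X L).map_l, (g.tn1x X L).map_r⟩

include hSg in
/-- THE LOCALISATION DATA. -/
def GD.tlgd {l : X.i} (q : Ptr (LL X.i) l) {V : Bim (TT X.ca) (TT X.ca)}
    {ω : GMap 0 V (diag (TT X.ca))} (hω : ω.dd = 0) (c' : Ch j)
    (hq : QIso ((((g.tpR X L D ((FS.e X.i).ins l)).bpr q).b (m, c')).psi ω)) :
    LGD (((g.tp1 X L D ((FS.e X.i).ins l)).bpr q).Psi hω) m c' Sg :=
  Pool.Agent.MP_6e5bed_ag_GG.lgd ((g.tp1 X L D ((FS.e X.i).ins l)).bpr q) hω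
    (AlgHom.id k (A.A m)) ((g.tnR X L).bx.M m) (g.tn1r X L) (g.tn1x_dd X L)
    (g.tn1x_locS X L Sg hSg) ((X.sZ g.cone W).kb (m, c'))
    (((g.tpR X L D ((FS.e X.i).ins l)).bpr q).b (m, c')) LinearMap.id Function.bijective_id
    (fun x y => congrArg (fun z => X.rcZ g.cone W m ((FS.e X.i).ins l) c' z
      ((D.tn2i X).f ((FS.e X.i).ins l, c') (((D.tn2 X).evy q c').f y))) (g.tn1x_ev X L q x).symm)
    (fun s z => rfl) hq

end Pool.Agent.MP_6e5bed_ag_GG
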