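import Pool.Agent.Lib.MP_6e5bed_ag_GG.Xd

set_option autoImplicit false
set_option linter.unusedVariables false

/-!
# MP_6e5bed_ag, THEOREM V: X-data with arbitrary twists

As `XD` (GG/Xd.lean), the twists being the elements of an abelian group `G`. `II` is a finite set of
twists, the coherent algebra is the sheaf of endomorphisms of the sum of the `O(tw e)`.
-/

noncomputable section

namespace Pool.Agent.MP_6e5bed_ag_GG

universe u

/-- X-data with arbitrary twists. -/
structure XT (k : Type u) [Field k] where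
  /-- the coordinates -/
  i : Type
  [fi : Fintype i]
  [di : DecidableEq i]
  /-- the group of the twists -/
  G : Type
  [gG : AddCommGroup G]
  /-- the index set of the twists in the algebra -/
  II : Type
  [fI : Fintype II]
  [dI : DecidableEq II]
  /-- the twists in the algebra -/
  tw : II → G
  /-- the function field -/
  M : Type u
  [fld : Field M]
  [alg : Algebra k M]
  /-- the coordinates as elements of `M` (up to a common factor) -/
  y : i → Mˣ
  /-- the sections of `O(b)` on the chart `a` (on all of `X` if `a` is empty) -/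
  O : G → Set i → Submodule k M
  ne : Nonempty i
  mono : ∀ (b : G) {a a' : Set i}, a ⊆ a' → O b a ≤ O b a'
  one_mem : ∀ a : Set i, (1 : M) ∈ O 0 a
  mul_mem : ∀ {a : Set i} {b b' : G} {u v : M}, u ∈ O b a → v ∈ O b' a → u * v ∈ O (b + b') a
  one_tw : ∀ e : II, (1 : M) ∈ O (tw e) ∅
  /-- on a chart `O(b)` has a generator -/
  gen : ∀ {a : Set i}, a.Nonempty → ∀ b : G,
    ∃ τ : M, τ ≠ 0 ∧ ∀ u, u ∈ O b a ↔ τ⁻¹ * u ∈ O 0 a
  /-- every element of `M` is a quotient of two sections -/
  frac : ∀ u : M, ∃ (b : G) (σ σ' : M), σ ∈ O b ∅ ∧ σ' ∈ O b ∅ ∧ σ ≠ 0 ∧ u = σ' / σ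
  R_mem : ∀ (a : Set i) (r : Lau k i), r ∈ RR k a → evy y r ∈ O 0 a
  loc : ∀ {a d : Set i} {j l : i}, a ⊆ d → d ⊆ insert j a → l ∈ a → ∀ (b : G) (u : M),
    u ∈ O b d → ∃ n : ℕ, ((y j / y l : Mˣ) : M) ^ n * u ∈ O b a
  /-- finitely generated over `R_a` -/
  fg : ∀ (b : G) {a : Set i}, a.Nonempty → ∃ S : Finset M, (∀ w ∈ S, w ∈ O b a) ∧
    ∀ u ∈ O b a, u ∈ Submodule.span k {z : M | ∃ r ∈ RR k a, ∃ w ∈ S, z = evy y r * w}

attribute [instance] XT.fi XT.di XT.gG XT.fI XT.dI XT.fld XT.alg XT.ne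

end Pool.Agent.MP_6e5bed_ag_GG
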