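import Pool.Agent.Lib.MP_6e5bed_ag_GV.TXb

set_option autoImplicit false
set_option linter.unusedVariables false

/-!
# MP_6e5bed_ag, THEOREM V: the coherent algebra of an X-datum (section 8)
-/

noncomputable section

namespace Pool.Agent.MP_6e5bed_ag_GG

universe u

namespace XT

variable {k : Type u} [Field k] (X : XT k)

/-- localisation of a finite family of sections -/
theorem loc_fam {J : Type} [Fintype J] {a d : Set X.i} {j l : X.i} (h : a ⊆ d)
    (hd : d ⊆ insert j a) (hl : l ∈ a) (b : J → X.G) (u : J → X.M)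
    (hu : ∀ q, u q ∈ X.O (b q) d) :
    ∃ n : ℕ, ∀ q, ((X.y j / X.y l : X.Mˣ) : X.M) ^ n * u q ∈ X.O (b q) a := by
  have h1 : ∀ q, ∃ n : ℕ, ((X.y j / X.y l : X.Mˣ) : X.M) ^ n * u q ∈ X.O (b q) a :=
    fun q => X.loc h hd hl (b q) (u q) (hu q)
  choose n hn using h1
  exact ⟨Finset.univ.sup n, fun q => tpow_mem hl (Finset.le_sup (Finset.mem_univ q)) (hn q)⟩

theorem tt_pow_smul {a : Set X.i} (j : X.i) {l : X.i} (hl : l ∈ a) (n : ℕ) (f : X.AXs a)
    (e e' : X.II) : ((tt k j hl ^ n • f : X.AXs a) : Matrix X.II X.II X.M) e e' =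
      ((X.y j / X.y l : X.Mˣ) : X.M) ^ n * (f : Matrix X.II X.II X.M) e e' := by
  rw [algR_smul, SubmonoidClass.coe_pow, map_pow, evy_tt]

theorem tt_pow_ne (j l : X.i) (n : ℕ) : ((X.y j / X.y l : X.Mˣ) : X.M) ^ n ≠ 0 :=
  pow_ne_zero _ (Units.ne_zero _)

/-- the matrix with one entry -/
private def Xa_E (e e' : X.II) (w : X.M) : Matrix X.II X.II X.M := Matrix.single e e' w

private theorem Xa_mem {a : Set X.i} {e e' : X.II} {w : X.M} (hw : w ∈ X.O (X.tw e - X.tw e') a) :
    X.Xa_E e e' w ∈ X.AXs a := by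
  intro p q
  unfold Xa_E
  rw [Matrix.single_apply]
  split_ifs with h
  · obtain ⟨rfl, rfl⟩ := h
    exact hw
  · exact Submodule.zero_mem _

theorem AXs_fin {a : Set X.i} (ha : a.Nonempty) : Module.Finite (RR k a) (X.AXs a) := by
  classical
  have h1 : ∀ p : X.II × X.II, ∃ S : Finset X.M, (∀ w ∈ S, w ∈ X.O (X.tw p.1 - X.tw p.2) a) ∧
      ∀ u ∈ X.O (X.tw p.1 - X.tw p.2) a,
        u ∈ Submodule.span k {z : X.M | ∃ r ∈ RR k a, ∃ w ∈ S, z = evy X.y r * w} :=
    fun p => X.fg _ ha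
  choose S hS hSp using h1
  let G : Set (X.AXs a) := ⋃ p : X.II × X.II,
    {f | ∃ (w : X.M) (hw : w ∈ S p), f = ⟨X.Xa_E p.1 p.2 w, X.Xa_mem (hS p w hw)⟩}
  have hG : G.Finite := by
    refine Set.finite_iUnion fun p => ?_
    have h2 : {f : X.AXs a | ∃ (w : X.M) (hw : w ∈ S p),
        f = ⟨X.Xa_E p.1 p.2 w, X.Xa_mem (hS p w hw)⟩} =
        Set.range (fun w : S p => (⟨X.Xa_E p.1 p.2 w.1, X.Xa_mem (hS p w.1 w.2)⟩ : X.AXs a)) := by
      ext f
      constructor
      · rintro ⟨w, hw, rfl⟩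
        exact ⟨⟨w, hw⟩, rfl⟩
      · rintro ⟨w, rfl⟩
        exact ⟨w.1, w.2, rfl⟩
    rw [h2]
    exact Set.finite_range _
  refine ⟨⟨hG.toFinset, ?_⟩⟩
  rw [Set.Finite.coe_toFinset, eq_top_iff]
  have key : ∀ (p : X.II × X.II) (u : X.M) (hu : u ∈ X.O (X.tw p.1 - X.tw p.2) a),
      (⟨X.Xa_E p.1 p.2 u, X.Xa_mem hu⟩ : X.AXs a) ∈ Submodule.span (RR k a) G := by
    intro p u hu
    have h3 : ∀ u ∈ Submodule.span k {z : X.M | ∃ r ∈ RR k a, ∃ w ∈ S p, z = evy X.y r * w},
        ∀ hm : X.Xa_E p.1 p.2 u ∈ X.AXs a,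
          (⟨X.Xa_E p.1 p.2 u, hm⟩ : X.AXs a) ∈ Submodule.span (RR k a) G := by
      intro u hu
      induction hu using Submodule.span_induction with
      | mem z hz =>
        obtain ⟨r, hr, w, hw, rfl⟩ := hz
        intro hm
        have h4 : (⟨X.Xa_E p.1 p.2 (evy X.y r * w), hm⟩ : X.AXs a) =
            (⟨r, hr⟩ : RR k a) • (⟨X.Xa_E p.1 p.2 w, X.Xa_mem (hS p w hw)⟩ : X.AXs a) := by
          refine Subtype.ext (Matrix.ext fun e e' => ?_)
          rw [algR_smul]
          change Matrix.single p.1 p.2 (evy X.y r * w) e e' =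
            evy X.y r * Matrix.single p.1 p.2 w e e'
          rw [Matrix.single_apply, Matrix.single_apply, mul_ite, mul_zero]
        rw [h4]
        exact Submodule.smul_mem _ _ (Submodule.subset_span
          (Set.mem_iUnion.2 ⟨p, w, hw, rfl⟩))
      | zero =>
        intro hm
        have h4 : (⟨X.Xa_E p.1 p.2 0, hm⟩ : X.AXs a) = 0 := by
          refine Subtype.ext (Matrix.ext fun e e' => ?_)
          change Matrix.single p.1 p.2 (0 : X.M) e e' = 0
          rw [Matrix.single_zero, Matrix.zero_apply]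
        rw [h4]
        exact Submodule.zero_mem _
      | add x y hx hy ihx ihy =>
        intro hm
        have mx : ∀ z ∈ Submodule.span k
            {z : X.M | ∃ r ∈ RR k a, ∃ w ∈ S p, z = evy X.y r * w},
            X.Xa_E p.1 p.2 z ∈ X.AXs a := by
          intro z hz
          refine X.Xa_mem ?_
          refine (Submodule.span_le.2 ?_) hz
          rintro _ ⟨r, hr, w, hw, rfl⟩
          exact mul_mem0 (X.R_mem a r hr) (hS p w hw)
        have h4 : (⟨X.Xa_E p.1 p.2 (x + y), hm⟩ : X.AXs a) =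
            ⟨X.Xa_E p.1 p.2 x, mx x hx⟩ + ⟨X.Xa_E p.1 p.2 y, mx y hy⟩ := by
          refine Subtype.ext ?_
          change Matrix.single p.1 p.2 (x + y) = Matrix.single p.1 p.2 x + Matrix.single p.1 p.2 y
          rw [Matrix.single_add]
        rw [h4]
        exact Submodule.add_mem _ (ihx _) (ihy _)
      | smul c x hx ihx =>
        intro hm
        have mx : X.Xa_E p.1 p.2 x ∈ X.AXs a := by
          refine X.Xa_mem ?_
          refine (Submodule.span_le.2 ?_) hx
          rintro _ ⟨r, hr, w, hw, rfl⟩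
          exact mul_mem0 (X.R_mem a r hr) (hS p w hw)
        have h4 : (⟨X.Xa_E p.1 p.2 (c • x), hm⟩ : X.AXs a) =
            algebraMap k (RR k a) c • (⟨X.Xa_E p.1 p.2 x, mx⟩ : X.AXs a) := by
          rw [algebraMap_smul]
          refine Subtype.ext ?_
          change Matrix.single p.1 p.2 (c • x) = c • Matrix.single p.1 p.2 x
          rw [Matrix.smul_single]
        rw [h4]
        exact Submodule.smul_mem _ _ (ihx _)
    exact h3 u (hSp p u hu) _
  rintro ⟨f, hf⟩ -
  have h5 : (⟨f, hf⟩ : X.AXs a) = ∑ p : X.II × X.II,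
      (⟨X.Xa_E p.1 p.2 (f p.1 p.2), X.Xa_mem (hf p.1 p.2)⟩ : X.AXs a) := by
    refine Subtype.ext ?_
    rw [AddSubmonoidClass.coe_finsetSum]
    change f = ∑ p : X.II × X.II, Matrix.single p.1 p.2 (f p.1 p.2)
    rw [Fintype.sum_prod_type]
    exact Matrix.matrix_eq_sum_single f
  rw [h5]
  exact Submodule.sum_mem _ fun p _ => key p _ (hf p.1 p.2)

/-- The coherent algebra `End(⨁ O(e))` of an X-datum. -/
def ca : CA k X.i where
  A := fun c => X.AXs c.1
  res := fun h => Subalgebra.inclusion (X.AXs_mono h)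
  res_R := fun {c d} h r => Subtype.ext (by
    change Matrix.scalar X.II (evy X.y (r : Lau k X.i)) =
      Matrix.scalar X.II (evy X.y ((rinc h r : RR k d.1) : Lau k X.i))
    rw [rinc_coe])
  res_id := fun _ _ => rfl
  res_res := fun _ _ _ => rfl
  surj := fun {c d} h {g} hg l hd f => by
    obtain ⟨n, hn⟩ := X.loc_fam (J := X.II × X.II) h hd hg (fun p => X.tw p.1 - X.tw p.2)
      (fun p => (f : Matrix X.II X.II X.M) p.1 p.2) (fun p => f.2 p.1 p.2)
    refine ⟨n, ⟨fun e e' => ((X.y l / X.y g : X.Mˣ) : X.M) ^ n *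
      (f : Matrix X.II X.II X.M) e e', fun e e' => hn (e, e')⟩, Subtype.ext ?_⟩
    refine Matrix.ext fun e e' => ?_
    rw [tt_pow_smul]
    rfl
  inj := fun {c d} h {g} hg l hd f hf => ⟨0, by
    have h1 : f = 0 := Subalgebra.inclusion_injective (X.AXs_mono h) (hf.trans (map_zero _).symm)
    rw [h1, smul_zero]⟩
  fin := fun c => X.AXs_fin c.2.1

theorem ca_A (c : Ch X.i) : X.ca.A c = X.AXs c.1 := rfl

end XT

end Pool.Agent.MP_6e5bed_ag_GG
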