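import Pool.Agent.Lib.MP_6e5bed_ag_GV.TX

set_option autoImplicit false
set_option linter.unusedVariables false

/-!
# MP_6e5bed_ag, THEOREM V: the algebras of endomorphisms of an X-datum with arbitrary twists
-/

noncomputable section

namespace Pool.Agent.MP_6e5bed_ag_GG

universe u

namespace XT

variable {k : Type u} [Field k] (X : XT k)

variable {X}

/-- PROOF. `AddMonoidAlgebra.lift_single`, the product has two factors. -/
theorem evy_tt {a : Set X.i} (j : X.i) {l : X.i} (hl : l ∈ a) :
    evy X.y (tt k j hl : Lau k X.i) = ((X.y j / X.y l : X.Mˣ) : X.M) := by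
  classical
  have h1 : evy X.y (tt k j hl : Lau k X.i) =
      ((∏ m, X.y m ^ (ex j l m) : X.Mˣ) : X.M) := by
    change evy X.y (AddMonoidAlgebra.single (ex j l) 1) = _
    unfold evy
    rw [AddMonoidAlgebra.lift_single, one_smul]
    rfl
  rw [h1]
  congr 1
  have h2 : ∀ m, X.y m ^ (ex j l m) = X.y m ^ ((Pi.single j (1 : ℤ) : X.i → ℤ) m) *
      (X.y m ^ ((Pi.single l (1 : ℤ) : X.i → ℤ) m))⁻¹ := fun m => by
    have h3 : ex j l m =
        (Pi.single j (1 : ℤ) : X.i → ℤ) m + -(Pi.single l (1 : ℤ) : X.i → ℤ) m := by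
      unfold ex
      rw [Pi.sub_apply, sub_eq_add_neg]
      congr 2
      congr
    rw [h3, zpow_add, zpow_neg]
  rw [Finset.prod_congr rfl fun m _ => h2 m, Finset.prod_mul_distrib, Finset.prod_inv_distrib]
  have h4 : ∀ j : X.i, ∏ m, X.y m ^ ((Pi.single j (1 : ℤ) : X.i → ℤ) m) = X.y j := fun j => by
    rw [Finset.prod_eq_single j]
    · rw [Pi.single_eq_same, zpow_one]
    · intro m _ hm
      rw [Pi.single_eq_of_ne hm, zpow_zero]
    · intro h
      exact absurd (Finset.mem_univ j) h
  rw [h4, h4, div_eq_mul_inv]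

/-- the quotient of two coordinates is a function on the charts of the denominator -/
theorem t_mem {a : Set X.i} (j : X.i) {l : X.i} (hl : l ∈ a) :
    ((X.y j / X.y l : X.Mˣ) : X.M) ∈ X.O 0 a := by
  rw [← evy_tt j hl]
  exact X.R_mem a _ (tt k j hl).2

theorem mul_mem0 {a : Set X.i} {b : X.G} {u v : X.M} (hu : u ∈ X.O 0 a) (hv : v ∈ X.O b a) :
    u * v ∈ X.O b a := by
  have h := X.mul_mem hu hv
  rwa [zero_add] at h

theorem pow_mem0 {a : Set X.i} {u : X.M} (hu : u ∈ X.O 0 a) (n : ℕ) : u ^ n ∈ X.O 0 a := by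
  induction n with
  | zero => rw [pow_zero]; exact X.one_mem a
  | succ n ih => rw [pow_succ]; exact mul_mem0 ih hu

theorem tpow_mem {a : Set X.i} {j l : X.i} (hl : l ∈ a) {b : X.G} {u : X.M} {n n' : ℕ}
    (h : n ≤ n') (hu : ((X.y j / X.y l : X.Mˣ) : X.M) ^ n * u ∈ X.O b a) :
    ((X.y j / X.y l : X.Mˣ) : X.M) ^ n' * u ∈ X.O b a := by
  obtain ⟨m, rfl⟩ := Nat.exists_eq_add_of_le h
  rw [add_comm, pow_add, mul_assoc]
  exact mul_mem0 (pow_mem0 (t_mem j hl) m) hu

variable (X)

/-- the endomorphisms of `⨁ O(e)`, `e ∈ {0, 1}^D`, on the chart `a`: the matrices `f` over `M` with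
`f e e' ∈ O(e - e')` -/
def AXs (a : Set X.i) : Subalgebra k (Matrix X.II X.II X.M) where
  carrier := {f | ∀ e e', f e e' ∈ X.O (X.tw e - X.tw e') a}
  mul_mem' := fun {f g} hf hg e e' => by
    rw [Matrix.mul_apply]
    refine Submodule.sum_mem _ fun q _ => ?_
    have h := X.mul_mem (hf e q) (hg q e')
    rwa [sub_add_sub_cancel] at h
  add_mem' := fun {f g} hf hg e e' => Submodule.add_mem _ (hf e e') (hg e e')
  algebraMap_mem' := fun c e e' => by
    rw [Matrix.algebraMap_matrix_apply]
    split_ifs with h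
    · subst h
      rw [sub_self, Algebra.algebraMap_eq_smul_one]
      exact Submodule.smul_mem _ _ (X.one_mem a)
    · exact Submodule.zero_mem _

theorem mem_AXs {a : Set X.i} {f : Matrix X.II X.II X.M} :
    f ∈ X.AXs a ↔ ∀ e e', f e e' ∈ X.O (X.tw e - X.tw e') a := Iff.rfl

theorem AXs_mono {a a' : Set X.i} (h : a ⊆ a') : X.AXs a ≤ X.AXs a' :=
  fun _ hf e e' => X.mono _ h (hf e e')

/-- functions as scalar matrices -/
def RAX (a : Set X.i) : RR k a →+* X.AXs a where
  toFun := fun r => ⟨Matrix.scalar X.II (evy X.y (r : Lau k X.i)), fun e e' => by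
    rw [Matrix.scalar_apply, Matrix.diagonal_apply]
    split_ifs with h
    · subst h
      rw [sub_self]
      exact X.R_mem a _ r.2
    · exact Submodule.zero_mem _⟩
  map_one' := Subtype.ext (by
    change Matrix.scalar X.II (evy X.y ((1 : RR k a) : Lau k X.i)) = 1
    rw [OneMemClass.coe_one, map_one, map_one])
  map_mul' := fun r r' => Subtype.ext (by
    change Matrix.scalar X.II (evy X.y ((r * r' : RR k a) : Lau k X.i)) = _
    rw [MulMemClass.coe_mul, map_mul, map_mul]
    rfl)
  map_zero' := Subtype.ext (by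
    change Matrix.scalar X.II (evy X.y ((0 : RR k a) : Lau k X.i)) = 0
    rw [ZeroMemClass.coe_zero, map_zero, map_zero])
  map_add' := fun r r' => Subtype.ext (by
    change Matrix.scalar X.II (evy X.y ((r + r' : RR k a) : Lau k X.i)) = _
    rw [AddMemClass.coe_add, map_add, map_add]
    rfl)

theorem RAX_coe (a : Set X.i) (r : RR k a) :
    (X.RAX a r : Matrix X.II X.II X.M) = Matrix.scalar X.II (evy X.y (r : Lau k X.i)) := rfl

instance algR (a : Set X.i) : Algebra (RR k a) (X.AXs a) :=
  (X.RAX a).toAlgebra' fun r f => Subtype.ext (by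
    change Matrix.scalar X.II (evy X.y (r : Lau k X.i)) * (f : Matrix X.II X.II X.M) =
      (f : Matrix X.II X.II X.M) * Matrix.scalar X.II (evy X.y (r : Lau k X.i))
    exact (Matrix.scalar_commute _ (fun _ => Commute.all _ _) _).eq)

theorem algR_smul (a : Set X.i) (r : RR k a) (f : X.AXs a) (e e' : X.II) :
    ((r • f : X.AXs a) : Matrix X.II X.II X.M) e e' =
      evy X.y (r : Lau k X.i) * (f : Matrix X.II X.II X.M) e e' := by
  change (Matrix.scalar X.II (evy X.y (r : Lau k X.i)) * (f : Matrix X.II X.II X.M)) e e' = _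
  rw [Matrix.scalar_apply, Matrix.diagonal_mul]

instance towR (a : Set X.i) : IsScalarTower k (RR k a) (X.AXs a) where
  smul_assoc := fun c r f => by
    refine Subtype.ext (Matrix.ext fun e e' => ?_)
    rw [algR_smul]
    change evy X.y ((c • r : RR k a) : Lau k X.i) * (f : Matrix X.II X.II X.M) e e' =
      c • ((r • f : X.AXs a) : Matrix X.II X.II X.M) e e'
    rw [algR_smul, SetLike.val_smul, map_smul, smul_mul_assoc]

end XT

end Pool.Agent.MP_6e5bed_ag_GG
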