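import Pool.Agent.Lib.MP_6e5bed_ag_GV.TOn
import Pool.Agent.Lib.MP_6e5bed_ag_GV.TCt
import Pool.Agent.Lib.MP_6e5bed_ag_GV.TCh
import Pool.Agent.Lib.MP_6e5bed_ag_GG.LZ

set_option autoImplicit false
set_option linter.unusedVariables false
set_option linter.unusedSectionVars false

/-!
# MP_6e5bed_ag, THEOREM V, LOC: the localisation theorem

The pairing of the rows with entries in a finite dimensional vector space `T` over the function
field and the columns with entries in `F`, evaluated at a chart, is a quasi-isomorphism to `T ⊗ U`.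
-/

noncomputable section

namespace Pool.Agent.MP_6e5bed_ag_GG

open Pool.Agent.MP_6e5bed_ag_NC Pool.Agent.MP_6e5bed_ag_PN
open Pool.Agent.MP_6e5bed_ag_NS (Cx CHom CPr co CEx concH conc_map)
open Pool.Agent.MP_6e5bed_ag_PS (gc)
open scoped TensorProduct

universe u

variable {k : Type u} [Field k]

/-! ### The presheaf of all rows -/

section rows

variable (X : XT k) (T : Type u) [AddCommGroup T] [Module k T] [Module X.M T]
  [IsScalarTower k X.M T]

/-- The presheaf of all rows with entries in `T`, on a chart. -/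
def trowTM (c : Ch X.i) : Bim (base k) (ring k (X.AXs c.1)) :=
  kbR ((rowA (k := k) T).comp (X.AXs c.1).val.toLinearMap) (fun m => rowA_one m)
    (fun a a' m => rowA_mul a.1 a'.1 m)

theorem trowTM_r (c : Ch X.i) (g : X.AXs c.1) (f : X.II → T) :
    (trowTM X T c).r g f = rowA (k := k) T (g : Matrix X.II X.II X.M) f := rfl

theorem trowTM_l (c : Ch X.i) (b : k) (f : X.II → T) :
    (trowTM X T c).l b f = b • f := base_l (trowTM X T c) b f

/-- The presheaf of all rows with entries in `T`. -/
def trowT : PB (PA.con X.i (base k)) X.ca.pa where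
  M := fun c => trowTM X T c
  ρ := fun {c d} h =>
    { f := (LinearMap.id : (X.II → T) →ₗ[k] (X.II → T))
      deg := fun {i x} hx => by
        rw [add_zero]
        exact hx
      map_l := fun b x => by
        rw [Dg.sp_zero]
        exact (trowTM_l X T c b x).trans (trowTM_l X T d b x).symm
      map_r := fun a x => rfl }
  dd := fun {c d} h => LinearMap.ext fun x => by
    rw [GMap.dd_apply, sg_zero, one_smul, LinearMap.zero_apply, sub_eq_zero]
    exact (map_zero (LinearMap.id : (X.II → T) →ₗ[k] (X.II → T))).symm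
  ρ_id := fun _ _ => rfl
  ρ_ρ := fun _ _ _ => rfl

variable (U : Type u) [AddCommGroup U] [Module k U] [Module X.M U] [IsScalarTower k X.M U]
  (E0 : Submodule k U)

/-- all rows, as elements of a subspace -/
def trowC (a : Set X.i) : (X.II → T) →ₗ[k] tcolS X (fun e => (tcnT X U E0 T).P e a) :=
  LinearMap.codRestrict _ (LinearMap.id : (X.II → T) →ₗ[k] (X.II → T))
    (fun _ _ => (Submodule.mem_top : _ ∈ (⊤ : Submodule k T)))

theorem trowC_coe (a : Set X.i) (f : X.II → T) : (trowC X T U E0 a f).1 = f := rfl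

theorem trowC_bij (a : Set X.i) : Function.Bijective (trowC X T U E0 a) :=
  ⟨fun f g h => congrArg Subtype.val h, fun g => ⟨g.1, rfl⟩⟩

/-- The comparison of the two presheaves of rows. -/
def trowTc : PBH (trowT X T) (tcnT X U E0 T).row where
  f := fun c =>
    { f := trowC X T U E0 c.1
      deg := fun {i x} hx => by
        rw [add_zero]
        exact conc_map (trowC X T U E0 c.1) hx
      map_l := fun b x => by
        rw [Dg.sp_zero]
        refine (congrArg (trowC X T U E0 c.1) (trowTM_l X T c b x)).trans ?_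
        refine Eq.trans ?_ (base_l ((tcnT X U E0 T).row.M c) b (trowC X T U E0 c.1 x)).symm
        exact (trowC X T U E0 c.1).map_smul (show k from b) x
      map_r := fun (a : X.AXs c.1) x => rfl }
  dd := fun c => LinearMap.ext fun x => by
    rw [GMap.dd_apply, sg_zero, one_smul, LinearMap.zero_apply, sub_eq_zero]
    exact (map_zero (trowC X T U E0 c.1)).symm
  nat := fun _ _ => rfl

theorem trowTc_bij (c : Ch X.i) : Function.Bijective ((trowTc X T U E0).f c).f :=
  trowC_bij X T U E0 c.1

theorem trowTc_coe (c : Ch X.i) (f : X.II → T) : (((trowTc X T U E0).f c).f f).1 = f := rfl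

end rows

/-! ### The localisation theorem -/

section main

variable (X : XT k) (T U : Type u) [AddCommGroup T] [Module k T] [Module X.M T]
  [IsScalarTower k X.M T] [AddCommGroup U] [Module k U] [Module X.M U] [IsScalarTower k X.M U]
  (E0 : Submodule k U)

/-- the inclusion of the (full) subspace of values -/
def tLZ_top (a : Set X.i) : CHom (Cx.conc k ((tcnT X U E0 T).Z a)) (Cx.conc k (T ⊗[X.M] U)) :=
  concH (show (tcnT X U E0 T).Z a →ₗ[k] T ⊗[X.M] U from (⊤ : Submodule k (T ⊗[X.M] U)).subtype)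

theorem tLZ_top_bij (a : Set X.i) : Function.Bijective (tLZ_top X T U E0 a).f :=
  ⟨fun x y h => Subtype.ext h, fun y => ⟨⟨y, trivial⟩, rfl⟩⟩

theorem tLZ_ρ_bij {c d : Ch X.i} (h : c ≤ d) :
    Function.Bijective ((tcnT X U E0 T).ro.Z.ρ h).f := by
  change Function.Bijective (fun x : (tcnT X U E0 T).Z c.1 => (⟨x.1, trivial⟩ :
    (tcnT X U E0 T).Z d.1))
  exact ⟨fun x y h => Subtype.ext (congrArg Subtype.val h), fun y => ⟨⟨y.1, trivial⟩, rfl⟩⟩

/-- the composition of the maps of presheaves of rows -/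
def tLZ_fR {R : PB (PA.con X.i (base k)) X.ca.pa} (fR : PBH R (trowT X T)) :
    PBH R (tcnT X U E0 T).row where
  f := fun c => (fR.f c).comp ((trowTc X T U E0).f c) (add_zero 0)
  dd := fun c => LinearMap.ext fun x => by
    rw [GMap.dd_comp, fR.dd c, (trowTc X T U E0).dd c]
    simp
  nat := fun h x => ((trowTc X T U E0).nat h _).trans (congrArg _ (fR.nat h x))

/-- LOC: the pairing of the rows with entries in `T` and the columns with entries in `F`, evaluated
at a chart, is a quasi-isomorphism to `T ⊗ U`. -/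
theorem tloc (hGen : X.Gen) (hW : Proper (TT X.ca)) [Module.Finite X.M T]
    (hE0 : Submodule.span X.M (E0 : Set U) = ⊤) {P : Bim (TT X.ca) (TT X.ca)} (hP : Perf P)
    {w : GMap 0 P (diag (TT X.ca))} (hw : QIso w) {l : X.i} (q : Ptr (LL X.i) l)
    (R : PB (PA.con X.i (base k)) X.ca.pa) (N : PB X.ca.pa (PA.con X.i (base k)))
    (fR : PBH R (trowT X T)) (hR : ∀ c, Function.Bijective (fR.f c).f)
    (fN : PBH N (tcolF X U E0)) (hN : ∀ c, Function.Bijective (fN.f c).f)
    (Phi : CHom (bcx (tb (cBL R (LL X.i) (FS.e X.i)) (tb P (cBR N (LL X.i) (FS.e X.i)))))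
      (Cx.conc k (T ⊗[X.M] U)))
    (hPhi : ∀ (x : (cBL R (LL X.i) (FS.e X.i)).M) (p : P.M) (y : (cBR N (LL X.i) (FS.e X.i)).M),
      Phi.f (tm (M := cBL R (LL X.i) (FS.e X.i)) (N := tb P (cBR N (LL X.i) (FS.e X.i))) x
        (tm (M := P) (N := cBR N (LL X.i) (FS.e X.i)) p y)) =
      ∑ e : X.II, (show X.II → T from (fR.f _).f ((ev R.pc q (FS.e X.i)).f x)) e ⊗ₜ[X.M]
        (show tcolS X (fun e => X.Fs U E0 (X.tw e) ((FS.e X.i).ins l).1) from
          (fN.f _).f ((ev N.pc q (FS.e X.i)).f
            ((cBR N (LL X.i) (FS.e X.i)).l (w.f p) y))).1 e) : Qi Phi := by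
  have hζ : QIso (zet w (cBR (tcolF X U E0) (LL X.i) (FS.e X.i))) := zet_qiso hW hP hw _
  have hG : (tcnT X U E0 T).G (zet w (cBR (tcolF X U E0) (LL X.i) (FS.e X.i))) hζ.1 :=
    tcnT_good T (tcn_good_tw hE0 (fun b => hGen U E0 (lflat_tb hP _) hζ b))
  have h4 : Qi (ev (tcnT X U E0 T).ro.Z q (FS.e X.i)) := ev_qi _
    (fun {c d} h => tLZ_ρ_bij X T U E0 h) q _
  have h5 : Qi (tLZ_top X T U E0 ((FS.e X.i).ins l).1) := Qi.of_bij (tLZ_top_bij X T U E0 _)
  refine loc_abs (tcnT X U E0 T).ro hG q h4 (tLZ_top X T U E0 ((FS.e X.i).ins l).1) h5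
    (tLZ_fR X T U E0 fR) (fun c => ?_) fN hN Phi (fun x p y => ?_)
  · exact (trowTc_bij X T U E0 c).comp (hR c)
  · exact hPhi x p y

end main

end Pool.Agent.MP_6e5bed_ag_GG
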