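import Pool.Agent.Lib.MP_6e5bed_ag_GV.TN
import Pool.Agent.Lib.MP_6e5bed_ag_GG.LgT

set_option autoImplicit false
set_option linter.unusedVariables false
set_option linter.unusedSectionVars false

/-!
# MP_6e5bed_ag, THEOREM V: `(S ⊗_L M) ⊗_M U = S ⊗_L U`
-/

noncomputable section

namespace Pool.Agent.MP_6e5bed_ag_GG

open scoped TensorProduct

universe u

attribute [local instance] XT.kbG XT.kbk XT.kbM XT.kbT

variable {k : Type u} [Field k]

namespace XT

variable (X : XT k) (L : Type u) [Field L] [Algebra k L] (S : Type u) [Ring S] [Algebra k S]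
  [Algebra L S] [IsScalarTower k L S] [Algebra L X.M] [IsScalarTower k L X.M]
  (U : Type u) [AddCommGroup U] [Module k U] [Module X.M U] [IsScalarTower k X.M U]
  [Module L U] [IsScalarTower L X.M U] [IsScalarTower k L U]

/-- `S ⊗_L M` as a vector space over `M` -/
abbrev TT' : Type u := X.KB (X.inM L S)

/-- the map `(S ⊗_L M) ⊗_M U → S ⊗_L U` -/
def tsA : X.TT' L S ⊗[X.M] U →+ S ⊗[L] U :=
  TensorProduct.liftAddHom
    { toFun := fun x => (X.pK L S U ((kb (X.inM L S)).symm x)).toAddMonoidHom
      map_zero' := by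
        rw [map_zero, map_zero]
        rfl
      map_add' := fun x y => by
        rw [map_add, map_add]
        rfl }
    (fun r x u => by
      change X.pK L S U ((kb (X.inM L S)).symm (r • x)) u =
        X.pK L S U ((kb (X.inM L S)).symm x) (r • u)
      obtain ⟨x, rfl⟩ := (kb (X.inM L S)).surjective x
      rw [smul_kb, LinearEquiv.symm_apply_apply, LinearEquiv.symm_apply_apply, X.inM_comm,
        X.pK_bal])

variable {L S U}

theorem tsA_tmul (x : X.KK L S) (u : U) :
    X.tsA L S U (kb (X.inM L S) x ⊗ₜ[X.M] u) = X.pK L S U x u := rfl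

variable (L S U)

/-- the map `S ⊗_L U → (S ⊗_L M) ⊗_M U` -/
def tsB : S ⊗[L] U →+ X.TT' L S ⊗[X.M] U :=
  TensorProduct.liftAddHom
    { toFun := fun s =>
        { toFun := fun u => kb (X.inM L S) (s ⊗ₜ[L] (1 : X.M)) ⊗ₜ[X.M] u
          map_zero' := TensorProduct.tmul_zero _ _
          map_add' := fun u v => TensorProduct.tmul_add _ _ _ }
      map_zero' := by
        refine AddMonoidHom.ext fun u => ?_
        change kb (X.inM L S) ((0 : S) ⊗ₜ[L] (1 : X.M)) ⊗ₜ[X.M] u = 0
        rw [TensorProduct.zero_tmul, map_zero, TensorProduct.zero_tmul]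
      map_add' := fun s t => by
        refine AddMonoidHom.ext fun u => ?_
        change kb (X.inM L S) ((s + t) ⊗ₜ[L] (1 : X.M)) ⊗ₜ[X.M] u = _
        rw [TensorProduct.add_tmul, map_add, TensorProduct.add_tmul]
        rfl }
    (fun r s u => by
      change kb (X.inM L S) ((r • s) ⊗ₜ[L] (1 : X.M)) ⊗ₜ[X.M] u =
        kb (X.inM L S) (s ⊗ₜ[L] (1 : X.M)) ⊗ₜ[X.M] (r • u)
      have h1 : r • u = (algebraMap L X.M r) • u := (algebraMap_smul X.M r u).symm
      have h2 : (r • s) ⊗ₜ[L] (1 : X.M) =
          X.inM L S (algebraMap L X.M r) * s ⊗ₜ[L] (1 : X.M) := by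
        rw [inM_apply, Algebra.TensorProduct.tmul_mul_tmul, one_mul, mul_one,
          Algebra.algebraMap_eq_smul_one, TensorProduct.tmul_smul, TensorProduct.smul_tmul']
      rw [h1, h2, ← smul_kb, TensorProduct.smul_tmul])

variable {L S U}

theorem tsB_tmul (s : S) (u : U) : X.tsB L S U (s ⊗ₜ[L] u) =
    kb (X.inM L S) (s ⊗ₜ[L] (1 : X.M)) ⊗ₜ[X.M] u := rfl

theorem tsA_tsB (x : S ⊗[L] U) : X.tsA L S U (X.tsB L S U x) = x := by
  induction x using TensorProduct.induction_on with
  | zero => rw [map_zero, map_zero]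
  | tmul s u => rw [tsB_tmul, tsA_tmul, pK_tmul, one_smul]
  | add x y hx hy => rw [map_add, map_add, hx, hy]

theorem tsB_tsA (x : X.TT' L S ⊗[X.M] U) : X.tsB L S U (X.tsA L S U x) = x := by
  induction x using TensorProduct.induction_on with
  | zero => rw [map_zero, map_zero]
  | tmul t u =>
    obtain ⟨t, rfl⟩ := (kb (X.inM L S)).surjective t
    rw [tsA_tmul]
    induction t using TensorProduct.induction_on with
    | zero =>
      rw [map_zero, LinearMap.zero_apply, map_zero, map_zero, TensorProduct.zero_tmul]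
    | tmul s v =>
      have h1 : (s ⊗ₜ[L] v : X.KK L S) = X.inM L S v * s ⊗ₜ[L] (1 : X.M) := by
        rw [inM_apply, Algebra.TensorProduct.tmul_mul_tmul, one_mul, mul_one]
      rw [pK_tmul, tsB_tmul, ← TensorProduct.smul_tmul, smul_kb, ← h1]
    | add x y hx hy =>
      rw [map_add, LinearMap.add_apply, map_add, hx, hy, map_add, TensorProduct.add_tmul]
  | add x y hx hy => rw [map_add, map_add, hx, hy]

variable (L S U)

/-- `(S ⊗_L M) ⊗_M U = S ⊗_L U` -/
def tsE : S ⊗[L] U ≃ₗ[k] X.TT' L S ⊗[X.M] U where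
  toFun := X.tsB L S U
  map_add' := map_add _
  map_smul' := fun c x => by
    rw [RingHom.id_apply]
    induction x using TensorProduct.induction_on with
    | zero => rw [smul_zero, map_zero, smul_zero]
    | tmul s u =>
      rw [TensorProduct.smul_tmul', tsB_tmul, tsB_tmul, ← TensorProduct.smul_tmul', map_smul,
        TensorProduct.smul_tmul']
    | add x y hx hy => rw [smul_add, map_add, map_add, smul_add, hx, hy]
  invFun := X.tsA L S U
  left_inv := X.tsA_tsB
  right_inv := X.tsB_tsA

variable {L S U}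

theorem tsE_pK (x : X.KK L S) (u : U) : X.tsE L S U (X.pK L S U x u) =
    kb (X.inM L S) x ⊗ₜ[X.M] u := by
  change X.tsB L S U _ = _
  rw [← tsA_tmul, tsB_tsA]

theorem fin_TT' [Module.Finite L S] : Module.Finite X.M (X.TT' L S) := by
  classical
  obtain ⟨s, hs⟩ := (inferInstance : Module.Finite L S).fg_top
  refine ⟨⟨s.image (fun t => kb (X.inM L S) (t ⊗ₜ[L] (1 : X.M))), ?_⟩⟩
  rw [eq_top_iff]
  rintro x -
  obtain ⟨x, rfl⟩ := (kb (X.inM L S)).surjective x
  induction x using TensorProduct.induction_on with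
  | zero => rw [map_zero]; exact zero_mem _
  | add x y hx hy => rw [map_add]; exact add_mem hx hy
  | tmul t v =>
    have h1 : (t ⊗ₜ[L] v : X.KK L S) = X.inM L S v * t ⊗ₜ[L] (1 : X.M) := by
      rw [inM_apply, Algebra.TensorProduct.tmul_mul_tmul, one_mul, mul_one]
    rw [h1, ← smul_kb]
    refine Submodule.smul_mem _ v ?_
    clear h1
    have h2 : t ∈ Submodule.span L (s : Set S) := by rw [hs]; trivial
    induction h2 using Submodule.span_induction with
    | mem t ht => exact Submodule.subset_span (by simpa using ⟨t, ht, rfl⟩)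
    | zero => rw [TensorProduct.zero_tmul, map_zero]; exact zero_mem _
    | add x y _ _ hx hy => rw [TensorProduct.add_tmul, map_add]; exact add_mem hx hy
    | smul c x _ hx =>
      have h3 : ((c • x) ⊗ₜ[L] (1 : X.M) : X.KK L S) =
          X.inM L S (algebraMap L X.M c) * x ⊗ₜ[L] (1 : X.M) := by
        rw [inM_apply, Algebra.TensorProduct.tmul_mul_tmul, one_mul, mul_one,
          Algebra.algebraMap_eq_smul_one, TensorProduct.tmul_smul, TensorProduct.smul_tmul']
      rw [h3, ← smul_kb]
      exact Submodule.smul_mem _ _ hx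

end XT

end Pool.Agent.MP_6e5bed_ag_GG
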