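import Pool.Agent.Lib.MP_6e5bed_ag_GV.TgO
import Pool.Agent.Lib.MP_6e5bed_ag_GV.TMain
import Pool.Agent.Lib.MP_6e5bed_ag_GG.LgP

set_option autoImplicit false
set_option linter.unusedVariables false
set_option linter.unusedSectionVars false

/-!
# MP_6e5bed_ag, THEOREM V, (8.5): LOC for the pairing of rows and columns
-/

noncomputable section

namespace Pool.Agent.MP_6e5bed_ag_GG

open Pool.Agent.MP_6e5bed_ag_NC Pool.Agent.MP_6e5bed_ag_PN
open Pool.Agent.MP_6e5bed_ag_NS (Cx CHom concH conc_map)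
open scoped TensorProduct

universe u

attribute [local instance] XT.kbG XT.kbk XT.kbM XT.kbT XT.fin_TT'

variable {k : Type u} [Field k] {i j : Type} [Fintype i] [Fintype j] {A : CA k i} {A' : CA k j}
  {m : Ch i} (g : GD A m) (X : XT k) (L : Type u) [Field L] [Algebra k L]
  [Algebra L g.S] [IsScalarTower k L g.S] [Algebra L X.M] [IsScalarTower k L X.M]

/-- the section of the target as a morphism of complexes -/
def GD.tiz {W : LPre L A'} (c' : Ch j) : CHom (bcx ((X.sZ g.cone W).kb (m, c')).bim)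
    (Cx.conc k (X.TT' L g.S ⊗[X.M] (X.M ⊗[L] W.E c'))) where
  f := g.tizf X L c'
  deg := fun hx => conc_map (g.tizf X L c') hx
  d := fun x => (map_zero (g.tizf X L c')).symm

/-- the columns with entries in `E0` generate -/
theorem E0D.tim_span {W : LPre L A'} (D : E0D W) (c' : Ch j) :
    Submodule.span X.M (D.im X.M c' : Set (X.M ⊗[L] W.E c')) = ⊤ := by
  rw [eq_top_iff]
  rintro x -
  induction x using TensorProduct.induction_on with
  | zero => exact zero_mem _
  | add x y hx hy => exact add_mem hx hy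
  | tmul u v =>
    have h1 : (u ⊗ₜ[L] v : X.M ⊗[L] W.E c') = u • ((1 : X.M) ⊗ₜ[L] v) := by
      rw [TensorProduct.smul_tmul', smul_eq_mul, mul_one]
    rw [h1]
    refine Submodule.smul_mem _ u ?_
    clear h1
    have h2 := D.gen c' v
    induction h2 using Submodule.span_induction with
    | mem v hv => exact Submodule.subset_span ⟨v, hv, rfl⟩
    | zero => rw [TensorProduct.tmul_zero]; exact zero_mem _
    | add x y _ _ hx hy => rw [TensorProduct.tmul_add]; exact add_mem hx hy
    | smul c x _ hx =>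
      have h3 : ((1 : X.M) ⊗ₜ[L] (c • x) : X.M ⊗[L] W.E c') =
          (algebraMap L X.M c) • ((1 : X.M) ⊗ₜ[L] x) := by
        rw [TensorProduct.tmul_smul, algebraMap_smul]
      rw [h3]
      exact Submodule.smul_mem _ _ hx

/-- LOC for the pairing of rows and columns -/
theorem thqp (hGen : X.Gen) [Module.Finite L g.S] {W : LPre L A'} (D : E0D W) : tHqP g X L D := by
  intro V hV ω hω l q c'
  refine tqiso_psi (Xr := (g.tnR X L).bp.two.snd m) (Yc := (D.tn2 X).bp.two.fst c')
    (T := X.TT' L g.S) (U := X.M ⊗[L] W.E c') (E0 := D.im X.M c') hGen (proper_TT finBB)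
    (D.tim_span X L c') hV hω q (g.tfR X L) (fun c => g.tfRf_bij X L c) (D.tfN X L c')
    (fun c => D.tfNf_bij X L c' c) (((g.tpR X L D ((FS.e X.i).ins l)).bpr q).b (m, c'))
    (g.tiz X L c') (g.tizf_bij X L c') ?_
  intro x y
  have h1 := X.rc_apply (L := L) (S := g.S) (U := X.M ⊗[L] W.E c')
    (X.vR g.cone (((g.tnR X L).evx q m).f x) ⟨le_refl m⟩)
    (X.vC W ((D.tn2i X).f ((FS.e X.i).ins l, c') (((D.tn2 X).evy q c').f y)))
  refine (congrArg (X.tsE L g.S (X.M ⊗[L] W.E c')) h1).trans ?_
  rw [map_sum]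
  refine Finset.sum_congr rfl fun e _ => ?_
  exact X.tsE_pK _ _

end Pool.Agent.MP_6e5bed_ag_GG
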