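import Mathlib

set_option autoImplicit false

/-!
# MP_6e5bed_ag, THEOREM V, LOC: induction over the twists
-/

namespace Pool.Agent.MP_6e5bed_ag_GG

/-- A property of the integers which holds for `0 ≤ b < N` and which is compatible with the Koszul
sequences of length `N` holds for all integers. -/
theorem window_all {N : ℕ} (hN : 0 < N) (Q : ℤ → Prop)
    (h0 : ∀ b : ℤ, 0 ≤ b → b < N → Q b)
    (hu : ∀ b : ℤ, (∀ n : ℕ, 0 < n → n ≤ N → Q (b - n)) → Q b)
    (hd : ∀ b : ℤ, (∀ n : ℕ, n < N → Q (b - n)) → Q (b - N)) (b : ℤ) : Q b := by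
  have key : ∀ m : ℤ, ∀ b : ℤ, m ≤ b → b < m + N → Q b := by
    intro m
    induction m using Int.induction_on with
    | zero =>
      intro b h1 h2
      exact h0 b h1 (by rwa [zero_add] at h2)
    | succ m ih =>
      intro b h1 h2
      by_cases h : b < m + N
      · exact ih b (by omega) h
      · refine hu b fun n h3 h4 => ih _ ?_ ?_
        · omega
        · omega
    | pred m ih =>
      intro b h1 h2
      by_cases h : -(m : ℤ) ≤ b
      · exact ih b h (by omega)
      · have e : b = (-(m : ℤ) + N - 1) - N := by omega
        rw [e]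
        refine hd _ fun n h3 => ih _ ?_ ?_
        · omega
        · omega
  exact key b b le_rfl (by omega)

end Pool.Agent.MP_6e5bed_ag_GG
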